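import Mathlib
import Pool.Agent.Lib.MP_7c08ba_nt.Par.Stmts

set_option autoImplicit false

/-!
Local duality and the local Euler characteristic for pro-`p` groups with a one dimensional
`H²(G, 𝔽_p)` and nondegenerate cup product: definitions and statements of the modules.
-/

noncomputable section

namespace BKND

open BKPar (Loc1 Loc2)
open Pool.Agent.Lib.MP_7c08ba_nt (AbsGal)
open Matrix

universe u

/-! ### Part 1: cochains of finite modules -/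

section Mod

variable {G : Type*} [Group G] [TopologicalSpace G] {M : Type*} [AddCommGroup M]

/-- smooth actions: an open subgroup acts trivially -/
def Sm (ρ : G →* AddMonoid.End M) : Prop :=
  ∃ W : Subgroup G, IsOpen (W : Set G) ∧ ∀ w ∈ W, ρ w = 1

theorem Loc1.const {X : Type*} (x : X) : Loc1 (fun _ : G => x) :=
  ⟨⊤, isOpen_univ, fun _ _ _ => rfl⟩

theorem Loc2.const {X : Type*} (x : X) : Loc2 (fun _ _ : G => x) :=
  ⟨⊤, isOpen_univ, fun _ _ _ _ _ _ => rfl⟩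

theorem Loc1.map {X Y : Type*} {f : G → X} (hf : Loc1 f) (F : X → Y) : Loc1 fun g => F (f g) := by
  obtain ⟨W, hW, h⟩ := hf
  exact ⟨W, hW, fun g w hw => congrArg F (h g w hw)⟩

theorem Loc2.map {X Y : Type*} {f : G → G → X} (hf : Loc2 f) (F : X → Y) :
    Loc2 fun g h => F (f g h) := by
  obtain ⟨W, hW, h⟩ := hf
  exact ⟨W, hW, fun g g' w hw w' hw' => congrArg F (h g g' w hw w' hw')⟩

theorem Loc1.map2 {X Y Z : Type*} {f : G → X} {f' : G → Y} (hf : Loc1 f) (hf' : Loc1 f')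
    (F : X → Y → Z) : Loc1 fun g => F (f g) (f' g) := by
  obtain ⟨W, hW, h⟩ := hf
  obtain ⟨W', hW', h'⟩ := hf'
  refine ⟨W ⊓ W', ?_, fun g w hw => congrArg₂ F (h g w hw.1) (h' g w hw.2)⟩
  rw [Subgroup.coe_inf]
  exact hW.inter hW'

theorem Loc2.map2 {X Y Z : Type*} {f : G → G → X} {f' : G → G → Y} (hf : Loc2 f) (hf' : Loc2 f')
    (F : X → Y → Z) : Loc2 fun g h => F (f g h) (f' g h) := by
  obtain ⟨W, hW, h⟩ := hf
  obtain ⟨W', hW', h'⟩ := hf'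
  refine ⟨W ⊓ W', ?_, fun g g' w hw w' hw' =>
    congrArg₂ F (h g g' w hw.1 w' hw'.1) (h' g g' w hw.2 w' hw'.2)⟩
  rw [Subgroup.coe_inf]
  exact hW.inter hW'

variable (ρ : G →* AddMonoid.End M)

/-- invariants -/
def H0 : AddSubgroup M where
  carrier := {m | ∀ g, ρ g m = m}
  add_mem' := by
    intro a b ha hb g
    rw [map_add, ha g, hb g]
  zero_mem' := fun g => map_zero _
  neg_mem' := by
    intro a ha g
    rw [map_neg, ha g]

/-- smooth one-cocycles -/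
def Z1 : AddSubgroup (G → M) where
  carrier := {f | Loc1 f ∧ ∀ g h, f (g * h) = f g + ρ g (f h)}
  add_mem' := by
    rintro a b ⟨ha, ha'⟩ ⟨hb, hb'⟩
    refine ⟨Loc1.map2 ha hb (· + ·), fun g h => ?_⟩
    simp only [Pi.add_apply, ha', hb', map_add]
    abel
  zero_mem' := ⟨Loc1.const 0, fun g h => by simp⟩
  neg_mem' := by
    rintro a ⟨ha, ha'⟩
    refine ⟨Loc1.map ha (fun x => -x), fun g h => ?_⟩
    simp only [Pi.neg_apply, ha', map_neg]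
    abel

/-- one-coboundaries -/
def B1 : AddSubgroup (G → M) where
  carrier := {f | ∃ m, ∀ g, f g = ρ g m - m}
  add_mem' := by
    rintro a b ⟨m, hm⟩ ⟨n, hn⟩
    refine ⟨m + n, fun g => ?_⟩
    simp only [Pi.add_apply, hm, hn, map_add]
    abel
  zero_mem' := ⟨0, fun g => by simp⟩
  neg_mem' := by
    rintro a ⟨m, hm⟩
    refine ⟨-m, fun g => ?_⟩
    simp only [Pi.neg_apply, hm, map_neg]
    abel

/-- smooth two-cocycles -/
def Z2 : AddSubgroup (G → G → M) where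
  carrier := {z | Loc2 z ∧ ∀ g h k, ρ g (z h k) - z (g * h) k + z g (h * k) - z g h = 0}
  add_mem' := by
    rintro a b ⟨ha, ha'⟩ ⟨hb, hb'⟩
    refine ⟨Loc2.map2 ha hb (· + ·), fun g h k => ?_⟩
    have e := congrArg₂ (· + ·) (ha' g h k) (hb' g h k)
    simp only [add_zero] at e
    simp only [Pi.add_apply, map_add]
    rw [← e]
    abel
  zero_mem' := ⟨Loc2.const 0, fun g h k => by simp⟩
  neg_mem' := by
    rintro a ⟨ha, ha'⟩
    refine ⟨Loc2.map ha (fun x => -x), fun g h k => ?_⟩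
    have e := congrArg (fun x => -x) (ha' g h k)
    simp only [neg_zero] at e
    simp only [Pi.neg_apply, map_neg]
    rw [← e]
    abel

/-- smooth two-coboundaries -/
def B2 : AddSubgroup (G → G → M) where
  carrier := {z | ∃ β : G → M, Loc1 β ∧ ∀ g h, z g h = ρ g (β h) - β (g * h) + β g}
  add_mem' := by
    rintro a b ⟨β, hβ, hβ'⟩ ⟨γ, hγ, hγ'⟩
    refine ⟨fun g => β g + γ g, Loc1.map2 hβ hγ (· + ·), fun g h => ?_⟩
    simp only [Pi.add_apply, hβ', hγ', map_add]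
    abel
  zero_mem' := ⟨0, Loc1.const 0, fun g h => by simp⟩
  neg_mem' := by
    rintro a ⟨β, hβ, hβ'⟩
    refine ⟨fun g => -β g, Loc1.map hβ (fun x => -x), fun g h => ?_⟩
    simp only [Pi.neg_apply, hβ', map_neg]
    abel

end Mod

/-- the action of `χ` on `ℤ/p^k` -/
def tw {p : ℕ} [Fact p.Prime] {G : Type*} [Group G] (χ : G →* ℤ_[p]ˣ) (k : ℕ) :
    G →* AddMonoid.End (ZMod (p ^ k)) where
  toFun g := AddMonoidHom.mulLeft (PadicInt.toZModPow k ((χ g : ℤ_[p]ˣ) : ℤ_[p]))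
  map_one' := by
    ext x
    change PadicInt.toZModPow k (((χ 1 : ℤ_[p]ˣ) : ℤ_[p])) * x = x
    rw [map_one, Units.val_one, map_one, one_mul]
  map_mul' g h := by
    ext x
    change PadicInt.toZModPow k (((χ (g * h) : ℤ_[p]ˣ) : ℤ_[p])) * x =
      PadicInt.toZModPow k (((χ g : ℤ_[p]ˣ) : ℤ_[p])) *
        (PadicInt.toZModPow k (((χ h : ℤ_[p]ˣ) : ℤ_[p])) * x)
    rw [map_mul, Units.val_mul, map_mul, mul_assoc]

/-- The data on the group: pro-`p`, `p ^ (m + 2)` homomorphisms to `ℤ/p`, a one dimensional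
`H²(G, ℤ/p)`, nondegenerate cup product, and lifting of homomorphisms to cocycles with values in
`ℤ_p(χ)`. -/
structure Dat (p : ℕ) [Fact p.Prime] (G : Type*) [Group G] [TopologicalSpace G]
    (χ : G →* ℤ_[p]ˣ) (m : ℕ) : Prop where
  prop : ∀ U : Subgroup G, IsOpen (U : Set G) → ∃ k : ℕ, U.index = p ^ k
  cont : Continuous χ
  one : ∀ g, PadicInt.toZMod ((χ g : ℤ_[p]ˣ) : ℤ_[p]) = 1
  card : Nat.card (Z1 (1 : G →* AddMonoid.End (ZMod p))) = p ^ (m + 2)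
  line : ∀ z ∈ Z2 (1 : G →* AddMonoid.End (ZMod p)), z ∉ B2 (1 : G →* AddMonoid.End (ZMod p)) →
    ∀ z' ∈ Z2 (1 : G →* AddMonoid.End (ZMod p)),
      ∃ a : ZMod p, z' - a • z ∈ B2 (1 : G →* AddMonoid.End (ZMod p))
  nondeg : ∀ f ∈ Z1 (1 : G →* AddMonoid.End (ZMod p)), f ≠ 0 →
    ∃ f' ∈ Z1 (1 : G →* AddMonoid.End (ZMod p)),
      (fun g h => f g * f' h) ∉ B2 (1 : G →* AddMonoid.End (ZMod p))
  kum : ∀ f ∈ Z1 (1 : G →* AddMonoid.End (ZMod p)), ∃ κ : G → ℤ_[p], Continuous κ ∧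
    (∀ g h, κ (g * h) = κ g + ((χ g : ℤ_[p]ˣ) : ℤ_[p]) * κ h) ∧
    ∀ g, PadicInt.toZMod (κ g) = f g

/-- pairs of finite modules in duality, with values in `ℤ/p^k(χ)` -/
structure Pr (p : ℕ) [Fact p.Prime] (G : Type u) [Group G] [TopologicalSpace G]
    (χ : G →* ℤ_[p]ˣ) (k : ℕ) where
  /-- the module -/
  M : Type
  /-- the dual module -/
  M' : Type
  [iM : AddCommGroup M]
  [iM' : AddCommGroup M']
  [fM : Finite M]
  [fM' : Finite M']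
  /-- the action on the module -/
  ρ : G →* AddMonoid.End M
  /-- the action on the dual module -/
  ρ' : G →* AddMonoid.End M'
  sm : Sm ρ
  sm' : Sm ρ'
  /-- the pairing -/
  b : M →+ M' →+ ZMod (p ^ k)
  eq : ∀ g m m', b (ρ g m) (ρ' g m') = tw χ k g (b m m')
  left : ∀ m, (∀ m', b m m' = 0) → m = 0
  right : ∀ m', (∀ m, b m m' = 0) → m' = 0

attribute [instance] Pr.iM Pr.iM' Pr.fM Pr.fM'

namespace Pr

variable {p : ℕ} [Fact p.Prime] {G : Type u} [Group G] [TopologicalSpace G] {χ : G →* ℤ_[p]ˣ}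
  {k : ℕ} (X : Pr p G χ k)

/-- the pair with the two modules exchanged -/
def flip : Pr p G χ k where
  M := X.M'
  M' := X.M
  ρ := X.ρ'
  ρ' := X.ρ
  sm := X.sm'
  sm' := X.sm
  b := X.b.flip
  eq := fun g m m' => by
    rw [AddMonoidHom.flip_apply, AddMonoidHom.flip_apply]
    exact X.eq g m' m
  left := fun m h => X.right m fun m' => h m'
  right := fun m h => X.left m fun m' => h m'

/-- the cup product of one-cochains -/
def cup (f : G → X.M) (f' : G → X.M') : G → G → ZMod (p ^ k) :=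
  fun g h => X.b (f g) (X.ρ' g (f' h))

end Pr

/-- Module A: nondegeneracy on `H¹`. -/
def StA : Prop :=
  ∀ (p : ℕ) [Fact p.Prime] (G : Type u) [Group G] [TopologicalSpace G] [IsTopologicalGroup G]
    [CompactSpace G] [NonarchimedeanGroup G] (χ : G →* ℤ_[p]ˣ) (m : ℕ), Dat p G χ m →
    ∀ (k : ℕ) (X : Pr p G χ k), ∀ f ∈ Z1 X.ρ, (∀ f' ∈ Z1 X.ρ', X.cup f f' ∈ B2 (tw χ k)) →
      f ∈ B1 X.ρ

/-- Module B: `H²(M)` injects into the dual of `H⁰(M')`. -/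
def StB : Prop :=
  ∀ (p : ℕ) [Fact p.Prime] (G : Type u) [Group G] [TopologicalSpace G] [IsTopologicalGroup G]
    [CompactSpace G] [NonarchimedeanGroup G] (χ : G →* ℤ_[p]ˣ) (m : ℕ), Dat p G χ m →
    ∀ (k : ℕ) (X : Pr p G χ k), ∀ z ∈ Z2 X.ρ,
      (∀ m' ∈ H0 X.ρ', (fun g h => X.b (z g h) m') ∈ B2 (tw χ k)) → z ∈ B2 X.ρ

/-- Module E: the number of cocycles. -/
def StE : Prop :=
  ∀ (p : ℕ) [Fact p.Prime] (G : Type u) [Group G] [TopologicalSpace G] [IsTopologicalGroup G]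
    [CompactSpace G] [NonarchimedeanGroup G] (χ : G →* ℤ_[p]ˣ) (m : ℕ), Dat p G χ m →
    ∀ (k : ℕ) (X : Pr p G χ k), Finite (Z1 X.ρ) ∧
      Nat.card (Z1 X.ρ) ≤ Nat.card (H0 X.ρ') * Nat.card X.M ^ (m + 1)

/-! ### Part 2: `p`-adic coefficients -/

section Cont

variable {G : Type*} [Group G] [TopologicalSpace G]

/-- continuous one-cocycles with values in `A^N` -/
def cZ1 {A : Type*} [CommRing A] [TopologicalSpace A] [IsTopologicalRing A] {N : ℕ}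
    (R : G →* GL (Fin N) A) : Submodule A (G → Fin N → A) where
  carrier := {x | Continuous x ∧
    ∀ g h, x (g * h) = x g + (R g : Matrix (Fin N) (Fin N) A) *ᵥ x h}
  add_mem' := by
    rintro x y ⟨hx, hx'⟩ ⟨hy, hy'⟩
    refine ⟨hx.add hy, fun g h => ?_⟩
    simp only [Pi.add_apply, hx', hy', Matrix.mulVec_add]
    abel
  zero_mem' := by
    refine ⟨continuous_const, fun g h => ?_⟩
    simp
  smul_mem' := by
    rintro a x ⟨hx, hx'⟩
    refine ⟨hx.const_smul a, fun g h => ?_⟩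
    simp only [Pi.smul_apply, hx', Matrix.mulVec_smul, smul_add]

variable {p : ℕ} [Fact p.Prime] (χ : G →* ℤ_[p]ˣ)
variable (L : Type*) [NormedField L] [NormedAlgebra ℚ_[p] L]

/-- the character `χ` with values in `L` -/
def chi (g : G) : L := algebraMap ℚ_[p] L (((χ g : ℤ_[p]ˣ) : ℤ_[p]) : ℚ_[p])

/-- continuous two-coboundaries with values in `L(χ)` -/
def CB2 : Set (G → G → L) :=
  {z | ∃ β : G → L, Continuous β ∧ ∀ g h, z g h = chi χ L g * β h - β (g * h) + β g}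

end Cont

/-- Module LIM1: rank of the cocycles with values in `ℤ_p^N`. -/
def StLim1 : Prop :=
  ∀ (p : ℕ) [Fact p.Prime] (G : Type u) [Group G] [TopologicalSpace G] [IsTopologicalGroup G]
    [CompactSpace G] [NonarchimedeanGroup G] (χ : G →* ℤ_[p]ˣ) (m : ℕ), Dat p G χ m →
    ∀ (N : ℕ) (R R' : G →* GL (Fin N) ℤ_[p]), Continuous R → Continuous R' →
    (∀ g, (R g : Matrix (Fin N) (Fin N) ℤ_[p])ᵀ * (R' g : Matrix (Fin N) (Fin N) ℤ_[p]) =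
      ((χ g : ℤ_[p]ˣ) : ℤ_[p]) • (1 : Matrix (Fin N) (Fin N) ℤ_[p])) →
    (∀ v : Fin N → ℤ_[p], (∀ g, (R' g : Matrix (Fin N) (Fin N) ℤ_[p]) *ᵥ v = v) → v = 0) →
    ∀ (r : ℕ) (x : Fin r → G → Fin N → ℤ_[p]), (∀ i, x i ∈ cZ1 R) →
      LinearIndependent ℤ_[p] x → r ≤ (m + 1) * N

/-- Module LIM2: nondegeneracy of the cup product with values in `ℤ_p`. -/
def StLim2 : Prop :=
  ∀ (p : ℕ) [Fact p.Prime] (G : Type u) [Group G] [TopologicalSpace G] [IsTopologicalGroup G]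
    [CompactSpace G] [NonarchimedeanGroup G] (χ : G →* ℤ_[p]ˣ) (m : ℕ), Dat p G χ m →
    ∀ (N : ℕ) (R R' : G →* GL (Fin N) ℤ_[p]), Continuous R → Continuous R' →
    (∀ g, (R g : Matrix (Fin N) (Fin N) ℤ_[p])ᵀ * (R' g : Matrix (Fin N) (Fin N) ℤ_[p]) =
      ((χ g : ℤ_[p]ˣ) : ℤ_[p]) • (1 : Matrix (Fin N) (Fin N) ℤ_[p])) →
    (∀ v : Fin N → ℤ_[p], (∀ g, (R' g : Matrix (Fin N) (Fin N) ℤ_[p]) *ᵥ v = v) → v = 0) →
    ∀ y ∈ cZ1 R', (∃ c : ℕ, ∀ x ∈ cZ1 R, ∃ β : G → ℤ_[p], Continuous β ∧ ∀ g h,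
        (p : ℤ_[p]) ^ c * (x g ⬝ᵥ (R' g : Matrix (Fin N) (Fin N) ℤ_[p]) *ᵥ y h) =
          ((χ g : ℤ_[p]ˣ) : ℤ_[p]) * β h - β (g * h) + β g) →
      ∃ (c : ℕ) (v : Fin N → ℤ_[p]), ∀ g,
        (p : ℤ_[p]) ^ c • y g = (R' g : Matrix (Fin N) (Fin N) ℤ_[p]) *ᵥ v - v

/-- Module LAT: from `L` to `ℤ_p`. -/
def StLat : Prop :=
  ∀ (p : ℕ) [Fact p.Prime] (G : Type u) [Group G] [TopologicalSpace G] [IsTopologicalGroup G]
    [CompactSpace G] (χ : G →* ℤ_[p]ˣ), Continuous χ →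
    ∀ (L : Type) [NormedField L] [NormedAlgebra ℚ_[p] L] [FiniteDimensional ℚ_[p] L] (n : ℕ)
    (ρ ρ' : G →* GL (Fin n) L), Continuous ρ → Continuous ρ' →
    (∀ g, (ρ g : Matrix (Fin n) (Fin n) L)ᵀ * (ρ' g : Matrix (Fin n) (Fin n) L) =
      chi χ L g • (1 : Matrix (Fin n) (Fin n) L)) →
    ∃ (N : ℕ) (R R' : G →* GL (Fin N) ℤ_[p]) (lam : L →ₗ[ℚ_[p]] ℚ_[p])
      (Φ Φ' : (Fin n → L) ≃ₗ[ℚ_[p]] (Fin N → ℚ_[p])),
      N = n * Module.finrank ℚ_[p] L ∧ Continuous R ∧ Continuous R' ∧ lam ≠ 0 ∧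
      (∀ g, (R g : Matrix (Fin N) (Fin N) ℤ_[p])ᵀ * (R' g : Matrix (Fin N) (Fin N) ℤ_[p]) =
        ((χ g : ℤ_[p]ˣ) : ℤ_[p]) • (1 : Matrix (Fin N) (Fin N) ℤ_[p])) ∧
      (∀ g v, Φ ((ρ g : Matrix (Fin n) (Fin n) L) *ᵥ v) =
        ((R g : Matrix (Fin N) (Fin N) ℤ_[p]).map (algebraMap ℤ_[p] ℚ_[p])) *ᵥ Φ v) ∧
      (∀ g v, Φ' ((ρ' g : Matrix (Fin n) (Fin n) L) *ᵥ v) =
        ((R' g : Matrix (Fin N) (Fin N) ℤ_[p]).map (algebraMap ℤ_[p] ℚ_[p])) *ᵥ Φ' v) ∧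
      (∀ v v', Φ v ⬝ᵥ Φ' v' = lam (v ⬝ᵥ v'))

/-- Module ND: the local theorem for pro-`p` groups. -/
def StND : Prop :=
  ∀ (p : ℕ) [Fact p.Prime] (G : Type u) [Group G] [TopologicalSpace G] [IsTopologicalGroup G]
    [CompactSpace G] [NonarchimedeanGroup G] (χ : G →* ℤ_[p]ˣ) (m : ℕ), Dat p G χ m →
    ∀ (L : Type) [NormedField L] [NormedAlgebra ℚ_[p] L] [FiniteDimensional ℚ_[p] L] (n : ℕ)
    (ρ ρ' : G →* GL (Fin n) L), Continuous ρ → Continuous ρ' →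
    (∀ g, (ρ g : Matrix (Fin n) (Fin n) L)ᵀ * (ρ' g : Matrix (Fin n) (Fin n) L) =
      chi χ L g • (1 : Matrix (Fin n) (Fin n) L)) →
    (∀ v : Fin n → L, (∀ g, (ρ' g : Matrix (Fin n) (Fin n) L) *ᵥ v = v) → v = 0) →
    FiniteDimensional L (BKPar.Z1 ρ) ∧ Module.finrank L (BKPar.Z1 ρ) ≤ (m + 1) * n ∧
    ∀ y ∈ BKPar.Z1 ρ', (∀ x ∈ BKPar.Z1 ρ,
        (fun g h => x g ⬝ᵥ (ρ' g : Matrix (Fin n) (Fin n) L) *ᵥ y h) ∈ CB2 χ L) →
      y ∈ BKPar.B1 ρ'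

/-! ### Part 3: from `G = D / K` to `D` -/

/-- Module DG: `φ : D → G` surjective with kernel `K`, homomorphisms `U → ℤ/p` of open subgroups
`U ⊇ K` are trivial on `K`. -/
def StDG : Prop :=
  ∀ (p : ℕ) [Fact p.Prime] (D : Type u) [Group D] [TopologicalSpace D] [IsTopologicalGroup D]
    [CompactSpace D] [NonarchimedeanGroup D]
    (G : Type u) [Group G] [TopologicalSpace G] [IsTopologicalGroup G]
    [CompactSpace G] [T2Space G] [NonarchimedeanGroup G] (φ : D →* G), Continuous φ →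
    Function.Surjective φ →
    (∀ U : Subgroup D, IsOpen (U : Set D) → φ.ker ≤ U →
      ∀ f ∈ Z1 (1 : U →* AddMonoid.End (ZMod p)), ∀ (x : D) (hx : x ∈ U), φ x = 1 →
        f ⟨x, hx⟩ = 0) →
    ∀ (χ : G →* ℤ_[p]ˣ) (m : ℕ), Dat p G χ m →
    ∀ (L : Type) [NormedField L] [NormedAlgebra ℚ_[p] L] [FiniteDimensional ℚ_[p] L] (n : ℕ)
    (ρ ρ' : D →* GL (Fin n) L), Continuous ρ → Continuous ρ' → BKPar.ResUni ρ →
    BKPar.ResUni ρ' →
    (∀ g, (ρ g : Matrix (Fin n) (Fin n) L)ᵀ * (ρ' g : Matrix (Fin n) (Fin n) L) =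
      chi (χ.comp φ) L g • (1 : Matrix (Fin n) (Fin n) L)) →
    (∀ v : Fin n → L, (∀ g, (ρ' g : Matrix (Fin n) (Fin n) L) *ᵥ v = v) → v = 0) →
    FiniteDimensional L (BKPar.Z1 ρ) ∧ Module.finrank L (BKPar.Z1 ρ) ≤ (m + 1) * n ∧
    ∀ y ∈ BKPar.Z1 ρ', (∀ x ∈ BKPar.Z1 ρ,
        (fun g h => x g ⬝ᵥ (ρ' g : Matrix (Fin n) (Fin n) L) *ᵥ y h) ∈ CB2 (χ.comp φ) L) →
      y ∈ BKPar.B1 ρ'

/-! ### Part 4: the case `p = 2` -/

/-- Module DAT2: the data for the Galois group of the maximal `2`-extension of `ℚ(√-q)`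
unramified outside `2`. -/
def StDat2 : Prop :=
  ∀ (q : ℕ) (F : Type) [Field F] [NumberField F] (s : F), BKPar.FieldHyp q F s →
    ∀ (_ : AlgebraicClosure F →+* PadicAlgCl 2) (_ : (BKPar.R F).Normal)
    (χ : (AbsGal F ⧸ BKPar.R F) →* ℤ_[2]ˣ),
    (∀ g : AbsGal F, χ (QuotientGroup.mk g) = BKPar.cyc F g) →
    Dat 2 (AbsGal F ⧸ BKPar.R F) χ 1

/-- Module FINAL: the local theorem for the decomposition group. -/
def StFinal : Prop :=
  ∀ (q : ℕ) (F : Type) [Field F] [NumberField F] (s : F), BKPar.FieldHyp q F s →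
    ∀ (ι : AlgebraicClosure F →+* PadicAlgCl 2)
    (L : Type) [NormedField L] [NormedAlgebra ℚ_[2] L] [FiniteDimensional ℚ_[2] L] (n : ℕ)
    (ρ ρ' : BKPar.D F ι →* GL (Fin n) L), Continuous ρ → Continuous ρ' → BKPar.ResUni ρ →
    BKPar.ResUni ρ' →
    (∀ g, (ρ g : Matrix (Fin n) (Fin n) L)ᵀ * (ρ' g : Matrix (Fin n) (Fin n) L) =
      BKPar.chi ((BKPar.cyc F).comp (BKPar.D F ι).subtype) L g •
        (1 : Matrix (Fin n) (Fin n) L)) →
    (∀ v : Fin n → L, (∀ g, (ρ' g : Matrix (Fin n) (Fin n) L) *ᵥ v = v) → v = 0) →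
    FiniteDimensional L (BKPar.Z1 ρ) ∧ Module.finrank L (BKPar.Z1 ρ) ≤ 2 * n ∧
    ∀ y ∈ BKPar.Z1 ρ', (∀ x ∈ BKPar.Z1 ρ,
        (fun g h => x g ⬝ᵥ (ρ' g : Matrix (Fin n) (Fin n) L) *ᵥ y h) ∈
          BKPar.CB2 ((BKPar.cyc F).comp (BKPar.D F ι).subtype) L) →
      y ∈ BKPar.B1 ρ'

end BKND
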