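import Mathlib
import Pool.Agent.Lib.MP_7c08ba_nt.ND.Stmts
import Pool.Agent.Lib.MP_7c08ba_nt.Par.Lift

set_option autoImplicit false

/-!
Reduction modulo `p ^ k` of representations on `ℤ_p^N`, as pairs of finite modules in duality.
-/

set_option linter.overlappingInstances false
set_option linter.unusedSectionVars false

noncomputable section

namespace BKND

open BKPar (Loc1 Loc2)
open Matrix

universe u

namespace Red

variable {p : ℕ} [Fact p.Prime] {N : ℕ}

/-- reduction of vectors modulo `p ^ k` -/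
def rv (k : ℕ) : (Fin N → ℤ_[p]) →+ (Fin N → ZMod (p ^ k)) where
  toFun v := fun i => PadicInt.toZModPow k (v i)
  map_zero' := by
    funext i
    simp
  map_add' v w := by
    funext i
    simp

theorem rv_apply (k : ℕ) (v : Fin N → ℤ_[p]) (i : Fin N) :
    rv k v i = PadicInt.toZModPow k (v i) := rfl

theorem rv_surjective (k : ℕ) : Function.Surjective (rv k : (Fin N → ℤ_[p]) → _) := by
  intro w
  have h : ∀ x : ZMod (p ^ k), ∃ y : ℤ_[p], PadicInt.toZModPow k y = x := by
    intro x
    have : NeZero (p ^ k) := ⟨pow_ne_zero _ (Fact.out : p.Prime).ne_zero⟩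
    exact ⟨((x.val : ℕ) : ℤ_[p]), by rw [map_natCast, ZMod.natCast_zmod_val]⟩
  choose y hy using fun i => h (w i)
  exact ⟨y, funext hy⟩

theorem rv_smul (k : ℕ) (a : ℤ_[p]) (v : Fin N → ℤ_[p]) :
    rv k (a • v) = PadicInt.toZModPow k a • rv k v := by
  funext i
  simp [rv_apply]

theorem rv_eq_zero_iff (k : ℕ) (v : Fin N → ℤ_[p]) :
    rv k v = 0 ↔ ∃ w : Fin N → ℤ_[p], v = (p : ℤ_[p]) ^ k • w := by
  constructor
  · intro h
    have h1 : ∀ i, ∃ y : ℤ_[p], v i = (p : ℤ_[p]) ^ k * y := by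
      intro i
      have h2 : v i ∈ RingHom.ker (PadicInt.toZModPow k : ℤ_[p] →+* ZMod (p ^ k)) :=
        congrFun h i
      rw [PadicInt.ker_toZModPow, Ideal.mem_span_singleton] at h2
      exact h2
    choose y hy using h1
    exact ⟨y, funext hy⟩
  · rintro ⟨w, rfl⟩
    funext i
    have h2 : (p : ℤ_[p]) ^ k * w i ∈
        RingHom.ker (PadicInt.toZModPow k : ℤ_[p] →+* ZMod (p ^ k)) := by
      rw [PadicInt.ker_toZModPow, Ideal.mem_span_singleton]
      exact ⟨w i, rfl⟩
    exact h2

/-- reduction modulo `p ^ k` is locally constant -/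
theorem isLocallyConstant_toZModPow (k : ℕ) :
    IsLocallyConstant (fun x : ℤ_[p] => PadicInt.toZModPow k x) := by
  rw [IsLocallyConstant.iff_exists_open]
  intro x
  have hp : (0 : ℝ) < (p : ℝ) ^ (-(k : ℤ)) :=
    zpow_pos (by exact_mod_cast (Fact.out : p.Prime).pos) _
  refine ⟨Metric.ball x ((p : ℝ) ^ (-(k : ℤ))), Metric.isOpen_ball, Metric.mem_ball_self hp, ?_⟩
  intro y hy
  rw [Metric.mem_ball, dist_eq_norm] at hy
  have h1 := hy.le
  rw [PadicInt.norm_le_pow_iff_mem_span_pow, ← PadicInt.ker_toZModPow] at h1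
  have h2 : PadicInt.toZModPow k (y - x) = 0 := h1
  rw [map_sub, sub_eq_zero] at h2
  exact h2

/-- smooth functions from continuous functions -/
theorem loc1_of_continuous {G X : Type*} [Group G] [TopologicalSpace G] [IsTopologicalGroup G]
    [CompactSpace G] [NonarchimedeanGroup G] {f : G → ℤ_[p]} (hf : Continuous f) (k : ℕ)
    (F : ZMod (p ^ k) → X) : Loc1 fun g => F (PadicInt.toZModPow k (f g)) := by
  have h2 : IsLocallyConstant (fun g => PadicInt.toZModPow k (f g)) :=
    (isLocallyConstant_toZModPow k).comp_continuous hf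
  exact BKPar.Lift.Loc1.of_isLocallyConstant (h2.comp F)

/-- reduction of continuous vector valued functions is smooth -/
theorem loc1_rv {G : Type*} [Group G] [TopologicalSpace G] [IsTopologicalGroup G]
    [CompactSpace G] [NonarchimedeanGroup G] {f : G → Fin N → ℤ_[p]} (hf : Continuous f) (k : ℕ) :
    Loc1 fun g => rv k (f g) := by
  have h1 : ∀ i, Loc1 fun g => rv k (f g) i := fun i =>
    loc1_of_continuous ((continuous_apply i).comp hf) k id
  choose W hW hW' using h1
  refine ⟨⨅ i, W i, ?_, fun g w hw => ?_⟩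
  · rw [Subgroup.coe_iInf]
    exact isOpen_iInter_of_finite hW
  · funext i
    exact hW' i g w (Subgroup.mem_iInf.1 hw i)

section Act

variable {G : Type*} [Group G]

/-- the action on `(ℤ/p^k)^N` -/
def act (R : G →* GL (Fin N) ℤ_[p]) (k : ℕ) : G →* AddMonoid.End (Fin N → ZMod (p ^ k)) where
  toFun g := (((R g : Matrix (Fin N) (Fin N) ℤ_[p]).map
    (PadicInt.toZModPow k)).mulVecLin).toAddMonoidHom
  map_one' := by
    ext1 v
    change ((((R 1 : GL (Fin N) ℤ_[p]) : Matrix (Fin N) (Fin N) ℤ_[p])).map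
      (PadicInt.toZModPow k)) *ᵥ v = v
    rw [map_one, Units.val_one, Matrix.map_one _ (map_zero _) (map_one _), Matrix.one_mulVec]
  map_mul' g h := by
    ext1 v
    change ((((R (g * h) : GL (Fin N) ℤ_[p]) : Matrix (Fin N) (Fin N) ℤ_[p])).map
      (PadicInt.toZModPow k)) *ᵥ v = ((((R g : GL (Fin N) ℤ_[p]) :
        Matrix (Fin N) (Fin N) ℤ_[p])).map (PadicInt.toZModPow k)) *ᵥ
      (((((R h : GL (Fin N) ℤ_[p]) : Matrix (Fin N) (Fin N) ℤ_[p])).map
      (PadicInt.toZModPow k)) *ᵥ v)
    rw [map_mul, Units.val_mul, Matrix.map_mul, Matrix.mulVec_mulVec]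

theorem act_apply (R : G →* GL (Fin N) ℤ_[p]) (k : ℕ) (g : G) (v : Fin N → ZMod (p ^ k)) :
    act R k g v = ((R g : Matrix (Fin N) (Fin N) ℤ_[p]).map (PadicInt.toZModPow k)) *ᵥ v := rfl

theorem act_rv (R : G →* GL (Fin N) ℤ_[p]) (k : ℕ) (g : G) (v : Fin N → ℤ_[p]) :
    act R k g (rv k v) = rv k ((R g : Matrix (Fin N) (Fin N) ℤ_[p]) *ᵥ v) := by
  rw [act_apply]
  funext i
  simp only [Matrix.mulVec, dotProduct, Matrix.map_apply, rv_apply, map_sum, map_mul]

variable [TopologicalSpace G] [IsTopologicalGroup G] [CompactSpace G] [NonarchimedeanGroup G]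

theorem sm_act (R : G →* GL (Fin N) ℤ_[p]) (hR : Continuous R) (k : ℕ) : Sm (act R k) := by
  have h0 : ∀ i j, Continuous fun g => (R g : Matrix (Fin N) (Fin N) ℤ_[p]) i j := fun i j =>
    (Units.continuous_val.comp hR).matrix_elem i j
  have h1 : ∀ i j, Loc1 fun g => PadicInt.toZModPow k
      ((R g : Matrix (Fin N) (Fin N) ℤ_[p]) i j) := fun i j => loc1_of_continuous (h0 i j) k id
  choose W hW hW' using h1
  refine ⟨⨅ i, ⨅ j, W i j, ?_, fun w hw => ?_⟩
  · simp only [Subgroup.coe_iInf]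
    exact isOpen_iInter_of_finite fun i => isOpen_iInter_of_finite (hW i)
  · ext1 v
    rw [act_apply]
    have e : ((R w : Matrix (Fin N) (Fin N) ℤ_[p]).map (PadicInt.toZModPow k)) = 1 := by
      ext i j
      have hw' : w ∈ W i j := Subgroup.mem_iInf.1 (Subgroup.mem_iInf.1 hw i) j
      have this : PadicInt.toZModPow k ((R (1 * w) : Matrix (Fin N) (Fin N) ℤ_[p]) i j) =
          PadicInt.toZModPow k ((R 1 : Matrix (Fin N) (Fin N) ℤ_[p]) i j) := hW' i j 1 w hw'
      rw [one_mul, map_one, Units.val_one] at this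
      rw [Matrix.map_apply, this]
      by_cases hij : i = j
      · subst hij
        simp
      · simp [Matrix.one_apply_ne hij]
    rw [e, Matrix.one_mulVec]
    rfl

end Act

/-- the pairing -/
def dp (k : ℕ) : (Fin N → ZMod (p ^ k)) →+ (Fin N → ZMod (p ^ k)) →+ ZMod (p ^ k) :=
  AddMonoidHom.mk' (fun v => AddMonoidHom.mk' (fun w => v ⬝ᵥ w) (fun a b => dotProduct_add v a b))
    (fun a b => AddMonoidHom.ext fun w => add_dotProduct a b w)

theorem dp_apply (k : ℕ) (v w : Fin N → ZMod (p ^ k)) : dp k v w = v ⬝ᵥ w := rfl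

variable {G : Type u} [Group G] [TopologicalSpace G] [IsTopologicalGroup G] [CompactSpace G]
  [NonarchimedeanGroup G] {χ : G →* ℤ_[p]ˣ}

/-- the pair of finite modules given by the reductions modulo `p ^ k` -/
def pair (R R' : G →* GL (Fin N) ℤ_[p]) (hR : Continuous R) (hR' : Continuous R')
    (h : ∀ g, (R g : Matrix (Fin N) (Fin N) ℤ_[p])ᵀ * (R' g : Matrix (Fin N) (Fin N) ℤ_[p]) =
      ((χ g : ℤ_[p]ˣ) : ℤ_[p]) • (1 : Matrix (Fin N) (Fin N) ℤ_[p])) (k : ℕ) : Pr p G χ k :=
  haveI : NeZero (p ^ k) := ⟨pow_ne_zero _ (Fact.out : p.Prime).ne_zero⟩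
  { M := Fin N → ZMod (p ^ k)
    M' := Fin N → ZMod (p ^ k)
    ρ := act R k
    ρ' := act R' k
    sm := sm_act R hR k
    sm' := sm_act R' hR' k
    b := dp k
    eq := by
      intro g m m'
      rw [dp_apply, act_apply, act_apply, dp_apply, Matrix.dotProduct_mulVec,
        Matrix.vecMul_mulVec, ← Matrix.dotProduct_mulVec]
      have e : ((R g : Matrix (Fin N) (Fin N) ℤ_[p]).map (PadicInt.toZModPow k))ᵀ *
          ((R' g : Matrix (Fin N) (Fin N) ℤ_[p]).map (PadicInt.toZModPow k)) =
          PadicInt.toZModPow k ((χ g : ℤ_[p]ˣ) : ℤ_[p]) •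
            (1 : Matrix (Fin N) (Fin N) (ZMod (p ^ k))) := by
        rw [← Matrix.transpose_map, ← Matrix.map_mul, h g]
        ext i j
        by_cases hij : i = j
        · subst hij
          simp
        · simp [Matrix.one_apply_ne hij]
      rw [e, Matrix.smul_mulVec, Matrix.one_mulVec, dotProduct_smul]
      rfl
    left := by
      intro m hm
      funext i
      have := hm (Pi.single i 1)
      rw [dp_apply, dotProduct_single_one] at this
      exact this
    right := by
      intro m hm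
      funext i
      have := hm (Pi.single i 1)
      rw [dp_apply, single_one_dotProduct] at this
      exact this }

end Red

end BKND
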