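import Mathlib
import Pool.Agent.Lib.MP_7c08ba_nt.ND.Stmts
import Pool.Agent.Lib.MP_7c08ba_nt.ND.Red

set_option autoImplicit false
set_option linter.overlappingInstances false
set_option linter.unusedSectionVars false

/-!
Basic tools for the duality theorem: the map `jm : ℤ/p → ℤ/p^k`, lifting of cocycles, reduction of
the size of the pair of modules.
-/

noncomputable section

namespace BKND

open BKPar (Loc1 Loc2)
open Matrix

universe u

variable {p : ℕ} [hp : Fact p.Prime]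

/-! ### The map `jm` -/

/-- `ℤ/p → ℤ/p^k`, multiplication by `p^(k-1)` -/
def jm (k : ℕ) : ZMod p →+ ZMod (p ^ k) :=
  ZMod.lift p ⟨zmultiplesHom (ZMod (p ^ k)) ((p : ZMod (p ^ k)) ^ (k - 1)), by
    rw [zmultiplesHom_apply, natCast_zsmul, nsmul_eq_mul]
    rcases k with _ | k
    · exact Subsingleton.elim (α := ZMod 1) _ _
    · rw [Nat.add_sub_cancel, ← pow_succ', ← Nat.cast_pow]
      exact ZMod.natCast_self _⟩

theorem jm_natCast (k n : ℕ) : jm k (n : ZMod p) = n * (p : ZMod (p ^ k)) ^ (k - 1) := by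
  have h := ZMod.lift_coe p ⟨zmultiplesHom (ZMod (p ^ k)) ((p : ZMod (p ^ k)) ^ (k - 1)), by
    rw [zmultiplesHom_apply, natCast_zsmul, nsmul_eq_mul]
    rcases k with _ | k
    · exact Subsingleton.elim (α := ZMod 1) _ _
    · rw [Nat.add_sub_cancel, ← pow_succ', ← Nat.cast_pow]
      exact ZMod.natCast_self _⟩ (n : ℤ)
  rw [Int.cast_natCast] at h
  rw [jm, h, zmultiplesHom_apply, natCast_zsmul, nsmul_eq_mul]

theorem jm_mul (k : ℕ) (a b : ZMod p) : jm k (a * b) = a.val • jm k b := by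
  rw [← map_nsmul, nsmul_eq_mul, ZMod.natCast_zmod_val]

theorem exists_toZMod (x : ℤ_[p]) : ∃ y, x = ((PadicInt.toZMod x).val : ℤ_[p]) + p * y := by
  have h1 : x - ((PadicInt.toZMod x).val : ℤ_[p]) ∈ RingHom.ker (PadicInt.toZMod (p := p)) := by
    rw [RingHom.mem_ker, map_sub, map_natCast, ZMod.natCast_zmod_val, sub_self]
  rw [PadicInt.ker_toZMod, PadicInt.maximalIdeal_eq_span_p, Ideal.mem_span_singleton] at h1
  obtain ⟨y, hy⟩ := h1
  exact ⟨y, by rw [← hy]; ring⟩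

theorem toZMod_eq_zero_iff {x : ℤ_[p]} : PadicInt.toZMod x = 0 ↔ (p : ℤ_[p]) ∣ x := by
  rw [← RingHom.mem_ker, PadicInt.ker_toZMod, PadicInt.maximalIdeal_eq_span_p,
    Ideal.mem_span_singleton]

theorem toZModPow_eq_zero_iff {k : ℕ} {x : ℤ_[p]} :
    PadicInt.toZModPow k x = 0 ↔ (p : ℤ_[p]) ^ k ∣ x := by
  rw [← RingHom.mem_ker, PadicInt.ker_toZModPow, Ideal.mem_span_singleton]

theorem toZModPow_eq_iff {k : ℕ} {x y : ℤ_[p]} :
    PadicInt.toZModPow k x = PadicInt.toZModPow k y ↔ (p : ℤ_[p]) ^ k ∣ x - y := by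
  rw [← toZModPow_eq_zero_iff, map_sub, sub_eq_zero]

theorem p_ne_zero : (p : ℤ_[p]) ≠ 0 := by
  exact_mod_cast hp.out.ne_zero

theorem jm_toZMod {k : ℕ} (hk : 1 ≤ k) (x : ℤ_[p]) :
    jm k (PadicInt.toZMod x) = PadicInt.toZModPow k ((p : ℤ_[p]) ^ (k - 1) * x) := by
  obtain ⟨y, hy⟩ := exists_toZMod x
  have h1 : jm k (PadicInt.toZMod x) =
      (PadicInt.toZMod x).val * (p : ZMod (p ^ k)) ^ (k - 1) := by
    rw [← jm_natCast, ZMod.natCast_zmod_val]
  have h2 : PadicInt.toZModPow k ((p : ℤ_[p]) ^ (k - 1) * x) =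
      PadicInt.toZModPow k ((p : ℤ_[p]) ^ (k - 1) * ((PadicInt.toZMod x).val : ℤ_[p])) := by
    rw [toZModPow_eq_iff]
    refine ⟨y, ?_⟩
    obtain ⟨j, rfl⟩ : ∃ j, k = j + 1 := ⟨k - 1, by omega⟩
    rw [Nat.add_sub_cancel]
    linear_combination (p : ℤ_[p]) ^ j * hy
  rw [h1, h2, map_mul, map_pow, map_natCast, map_natCast]
  ring

theorem jm_injective {k : ℕ} (hk : 1 ≤ k) : Function.Injective (jm k : ZMod p → ZMod (p ^ k)) := by
  rw [injective_iff_map_eq_zero]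
  intro a ha
  have h1 : a = PadicInt.toZMod ((a.val : ℕ) : ℤ_[p]) := by
    rw [map_natCast, ZMod.natCast_zmod_val]
  rw [h1, jm_toZMod hk, toZModPow_eq_zero_iff] at ha
  rw [h1, toZMod_eq_zero_iff]
  obtain ⟨j, rfl⟩ : ∃ j, k = j + 1 := ⟨k - 1, by omega⟩
  rw [Nat.add_sub_cancel, pow_succ] at ha
  exact (mul_dvd_mul_iff_left (pow_ne_zero _ p_ne_zero)).1 ha

theorem exists_toZModPow {k : ℕ} (x : ZMod (p ^ k)) : ∃ y : ℤ_[p], PadicInt.toZModPow k y = x := by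
  have : NeZero (p ^ k) := ⟨pow_ne_zero _ hp.out.ne_zero⟩
  exact ⟨((x.val : ℕ) : ℤ_[p]), by rw [map_natCast, ZMod.natCast_zmod_val]⟩

theorem exists_jm {k : ℕ} (hk : 1 ≤ k) {x : ZMod (p ^ k)} (hx : p • x = 0) :
    ∃ a : ZMod p, jm k a = x := by
  obtain ⟨y, rfl⟩ := exists_toZModPow x
  rw [← map_nsmul, toZModPow_eq_zero_iff, nsmul_eq_mul] at hx
  obtain ⟨j, rfl⟩ : ∃ j, k = j + 1 := ⟨k - 1, by omega⟩
  rw [pow_succ', mul_dvd_mul_iff_left p_ne_zero] at hx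
  obtain ⟨z, rfl⟩ := hx
  exact ⟨PadicInt.toZMod z, by rw [jm_toZMod hk, Nat.add_sub_cancel]⟩

theorem p_smul_jm (k : ℕ) (a : ZMod p) : p • jm k a = 0 := by
  rw [← map_nsmul, nsmul_eq_mul, CharP.cast_eq_zero, zero_mul, map_zero]

/-! ### Fixed points -/

theorem fp1 {Q M : Type*} [Group Q] [AddCommGroup M] [Finite M]
    (f : Q →* AddMonoid.End M) (hP : IsPGroup p Q) (hcard : p ∣ Nat.card M) :
    ∃ b : M, b ≠ 0 ∧ ∀ q, f q b = b := by
  let act : MulAction Q M :=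
    { smul := fun q x => f q x
      one_smul := fun x => by
        change f 1 x = x
        rw [map_one]
        rfl
      mul_smul := fun q q' x => by
        change f (q * q') x = f q (f q' x)
        rw [map_mul]
        rfl }
  have hfix0 : (0 : M) ∈ MulAction.fixedPoints Q M := by
    intro q
    change f q 0 = 0
    exact map_zero _
  obtain ⟨b, hb, hb0⟩ := hP.exists_fixed_point_of_prime_dvd_card_of_fixed_point M hcard hfix0
  exact ⟨b, hb0.symm, hb⟩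

theorem fp2 {M : Type*} [AddCommGroup M] [Finite M]
    [Nontrivial M] (k : ℕ) (hk : ∀ x : M, p ^ k • x = 0) (b : M) (hb : b ≠ 0) :
    ∃ i, p ^ i • b ≠ 0 ∧ p • (p ^ i • b) = 0 := by
  obtain ⟨j, _, hj⟩ := (Nat.dvd_prime_pow hp.out).1 (addOrderOf_dvd_of_nsmul_eq_zero (hk b))
  have h1 : j ≠ 0 := by
    intro h0
    rw [h0, pow_zero, AddMonoid.addOrderOf_eq_one_iff] at hj
    exact hb hj
  obtain ⟨i, hi⟩ := Nat.exists_eq_succ_of_ne_zero h1
  rw [hi] at hj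
  refine ⟨i, fun h => ?_, ?_⟩
  · have h2 := addOrderOf_dvd_of_nsmul_eq_zero h
    rw [hj] at h2
    have h3 := (Nat.pow_dvd_pow_iff_le_right hp.out.one_lt).1 h2
    omega
  · rw [← mul_smul]
    have h2 : p * p ^ i = addOrderOf b := by rw [hj]; exact (pow_succ' p i).symm
    rw [h2]
    exact addOrderOf_nsmul_eq_zero b

theorem fp3 {M : Type*} [AddCommGroup M] [Finite M]
    [Nontrivial M] (k : ℕ) (hk : ∀ x : M, p ^ k • x = 0) : p ∣ Nat.card M := by
  obtain ⟨x, hx⟩ := exists_ne (0 : M)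
  obtain ⟨j, _, hj⟩ := (Nat.dvd_prime_pow hp.out).1 (addOrderOf_dvd_of_nsmul_eq_zero (hk x))
  have h1 : j ≠ 0 := by
    intro h0
    rw [h0, pow_zero, AddMonoid.addOrderOf_eq_one_iff] at hj
    exact hx hj
  have h2 : p ∣ addOrderOf x := by
    rw [hj]
    exact dvd_pow_self p h1
  exact h2.trans (addOrderOf_dvd_natCard x)

theorem isPGroup_quotient {G : Type*} [Group G] (H : Subgroup G) [H.Normal] (n : ℕ)
    (hn : H.index = p ^ n) : IsPGroup p (G ⧸ H) := by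
  rw [Subgroup.index_eq_card] at hn
  exact IsPGroup.of_card hn

theorem fp4 {G : Type*} [Group G] {M : Type*} [AddCommGroup M] [Finite M]
    (ρ : G →* AddMonoid.End M) (n : ℕ) (hn : ρ.ker.index = p ^ n) (hM : p ∣ Nat.card M) :
    ∃ b : M, b ≠ 0 ∧ ∀ g, ρ g b = b := by
  obtain ⟨b, hb, hb'⟩ := fp1 (QuotientGroup.lift ρ.ker ρ (fun x hx => hx))
    (isPGroup_quotient _ n hn) hM
  exact ⟨b, hb, fun g => hb' (QuotientGroup.mk g)⟩

section G

variable {G : Type u} [Group G] [TopologicalSpace G] [IsTopologicalGroup G] [CompactSpace G]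
  [NonarchimedeanGroup G] {χ : G →* ℤ_[p]ˣ} {m : ℕ}

theorem tw_apply (k : ℕ) (g : G) (x : ZMod (p ^ k)) :
    tw χ k g x = PadicInt.toZModPow k ((χ g : ℤ_[p]ˣ) : ℤ_[p]) * x := rfl

theorem tw_toZModPow (k : ℕ) (g : G) (x : ℤ_[p]) :
    tw χ k g (PadicInt.toZModPow k x) = PadicInt.toZModPow k (((χ g : ℤ_[p]ˣ) : ℤ_[p]) * x) := by
  rw [tw_apply, map_mul]

theorem tw_jm {k : ℕ} (hk : 1 ≤ k) {g : G}
    (hg : PadicInt.toZMod ((χ g : ℤ_[p]ˣ) : ℤ_[p]) = 1) (a : ZMod p) :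
    tw χ k g (jm k a) = jm k a := by
  have h1 : a = PadicInt.toZMod ((a.val : ℕ) : ℤ_[p]) := by
    rw [map_natCast, ZMod.natCast_zmod_val]
  rw [h1, jm_toZMod hk, tw_toZModPow, toZModPow_eq_iff]
  have h2 : (p : ℤ_[p]) ∣ ((χ g : ℤ_[p]ˣ) : ℤ_[p]) - 1 := by
    rw [← toZMod_eq_zero_iff, map_sub, hg, map_one, sub_self]
  obtain ⟨y, hy⟩ := h2
  obtain ⟨j, rfl⟩ : ∃ j, k = j + 1 := ⟨k - 1, by omega⟩
  rw [Nat.add_sub_cancel]
  exact ⟨y * ((a.val : ℕ) : ℤ_[p]), by linear_combination (p : ℤ_[p]) ^ j * (a.val : ℤ_[p]) * hy⟩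

theorem act_mul {M : Type*} [AddCommGroup M] (ρ : G →* AddMonoid.End M) (g h : G) (x : M) :
    ρ (g * h) x = ρ g (ρ h x) := by
  rw [map_mul]
  rfl

theorem act_one {M : Type*} [AddCommGroup M] (ρ : G →* AddMonoid.End M) (x : M) :
    ρ 1 x = x := by
  rw [map_one]
  rfl

theorem loc2_act {M : Type*} [AddCommGroup M] {ρ : G →* AddMonoid.End M} (hρ : Sm ρ)
    {β : G → M} (hβ : Loc1 β) : Loc2 fun g h => ρ g (β h) := by
  obtain ⟨W, hW, hW'⟩ := hρ
  obtain ⟨V, hV, hV'⟩ := hβ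
  refine ⟨W ⊓ V, ?_, fun g h w hw w' hw' => ?_⟩
  · rw [Subgroup.coe_inf]
    exact hW.inter hV
  · change ρ (g * w) (β (h * w')) = ρ g (β h)
    rw [hV' h w' hw'.2, map_mul, hW' w hw.1, mul_one]

theorem loc1_act {M : Type*} [AddCommGroup M] {ρ : G →* AddMonoid.End M} (hρ : Sm ρ)
    (x : M) : Loc1 fun g => ρ g x := by
  obtain ⟨W, hW, hW'⟩ := hρ
  refine ⟨W, hW, fun g w hw => ?_⟩
  change ρ (g * w) x = ρ g x
  rw [map_mul, hW' w hw, mul_one]

theorem loc1_act' {M : Type*} [AddCommGroup M] {ρ : G →* AddMonoid.End M} (hρ : Sm ρ)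
    {β : G → M} (hβ : Loc1 β) : Loc1 fun g => ρ g (β g) := by
  obtain ⟨W, hW, hW'⟩ := hρ
  obtain ⟨V, hV, hV'⟩ := hβ
  refine ⟨W ⊓ V, ?_, fun g w hw => ?_⟩
  · rw [Subgroup.coe_inf]
    exact hW.inter hV
  · change ρ (g * w) (β (g * w)) = ρ g (β g)
    rw [hV' g w hw.2, map_mul, hW' w hw.1, mul_one]

theorem loc2_left {X : Type*} {β : G → X} (hβ : Loc1 β) : Loc2 fun g _ : G => β g := by
  obtain ⟨V, hV, hV'⟩ := hβ
  exact ⟨V, hV, fun g h w hw w' hw' => hV' g w hw⟩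

theorem loc2_right {X : Type*} {β : G → X} (hβ : Loc1 β) : Loc2 fun _ h : G => β h := by
  obtain ⟨V, hV, hV'⟩ := hβ
  exact ⟨V, hV, fun g h w hw w' hw' => hV' h w' hw'⟩

theorem loc2_mul {X : Type*} {β : G → X} (hβ : Loc1 β) : Loc2 fun g h : G => β (g * h) := by
  have h1 := BKPar.Lift.Loc1.isLocallyConstant hβ
  exact BKPar.Lift.Loc2.of_isLocallyConstant (h1.comp_continuous continuous_mul)

theorem B2_le_Z2 {M : Type*} [AddCommGroup M] {ρ : G →* AddMonoid.End M} (hρ : Sm ρ) :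
    B2 ρ ≤ Z2 ρ := by
  rintro z ⟨β, hβ, hβ'⟩
  have h0 : z = fun g h => ρ g (β h) - β (g * h) + β g := by
    funext g h
    exact hβ' g h
  refine ⟨?_, fun g h k => ?_⟩
  · rw [h0]
    exact Loc2.map2 (Loc2.map2 (loc2_act hρ hβ) (loc2_mul hβ) (· - ·)) (loc2_left hβ) (· + ·)
  · simp only [hβ', map_add, map_sub, act_mul, mul_assoc]
    abel

/-! ### Lifting -/

theorem loc1_toZMod {f : G → ℤ_[p]} (hf : Continuous f) : Loc1 fun g => PadicInt.toZMod (f g) := by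
  have h1 := Red.loc1_of_continuous hf 1 id
  obtain ⟨W, hW, h⟩ := h1
  refine ⟨W, hW, fun g w hw => ?_⟩
  have h2 : PadicInt.toZModPow 1 (f (g * w)) = PadicInt.toZModPow 1 (f g) := h g w hw
  rw [toZModPow_eq_iff, pow_one, ← toZMod_eq_zero_iff, map_sub, sub_eq_zero] at h2
  exact h2

theorem exists_lift {k : ℕ} {f : G → ZMod (p ^ k)} (hf : Loc1 f) :
    ∃ F : G → ℤ_[p], Continuous F ∧ ∀ g, PadicInt.toZModPow k (F g) = f g := by
  choose s hs using fun x : ZMod (p ^ k) => exists_toZModPow x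
  exact ⟨fun g => s (f g),
    ((BKPar.Lift.Loc1.isLocallyConstant hf).comp s).continuous, fun g => hs _⟩

/-- divisible continuous functions -/
theorem exists_div {F : G → ℤ_[p]} (hF : Continuous F) (k : ℕ)
    (h : ∀ g, (p : ℤ_[p]) ^ k ∣ F g) :
    ∃ F' : G → ℤ_[p], Continuous F' ∧ ∀ g, F g = (p : ℤ_[p]) ^ k * F' g := by
  choose F' hF' using h
  refine ⟨F', ?_, hF'⟩
  have h1 : Topology.IsInducing (fun x : ℤ_[p] => (p : ℤ_[p]) ^ k * x) := by
    have hne : ‖(p : ℤ_[p]) ^ k‖ ≠ 0 := by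
      rw [norm_ne_zero_iff]
      exact pow_ne_zero _ p_ne_zero
    have hpos : (0 : ℝ) < ‖(p : ℤ_[p]) ^ k‖ := lt_of_le_of_ne (norm_nonneg _) (Ne.symm hne)
    have h2 : AntilipschitzWith (Real.toNNReal ‖(p : ℤ_[p]) ^ k‖⁻¹)
        (fun x : ℤ_[p] => (p : ℤ_[p]) ^ k * x) := by
      refine AntilipschitzWith.of_le_mul_dist fun x y => ?_
      rw [Real.coe_toNNReal _ (inv_nonneg.2 hpos.le), dist_eq_norm, dist_eq_norm, ← mul_sub,
        norm_mul, ← mul_assoc, inv_mul_cancel₀ hne, one_mul]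
    exact (h2.isUniformInducing (by
      have : LipschitzWith (Real.toNNReal ‖(p : ℤ_[p]) ^ k‖)
        (fun x : ℤ_[p] => (p : ℤ_[p]) ^ k * x) := by
        refine LipschitzWith.of_dist_le_mul fun x y => ?_
        rw [Real.coe_toNNReal _ hpos.le, dist_eq_norm, dist_eq_norm, ← mul_sub, norm_mul]
      exact this.uniformContinuous)).isInducing
  rw [h1.continuous_iff]
  refine hF.congr fun g => hF' g

/-- cocycles modulo `p ^ k` lift to cocycles -/
theorem kum_lift (D : Dat p G χ m) (k : ℕ) : ∀ (C : G → ℤ_[p]), Continuous C →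
    (∀ g h, (p : ℤ_[p]) ^ k ∣ C (g * h) - C g - ((χ g : ℤ_[p]ˣ) : ℤ_[p]) * C h) →
    ∃ κ : G → ℤ_[p], Continuous κ ∧
      (∀ g h, κ (g * h) = κ g + ((χ g : ℤ_[p]ˣ) : ℤ_[p]) * κ h) ∧
      ∀ g, (p : ℤ_[p]) ^ k ∣ C g - κ g := by
  induction k with
  | zero =>
    intro C hC h
    exact ⟨fun _ => 0, continuous_const, fun _ _ => by simp, fun g => by simp⟩
  | succ k ih =>
    intro C hC h
    have h1 : (fun g => PadicInt.toZMod (C g)) ∈ Z1 (1 : G →* AddMonoid.End (ZMod p)) := by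
      refine ⟨loc1_toZMod hC, fun g h' => ?_⟩
      have h2 : (p : ℤ_[p]) ∣ C (g * h') - C g - ((χ g : ℤ_[p]ˣ) : ℤ_[p]) * C h' :=
        dvd_trans (dvd_pow_self _ (Nat.succ_ne_zero k)) (h g h')
      rw [← toZMod_eq_zero_iff, map_sub, map_sub, map_mul, D.one, one_mul, sub_sub,
        sub_eq_zero] at h2
      exact h2
    obtain ⟨κ₀, hκ₀, hκ₀', hκ₀''⟩ := D.kum _ h1
    obtain ⟨C', hC', hC''⟩ := exists_div (F := fun g => C g - κ₀ g) (hC.sub hκ₀) 1 (fun g => by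
      rw [pow_one, ← toZMod_eq_zero_iff, map_sub, hκ₀'' g, sub_self])
    simp only [pow_one] at hC''
    obtain ⟨κ', hκ', hκ'', hκ'''⟩ := ih C' hC' (fun g h' => by
      have h2 := h g h'
      have h3 : C (g * h') - C g - ((χ g : ℤ_[p]ˣ) : ℤ_[p]) * C h' =
          p * (C' (g * h') - C' g - ((χ g : ℤ_[p]ˣ) : ℤ_[p]) * C' h') := by
        linear_combination hC'' (g * h') - hC'' g - ((χ g : ℤ_[p]ˣ) : ℤ_[p]) * hC'' h' +
          hκ₀' g h'
      rw [h3, pow_succ', mul_dvd_mul_iff_left p_ne_zero] at h2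
      exact h2)
    refine ⟨fun g => κ₀ g + p * κ' g, by fun_prop, fun g h' => ?_, fun g => ?_⟩
    · linear_combination hκ₀' g h' + (p : ℤ_[p]) * hκ'' g h'
    · have h3 : C g - (κ₀ g + p * κ' g) = p * (C' g - κ' g) := by
        linear_combination hC'' g
      rw [h3, pow_succ', mul_dvd_mul_iff_left p_ne_zero]
      exact hκ''' g

/-- every smooth cocycle with values in `ℤ/p^k(χ)` lifts to a continuous cocycle -/
theorem exists_cocycle_lift (D : Dat p G χ m) {k : ℕ} {c : G → ZMod (p ^ k)}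
    (hc : c ∈ Z1 (tw χ k)) : ∃ κ : G → ℤ_[p], Continuous κ ∧
      (∀ g h, κ (g * h) = κ g + ((χ g : ℤ_[p]ˣ) : ℤ_[p]) * κ h) ∧
      ∀ g, PadicInt.toZModPow k (κ g) = c g := by
  obtain ⟨C, hC, hC'⟩ := exists_lift hc.1
  obtain ⟨κ, h1, h2, h3⟩ := kum_lift D k C hC (fun g h => by
    rw [← toZModPow_eq_zero_iff, map_sub, map_sub, ← tw_toZModPow, hC', hC', hC', hc.2 g h]
    abel)
  exact ⟨κ, h1, h2, fun g => by rw [← hC' g, eq_comm, toZModPow_eq_iff]; exact h3 g⟩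

/-- INJ1: `jm` is injective on `H²` -/
theorem inj1 (D : Dat p G χ m) {k : ℕ} (hk : 1 ≤ k) {z : G → G → ZMod p}
    (h : (fun g g' => jm k (z g g')) ∈ B2 (tw χ k)) :
    z ∈ B2 (1 : G →* AddMonoid.End (ZMod p)) := by
  obtain ⟨β, hβ, hβ'⟩ := h
  obtain ⟨B, hB, hB'⟩ := exists_lift hβ
  obtain ⟨j, rfl⟩ : ∃ j, k = j + 1 := ⟨k - 1, by omega⟩
  have h1 : ∀ g g', (p : ℤ_[p]) ^ (j + 1) ∣ ((χ g : ℤ_[p]ˣ) : ℤ_[p]) * B g' - B (g * g') + B g -
      (p : ℤ_[p]) ^ j * ((z g g').val : ℤ_[p]) := by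
    intro g g'
    rw [← toZModPow_eq_zero_iff, map_sub, map_add, map_sub, ← tw_toZModPow, hB', hB', hB']
    have h2 : jm (j + 1) (z g g') = tw χ (j + 1) g (β g') - β (g * g') + β g := hβ' g g'
    have h3 : z g g' = PadicInt.toZMod (((z g g').val : ℕ) : ℤ_[p]) := by
      rw [map_natCast, ZMod.natCast_zmod_val]
    rw [h3, jm_toZMod hk, Nat.add_sub_cancel] at h2
    rw [← h2, sub_self]
  obtain ⟨κ, hκ, hκ', hκ''⟩ := kum_lift D j B hB (fun g g' => by
    have h2 : (p : ℤ_[p]) ^ j ∣ ((χ g : ℤ_[p]ˣ) : ℤ_[p]) * B g' - B (g * g') + B g -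
      (p : ℤ_[p]) ^ j * ((z g g').val : ℤ_[p]) := dvd_trans (pow_dvd_pow _ (Nat.le_succ j)) (h1 g g')
    have h3 := dvd_add h2 (Dvd.intro ((z g g').val : ℤ_[p]) rfl)
    have h4 := (dvd_neg (α := ℤ_[p])).2 h3
    refine Eq.subst ?_ h4
    ring)
  obtain ⟨Γ, hΓ, hΓ'⟩ := exists_div (F := fun g => B g - κ g) (hB.sub hκ) j hκ''
  refine ⟨fun g => PadicInt.toZMod (Γ g), loc1_toZMod hΓ, fun g g' => ?_⟩
  have h2 : (p : ℤ_[p]) ∣ ((χ g : ℤ_[p]ˣ) : ℤ_[p]) * Γ g' - Γ (g * g') + Γ g -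
      ((z g g').val : ℤ_[p]) := by
    have h3 := h1 g g'
    have h4 : ((χ g : ℤ_[p]ˣ) : ℤ_[p]) * B g' - B (g * g') + B g -
      (p : ℤ_[p]) ^ j * ((z g g').val : ℤ_[p]) = (p : ℤ_[p]) ^ j *
        (((χ g : ℤ_[p]ˣ) : ℤ_[p]) * Γ g' - Γ (g * g') + Γ g - ((z g g').val : ℤ_[p])) := by
      linear_combination ((χ g : ℤ_[p]ˣ) : ℤ_[p]) * hΓ' g' - hΓ' (g * g') + hΓ' g - hκ' g g'
    rw [h4, pow_succ] at h3
    exact (mul_dvd_mul_iff_left (pow_ne_zero _ p_ne_zero)).1 h3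
  rw [← toZMod_eq_zero_iff, map_sub, map_add, map_sub, map_mul, D.one, one_mul, map_natCast,
    ZMod.natCast_zmod_val, sub_eq_zero] at h2
  exact h2.symm

theorem loc2_of_injective {X Y : Type*} {f : G → G → X} {F : X → Y} (hF : Function.Injective F)
    (h : Loc2 fun g h => F (f g h)) : Loc2 f := by
  obtain ⟨W, hW, h⟩ := h
  exact ⟨W, hW, fun g g' w hw w' hw' => hF (h g g' w hw w' hw')⟩

theorem loc1_of_injective {X Y : Type*} {f : G → X} {F : X → Y} (hF : Function.Injective F)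
    (h : Loc1 fun g => F (f g)) : Loc1 f := by
  obtain ⟨W, hW, h⟩ := h
  exact ⟨W, hW, fun g w hw => hF (h g w hw)⟩

/-- cocycles with values in the image of `jm` -/
theorem mem_Z2_of_jm (D : Dat p G χ m) {k : ℕ} (hk : 1 ≤ k) {z : G → G → ZMod p}
    (h : (fun g g' => jm k (z g g')) ∈ Z2 (tw χ k)) :
    z ∈ Z2 (1 : G →* AddMonoid.End (ZMod p)) := by
  refine ⟨loc2_of_injective (jm_injective hk) h.1, fun g g' g'' => ?_⟩
  have h1 := h.2 g g' g''
  simp only [tw_jm hk (D.one g)] at h1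
  rw [← map_sub, ← map_add, ← map_sub] at h1
  exact (injective_iff_map_eq_zero (jm (p := p) k)).1 (jm_injective hk) _ h1

theorem jm_mem_B2 (D : Dat p G χ m) {k : ℕ} (hk : 1 ≤ k) {z : G → G → ZMod p}
    (h : z ∈ B2 (1 : G →* AddMonoid.End (ZMod p))) :
    (fun g g' => jm k (z g g')) ∈ B2 (tw χ k) := by
  obtain ⟨β, hβ, hβ'⟩ := h
  refine ⟨fun g => jm k (β g), Loc1.map hβ _, fun g g' => ?_⟩
  change jm k (z g g') = tw χ k g (jm k (β g')) - jm k (β (g * g')) + jm k (β g)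
  rw [tw_jm hk (D.one g), ← map_sub, ← map_add, hβ']
  rfl

/-- INJ2 -/
theorem inj2 (D : Dat p G χ m) {k : ℕ} (hk : 1 ≤ k) {w : G → G → ZMod (p ^ k)}
    (hw : w ∈ Z2 (tw χ k)) (h : p • w ∈ B2 (tw χ k)) :
    ∃ z ∈ Z2 (1 : G →* AddMonoid.End (ZMod p)),
      w - (fun g g' => jm k (z g g')) ∈ B2 (tw χ k) := by
  obtain ⟨β, hβ, hβ'⟩ := h
  obtain ⟨B, hB, hB'⟩ := exists_lift hβ
  choose s hs using fun x : ZMod (p ^ k) => exists_toZModPow x
  obtain ⟨j, rfl⟩ : ∃ j, k = j + 1 := ⟨k - 1, by omega⟩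
  have h1 : ∀ g g', (p : ℤ_[p]) ^ (j + 1) ∣ ((χ g : ℤ_[p]ˣ) : ℤ_[p]) * B g' - B (g * g') + B g -
      (p : ℤ_[p]) * s (w g g') := by
    intro g g'
    rw [← toZModPow_eq_zero_iff, map_sub, map_add, map_sub, ← tw_toZModPow, hB', hB', hB',
      map_mul, hs, map_natCast]
    have h2 := hβ' g g'
    rw [Pi.smul_apply, Pi.smul_apply, nsmul_eq_mul] at h2
    rw [← h2, sub_self]
  obtain ⟨κ, hκ, hκ', hκ''⟩ := kum_lift D 1 B hB (fun g g' => by
    have h2 : (p : ℤ_[p]) ∣ ((χ g : ℤ_[p]ˣ) : ℤ_[p]) * B g' - B (g * g') + B g -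
      (p : ℤ_[p]) * s (w g g') := dvd_trans (dvd_pow_self _ (Nat.succ_ne_zero j)) (h1 g g')
    have h3 := dvd_add h2 (Dvd.intro (s (w g g')) rfl)
    have h4 := (dvd_neg (α := ℤ_[p])).2 h3
    rw [pow_one]
    refine Eq.subst ?_ h4
    ring)
  obtain ⟨Γ, hΓ, hΓ'⟩ := exists_div (F := fun g => B g - κ g) (hB.sub hκ) 1 hκ''
  simp only [pow_one] at hΓ'
  have h2 : ∀ g g', (p : ℤ_[p]) ^ j ∣ s (w g g') -
      (((χ g : ℤ_[p]ˣ) : ℤ_[p]) * Γ g' - Γ (g * g') + Γ g) := by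
    intro g g'
    have h3 := (dvd_neg (α := ℤ_[p])).2 (h1 g g')
    have h4 : -(((χ g : ℤ_[p]ˣ) : ℤ_[p]) * B g' - B (g * g') + B g -
      (p : ℤ_[p]) * s (w g g')) = p * (s (w g g') -
      (((χ g : ℤ_[p]ˣ) : ℤ_[p]) * Γ g' - Γ (g * g') + Γ g)) := by
      linear_combination -((χ g : ℤ_[p]ˣ) : ℤ_[p]) * hΓ' g' + hΓ' (g * g') - hΓ' g + hκ' g g'
    rw [h4, pow_succ', mul_dvd_mul_iff_left p_ne_zero] at h3
    exact h3
  choose Y hY using h2
  have h5 : (fun g g' => jm (j + 1) (PadicInt.toZMod (Y g g'))) =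
      w - (fun g g' => tw χ (j + 1) g (PadicInt.toZModPow (j + 1) (Γ g')) -
        PadicInt.toZModPow (j + 1) (Γ (g * g')) + PadicInt.toZModPow (j + 1) (Γ g)) := by
    funext g g'
    rw [jm_toZMod hk, Nat.add_sub_cancel, ← hY g g', Pi.sub_apply, Pi.sub_apply, tw_toZModPow,
      map_sub, map_add, map_sub, hs]
  have h6 : (fun g g' => tw χ (j + 1) g (PadicInt.toZModPow (j + 1) (Γ g')) -
        PadicInt.toZModPow (j + 1) (Γ (g * g')) + PadicInt.toZModPow (j + 1) (Γ g)) ∈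
      B2 (tw χ (j + 1)) :=
    ⟨fun g => PadicInt.toZModPow (j + 1) (Γ g), Red.loc1_of_continuous hΓ (j + 1) id,
      fun g g' => rfl⟩
  have h7 : Sm (tw χ (j + 1)) := by
    obtain ⟨W, hW, hW'⟩ := Red.loc1_of_continuous
      (f := fun g => ((χ g : ℤ_[p]ˣ) : ℤ_[p])) (Units.continuous_val.comp D.cont) (j + 1) id
    refine ⟨W, hW, fun w hw => ?_⟩
    have h8 : PadicInt.toZModPow (j + 1) ((χ (1 * w) : ℤ_[p]ˣ) : ℤ_[p]) =
      PadicInt.toZModPow (j + 1) ((χ 1 : ℤ_[p]ˣ) : ℤ_[p]) := hW' 1 w hw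
    rw [one_mul, map_one, Units.val_one, map_one] at h8
    ext1 x
    rw [tw_apply, h8, one_mul]
    rfl
  refine ⟨fun g g' => PadicInt.toZMod (Y g g'), mem_Z2_of_jm D hk ?_, ?_⟩
  · rw [h5]
    exact sub_mem hw (B2_le_Z2 h7 h6)
  · rw [h5, sub_sub_cancel]
    exact h6

theorem sm_tw (D : Dat p G χ m) (k : ℕ) : Sm (tw χ k) := by
  obtain ⟨W, hW, hW'⟩ := Red.loc1_of_continuous
    (f := fun g => ((χ g : ℤ_[p]ˣ) : ℤ_[p])) (Units.continuous_val.comp D.cont) k id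
  refine ⟨W, hW, fun w hw => ?_⟩
  have h8 : PadicInt.toZModPow k ((χ (1 * w) : ℤ_[p]ˣ) : ℤ_[p]) =
    PadicInt.toZModPow k ((χ 1 : ℤ_[p]ˣ) : ℤ_[p]) := hW' 1 w hw
  rw [one_mul, map_one, Units.val_one, map_one] at h8
  ext1 x
  rw [tw_apply, h8, one_mul]
  rfl

/-! ### Sub and quotient actions -/

section SQ

variable {M : Type*} [AddCommGroup M] (ρ : G →* AddMonoid.End M) (S : AddSubgroup M)
  (h : ∀ g, ∀ x ∈ S, ρ g x ∈ S)

/-- the action on an invariant subgroup -/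
def subAct : G →* AddMonoid.End S where
  toFun g := ((ρ g : M →+ M).comp S.subtype).codRestrict S (fun x => h g x x.2)
  map_one' := by
    ext1 x
    apply Subtype.ext
    exact act_one ρ x
  map_mul' g g' := by
    ext1 x
    apply Subtype.ext
    exact act_mul ρ g g' x

theorem subAct_coe (g : G) (x : S) : ((subAct ρ S h g x : S) : M) = ρ g x := rfl

/-- the action on the quotient by an invariant subgroup -/
def quotAct : G →* AddMonoid.End (M ⧸ S) where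
  toFun g := QuotientAddGroup.map S S (ρ g : M →+ M) (fun x hx => h g x hx)
  map_one' := by
    ext1 x
    obtain ⟨x, rfl⟩ := QuotientAddGroup.mk_surjective x
    change ((ρ 1 x : M) : M ⧸ S) = x
    rw [act_one]
  map_mul' g g' := by
    ext1 x
    obtain ⟨x, rfl⟩ := QuotientAddGroup.mk_surjective x
    change ((ρ (g * g') x : M) : M ⧸ S) = ((ρ g (ρ g' x) : M) : M ⧸ S)
    rw [act_mul]

theorem quotAct_mk (g : G) (x : M) :
    quotAct ρ S h g (x : M ⧸ S) = ((ρ g x : M) : M ⧸ S) := rfl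

theorem sm_subAct (hρ : Sm ρ) : Sm (subAct ρ S h) := by
  obtain ⟨W, hW, hW'⟩ := hρ
  refine ⟨W, hW, fun w hw => ?_⟩
  ext1 x
  apply Subtype.ext
  rw [subAct_coe, hW' w hw]
  rfl

theorem sm_quotAct (hρ : Sm ρ) : Sm (quotAct ρ S h) := by
  obtain ⟨W, hW, hW'⟩ := hρ
  refine ⟨W, hW, fun w hw => ?_⟩
  ext1 x
  obtain ⟨x, rfl⟩ := QuotientAddGroup.mk_surjective x
  rw [quotAct_mk, hW' w hw]
  rfl

end SQ

namespace Pr

variable {k : ℕ} (X : Pr p G χ k)

theorem pow_smul (x : X.M) : p ^ k • x = 0 := by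
  refine X.left _ fun m' => ?_
  rw [map_nsmul, AddMonoidHom.nsmul_apply, nsmul_eq_mul, Nat.cast_pow, ← Nat.cast_pow,
    ZMod.natCast_self, zero_mul]

theorem pow_smul' (x : X.M') : p ^ k • x = 0 := X.flip.pow_smul x

/-- a nonzero invariant vector of order `p` -/
theorem exists_fixed (D : Dat p G χ m) (hX : Nontrivial X.M') :
    ∃ e ∈ H0 X.ρ', e ≠ 0 ∧ p • e = 0 := by
  have hker : IsOpen (X.ρ'.ker : Set G) := by
    obtain ⟨W, hW, hW'⟩ := X.sm'
    exact Subgroup.isOpen_mono (H₁ := W) (fun w hw => hW' w hw) hW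
  obtain ⟨n, hn⟩ := D.prop _ hker
  obtain ⟨b, hb, hb'⟩ := fp4 X.ρ' n hn (fp3 k X.pow_smul')
  obtain ⟨i, hi, hi'⟩ := fp2 k X.pow_smul' b hb
  refine ⟨p ^ i • b, fun g => ?_, hi, hi'⟩
  rw [map_nsmul, hb']

theorem one_le_k {e : X.M'} (he : e ≠ 0) : 1 ≤ k := by
  rcases k with _ | k
  · exfalso
    apply he
    have := X.pow_smul' e
    rwa [pow_zero, one_smul] at this
  · omega

/-- the homomorphism to `ℤ/p` given by an element of order `p` of the dual module -/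
theorem exists_pi {e : X.M'} (he : e ≠ 0) (hpe : p • e = 0) :
    ∃ π : X.M →+ ZMod p, ∀ x, X.b x e = jm k (π x) := by
  have hk := X.one_le_k he
  have h1 : ∀ x, ∃ a : ZMod p, jm k a = X.b x e := fun x => exists_jm hk (by
    rw [← map_nsmul, hpe, map_zero])
  choose f hf using h1
  refine ⟨AddMonoidHom.mk' f fun a b => ?_, fun x => (hf x).symm⟩
  apply jm_injective hk
  rw [hf, map_add, map_add, AddMonoidHom.add_apply, hf, hf]

/-- the data used to reduce the size of a pair -/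
structure RD where
  /-- the element of the dual module -/
  e : X.M'
  inv : ∀ g, X.ρ' g e = e
  ne : e ≠ 0
  ord : p • e = 0
  /-- the homomorphism given by the element -/
  π : X.M →+ ZMod p
  hπ : ∀ x, X.b x e = jm k (π x)
  one : ∀ g, PadicInt.toZMod ((χ g : ℤ_[p]ˣ) : ℤ_[p]) = 1

theorem exists_RD (D : Dat p G χ m) (hX : Nontrivial X.M') : Nonempty X.RD := by
  obtain ⟨e, he, he', he''⟩ := X.exists_fixed D hX
  obtain ⟨π, hπ⟩ := X.exists_pi he' he''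
  exact ⟨⟨e, he, he', he'', π, hπ, D.one⟩⟩

namespace RD

variable {X}

theorem hk (r : X.RD) : 1 ≤ k := X.one_le_k r.ne

variable (r : X.RD)

theorem π_inv (g : G) (x : X.M) : r.π (X.ρ g x) = r.π x := by
  apply jm_injective r.hk
  rw [← r.hπ, ← r.hπ]
  have h1 := X.eq g x r.e
  rw [r.inv, r.hπ x, tw_jm r.hk (r.one g), ← r.hπ x] at h1
  exact h1

/-- multiples of `e` -/
def em : ZMod p →+ X.M' := ZMod.lift p ⟨zmultiplesHom X.M' r.e, by
  rw [zmultiplesHom_apply, natCast_zsmul, r.ord]⟩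

theorem em_apply (a : ZMod p) : r.em a = a.val • r.e := by
  have h := ZMod.lift_coe p ⟨zmultiplesHom X.M' r.e, by
    rw [zmultiplesHom_apply, natCast_zsmul, r.ord]⟩ (a.val : ℤ)
  rw [Int.cast_natCast, ZMod.natCast_zmod_val] at h
  rw [em, h, zmultiplesHom_apply, natCast_zsmul]

theorem b_em (x : X.M) (a : ZMod p) : X.b x (r.em a) = jm k (a * r.π x) := by
  rw [em_apply, map_nsmul, r.hπ, jm_mul]

theorem act_em (g : G) (a : ZMod p) : X.ρ' g (r.em a) = r.em a := by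
  rw [em_apply, map_nsmul, r.inv]

theorem π_surjective : Function.Surjective r.π := by
  have h1 : ∃ x, r.π x ≠ 0 := by
    by_contra h
    push Not at h
    exact r.ne (X.right _ fun x => by rw [r.hπ, h, map_zero])
  obtain ⟨x, hx⟩ := h1
  intro a
  refine ⟨(a * (r.π x)⁻¹).val • x, ?_⟩
  rw [map_nsmul, nsmul_eq_mul, ZMod.natCast_zmod_val, mul_assoc, inv_mul_cancel₀ hx, mul_one]

theorem em_injective : Function.Injective r.em := by
  rw [injective_iff_map_eq_zero]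
  intro a ha
  obtain ⟨x, hx⟩ := r.π_surjective 1
  have h1 := r.b_em x a
  rw [ha, map_zero, hx, mul_one] at h1
  exact (injective_iff_map_eq_zero (jm (p := p) k)).1 (jm_injective r.hk) _ h1.symm

/-- elements orthogonal to the kernel of `π` are multiples of `e` -/
theorem exists_em {m' : X.M'} (h : ∀ x, r.π x = 0 → X.b x m' = 0) : ∃ a, m' = r.em a := by
  obtain ⟨q, hq⟩ := r.π_surjective 1
  have h1 : p • X.b q m' = 0 := by
    rw [← AddMonoidHom.nsmul_apply, ← map_nsmul]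
    apply h
    rw [map_nsmul, hq, nsmul_eq_mul, CharP.cast_eq_zero, zero_mul]
  obtain ⟨a, ha⟩ := exists_jm r.hk h1
  refine ⟨a, ?_⟩
  rw [← sub_eq_zero]
  refine X.right _ fun x => ?_
  have h2 : X.b (x - (r.π x).val • q) m' = 0 := by
    apply h
    rw [map_sub, map_nsmul, hq, nsmul_eq_mul, ZMod.natCast_zmod_val, mul_one, sub_self]
  rw [map_sub, map_nsmul, AddMonoidHom.sub_apply, AddMonoidHom.nsmul_apply, ← ha, ← jm_mul,
    sub_eq_zero] at h2
  rw [map_sub, h2, r.b_em, mul_comm, sub_self]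

/-- the smaller pair -/
def red : Pr p G χ k where
  M := r.π.ker
  M' := X.M' ⧸ AddSubgroup.zmultiples r.e
  ρ := subAct X.ρ r.π.ker (fun g x hx => by
    rw [AddMonoidHom.mem_ker, r.π_inv]
    exact hx)
  ρ' := quotAct X.ρ' (AddSubgroup.zmultiples r.e) (fun g x hx => by
    obtain ⟨n, rfl⟩ := hx
    exact ⟨n, by
      change n • r.e = X.ρ' g (n • r.e)
      rw [map_zsmul, r.inv]⟩)
  sm := sm_subAct _ _ _ X.sm
  sm' := sm_quotAct _ _ _ X.sm'
  b := AddMonoidHom.mk' (fun x => QuotientAddGroup.lift (AddSubgroup.zmultiples r.e) (X.b x)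
    (fun y hy => by
      obtain ⟨n, rfl⟩ := hy
      have h1 : X.b x (n • r.e) = 0 := by
        rw [map_zsmul, r.hπ, show r.π (x : X.M) = 0 from x.2, map_zero, smul_zero]
      exact h1)) (fun a c => by
      ext y
      change X.b ((a + c : r.π.ker) : X.M) y = X.b a y + X.b c y
      rw [AddSubgroup.coe_add, map_add, AddMonoidHom.add_apply])
  eq := by
    intro g x y
    obtain ⟨y, rfl⟩ := QuotientAddGroup.mk_surjective y
    exact X.eq g x y
  left := by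
    intro x hx
    apply Subtype.ext
    refine X.left _ fun m' => ?_
    exact hx (m' : X.M' ⧸ AddSubgroup.zmultiples r.e)
  right := by
    intro y hy
    obtain ⟨y, rfl⟩ := QuotientAddGroup.mk_surjective y
    obtain ⟨a, ha⟩ := r.exists_em (m' := y) (fun x hx => hy ⟨x, hx⟩)
    rw [QuotientAddGroup.eq_zero_iff, ha, em_apply]
    exact ⟨(a.val : ℤ), by
      change (a.val : ℤ) • r.e = _
      rw [natCast_zsmul]⟩

/-- the inclusion of the smaller module -/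
def incl : r.red.M →+ X.M := r.π.ker.subtype

/-- the projection to the smaller dual module -/
def proj : X.M' →+ r.red.M' := QuotientAddGroup.mk' (AddSubgroup.zmultiples r.e)

theorem incl_injective : Function.Injective r.incl := Subtype.val_injective

theorem proj_surjective : Function.Surjective r.proj :=
  QuotientAddGroup.mk'_surjective _

theorem incl_act (g : G) (x : r.red.M) : r.incl (r.red.ρ g x) = X.ρ g (r.incl x) := rfl

theorem proj_act (g : G) (y : X.M') : r.proj (X.ρ' g y) = r.red.ρ' g (r.proj y) := rfl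

theorem b_proj (x : r.red.M) (y : X.M') : r.red.b x (r.proj y) = X.b (r.incl x) y := rfl

theorem π_incl (x : r.red.M) : r.π (r.incl x) = 0 := x.2

theorem exists_incl {x : X.M} (hx : r.π x = 0) : ∃ y, r.incl y = x := ⟨⟨x, hx⟩, rfl⟩

theorem card_red : Nat.card X.M = p * Nat.card r.red.M := by
  have h1 := AddSubgroup.card_mul_index r.π.ker
  have h2 : r.π.ker.index = p := by
    rw [AddSubgroup.index_ker]
    have h3 : r.π.range = ⊤ := AddMonoidHom.range_eq_top.2 r.π_surjective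
    rw [h3, AddSubgroup.card_top, Nat.card_zmod]
  rw [← h1, h2, mul_comm]
  rfl

theorem card_red_lt : Nat.card r.red.M < Nat.card X.M := by
  rw [r.card_red]
  have h1 : 0 < Nat.card r.red.M := Nat.card_pos
  have h2 := hp.out.one_lt
  nlinarith

theorem proj_em (a : ZMod p) : r.proj (r.em a) = 0 := by
  rw [em_apply, map_nsmul]
  have h1 : r.proj r.e = 0 :=
    (QuotientAddGroup.eq_zero_iff r.e).2 (AddSubgroup.mem_zmultiples r.e)
  rw [h1, smul_zero]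

theorem exists_em_of_proj {y : X.M'} (hy : r.proj y = 0) : ∃ a, y = r.em a := by
  have h0 : y ∈ AddSubgroup.zmultiples r.e := (QuotientAddGroup.eq_zero_iff y).1 hy
  obtain ⟨n, rfl⟩ := h0
  refine r.exists_em fun x hx => ?_
  have h1 : X.b x (n • r.e) = 0 := by
    rw [map_zsmul, r.hπ, hx, map_zero, smul_zero]
  exact h1

theorem exists_em_of_proj_eq {y y' : X.M'} (h : r.proj y = r.proj y') :
    ∃ a, y = y' + r.em a := by
  obtain ⟨a, ha⟩ := r.exists_em_of_proj (y := y - y') (by rw [map_sub, h, sub_self])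
  exact ⟨a, by rw [← ha]; abel⟩

/-- homomorphisms composed with `em` are cocycles -/
theorem em_mem_Z1 {c : G → ZMod p} (hc : c ∈ Z1 (1 : G →* AddMonoid.End (ZMod p))) :
    (fun g => r.em (c g)) ∈ Z1 X.ρ' := by
  refine ⟨Loc1.map hc.1 _, fun g h => ?_⟩
  change r.em (c (g * h)) = r.em (c g) + X.ρ' g (r.em (c h))
  rw [hc.2, act_em, ← map_add]
  rfl

/-- the composition of a cocycle with `π` is a homomorphism -/
theorem π_mem_Z1 {f : G → X.M} (hf : f ∈ Z1 X.ρ) :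
    (fun g => r.π (f g)) ∈ Z1 (1 : G →* AddMonoid.End (ZMod p)) := by
  refine ⟨Loc1.map hf.1 _, fun g h => ?_⟩
  change r.π (f (g * h)) = r.π (f g) + r.π (f h)
  rw [hf.2, map_add, r.π_inv]

/-- cocycles with values in the kernel of `π` -/
theorem exists_Z1_red {f : G → X.M} (hf : f ∈ Z1 X.ρ) (h : ∀ g, r.π (f g) = 0) :
    ∃ f₁ ∈ Z1 r.red.ρ, ∀ g, r.incl (f₁ g) = f g := by
  refine ⟨fun g => (⟨f g, h g⟩ : r.π.ker), ⟨?_, fun g h' => Subtype.ext (hf.2 g h')⟩,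
    fun g => rfl⟩
  exact loc1_of_injective (F := fun x : r.π.ker => (x : X.M)) Subtype.val_injective hf.1

theorem incl_mem_Z1 {f : G → r.red.M} (hf : f ∈ Z1 r.red.ρ) :
    (fun g => r.incl (f g)) ∈ Z1 X.ρ :=
  ⟨Loc1.map hf.1 _, fun g h => congrArg r.incl (hf.2 g h)⟩

theorem proj_mem_Z1 {f : G → X.M'} (hf : f ∈ Z1 X.ρ') :
    (fun g => r.proj (f g)) ∈ Z1 r.red.ρ' :=
  ⟨Loc1.map hf.1 _, fun g h => congrArg r.proj (hf.2 g h)⟩

/-- cup product and reduction -/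
theorem red_cup (f : G → r.red.M) (f' : G → X.M') :
    r.red.cup f (fun g => r.proj (f' g)) = X.cup (fun g => r.incl (f g)) f' := rfl

/-- the connecting homomorphism -/
theorem exists_conn {n' : G → r.red.M'} (hn : n' ∈ Z1 r.red.ρ') :
    ∃ (ψ : G → X.M') (c : G → G → ZMod p), Loc1 ψ ∧ (∀ g, r.proj (ψ g) = n' g) ∧
      ∀ g h, X.ρ' g (ψ h) - ψ (g * h) + ψ g = r.em (c g h) := by
  choose s hs using r.proj_surjective
  have h1 : ∀ g h, ∃ a, X.ρ' g (s (n' h)) - s (n' (g * h)) + s (n' g) = r.em a := by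
    intro g h
    refine r.exists_em_of_proj ?_
    rw [map_add, map_sub, proj_act, hs, hs, hs, hn.2 g h]
    abel
  choose c hc using h1
  exact ⟨fun g => s (n' g), c, Loc1.map hn.1 s, fun g => hs _, hc⟩

theorem conn_mem_Z2 {ψ : G → X.M'} {c : G → G → ZMod p} (hψ : Loc1 ψ)
    (h : ∀ g h, X.ρ' g (ψ h) - ψ (g * h) + ψ g = r.em (c g h)) :
    c ∈ Z2 (1 : G →* AddMonoid.End (ZMod p)) := by
  have h1 : (fun g h => r.em (c g h)) ∈ Z2 X.ρ' :=
    B2_le_Z2 X.sm' ⟨ψ, hψ, fun g g' => (h g g').symm⟩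
  refine ⟨loc2_of_injective r.em_injective h1.1, fun g g' g'' => ?_⟩
  have h2 := h1.2 g g' g''
  simp only [act_em] at h2
  rw [← map_sub, ← map_add, ← map_sub] at h2
  exact (injective_iff_map_eq_zero r.em).1 r.em_injective _ h2

/-- if the connecting class is trivial, the cocycle lifts -/
theorem exists_of_conn {ψ : G → X.M'} {c : G → G → ZMod p} (hψ : Loc1 ψ)
    (h : ∀ g h, X.ρ' g (ψ h) - ψ (g * h) + ψ g = r.em (c g h))
    (hc : c ∈ B2 (1 : G →* AddMonoid.End (ZMod p))) :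
    ∃ f' ∈ Z1 X.ρ', ∀ g, r.proj (f' g) = r.proj (ψ g) := by
  obtain ⟨γ, hγ, hγ'⟩ := hc
  refine ⟨fun g => ψ g - r.em (γ g), ⟨Loc1.map2 hψ hγ (fun a b => a - r.em b), fun g g' => ?_⟩,
    fun g => ?_⟩
  · have h1 := h g g'
    rw [hγ' g g', map_add, map_sub] at h1
    change ψ (g * g') - r.em (γ (g * g')) = ψ g - r.em (γ g) + X.ρ' g (ψ g' - r.em (γ g'))
    rw [map_sub, act_em]
    have h2 : r.em ((1 : G →* AddMonoid.End (ZMod p)) g (γ g')) = r.em (γ g') := rfl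
    rw [h2] at h1
    have h3 : X.ρ' g (ψ g') = r.em (γ g') - r.em (γ (g * g')) + r.em (γ g) + ψ (g * g') - ψ g := by
      rw [← h1]
      abel
    rw [h3]
    abel
  · rw [map_sub, proj_em, sub_zero]

/-- CONN -/
theorem conn {ψ : G → X.M'} {c : G → G → ZMod p} (hψ : Loc1 ψ)
    (h : ∀ g h, X.ρ' g (ψ h) - ψ (g * h) + ψ g = r.em (c g h)) {q : X.M} (hq : r.π q = 1) :
    (fun g g' => X.b (X.ρ g q - q) (X.ρ' g (ψ g')) + jm k (c g g')) ∈ B2 (tw χ k) := by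
  refine ⟨fun g => X.b q (ψ g), Loc1.map hψ _, fun g g' => ?_⟩
  have h1 := congrArg (X.b q) (h g g')
  rw [r.b_em, hq, mul_one, map_add, map_sub] at h1
  change X.b (X.ρ g q - q) (X.ρ' g (ψ g')) + jm k (c g g') = _
  rw [← h1, map_sub, AddMonoidHom.sub_apply, X.eq]
  abel

end RD

/-- cup products of cocycles are cocycles -/
theorem cup_mem_Z2 {f : G → X.M} {f' : G → X.M'} (hf : f ∈ Z1 X.ρ) (hf' : f' ∈ Z1 X.ρ') :
    X.cup f f' ∈ Z2 (tw χ k) := by
  refine ⟨?_, fun g h l => ?_⟩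
  · exact Loc2.map2 (loc2_left hf.1) (loc2_act X.sm' hf'.1) (fun a b => X.b a b)
  · simp only [cup, hf.2, hf'.2, map_add, AddMonoidHom.add_apply, act_mul, ← X.eq]
    abel

/-- cup product with a coboundary on the left -/
theorem cup_B1_left {f : G → X.M} {f' : G → X.M'} (hf : f ∈ B1 X.ρ) (hf' : f' ∈ Z1 X.ρ') :
    X.cup f f' ∈ B2 (tw χ k) := by
  obtain ⟨x, hx⟩ := hf
  refine ⟨fun g => X.b x (f' g), Loc1.map hf'.1 _, fun g h => ?_⟩
  simp only [cup, hx, hf'.2, map_add, map_sub, AddMonoidHom.sub_apply, X.eq]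
  abel

/-- FLIP -/
theorem cup_flip {f : G → X.M} {f' : G → X.M'} (hf : f ∈ Z1 X.ρ) (hf' : f' ∈ Z1 X.ρ') :
    X.cup f f' + X.flip.cup f' f ∈ B2 (tw χ k) := by
  refine ⟨fun g => -X.b (f g) (f' g), Loc1.map2 hf.1 hf'.1 (fun a b => -X.b a b),
    fun g h => ?_⟩
  change X.b (f g) (X.ρ' g (f' h)) + X.b (X.ρ g (f h)) (f' g) = _
  simp only [hf.2, hf'.2, map_add, AddMonoidHom.add_apply, map_neg, ← X.eq]
  abel

/-- cup product with a coboundary on the right -/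
theorem cup_B1_right {f : G → X.M} {f' : G → X.M'} (hf : f ∈ Z1 X.ρ) (hf' : f' ∈ B1 X.ρ') :
    X.cup f f' ∈ B2 (tw χ k) := by
  obtain ⟨x, hx⟩ := hf'
  refine ⟨fun g => -X.b (f g) (X.ρ' g x), ?_, fun g h => ?_⟩
  · exact Loc1.map2 hf.1 (loc1_act X.sm' x) (fun a b => -X.b a b)
  · simp only [cup, hx, hf.2, map_add, map_sub, map_neg, AddMonoidHom.add_apply, act_mul,
      ← X.eq]
    abel

theorem B1_le_Z1 {M : Type*} [AddCommGroup M] {ρ : G →* AddMonoid.End M} (hρ : Sm ρ) :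
    B1 ρ ≤ Z1 ρ := by
  rintro f ⟨x, hx⟩
  have h0 : f = fun g => ρ g x - x := funext hx
  refine ⟨?_, fun g h => ?_⟩
  · rw [h0]
    exact Loc1.map (loc1_act hρ x) (fun y => y - x)
  · rw [hx, hx, hx, act_mul, map_sub]
    abel

end Pr

end G

end BKND
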