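import Mathlib
import Pool.Agent.Lib.MP_7c08ba_nt.ND.Basic

set_option autoImplicit false
set_option linter.overlappingInstances false
set_option linter.unusedSectionVars false

/-!
Module A: nondegeneracy of the cup product on `H¹` of finite modules.
-/

noncomputable section

namespace BKND

open BKPar (Loc1 Loc2)

universe u

namespace A

variable {p : ℕ} [hp : Fact p.Prime] {G : Type u} [Group G] [TopologicalSpace G]
  [IsTopologicalGroup G] [CompactSpace G] [NonarchimedeanGroup G] {χ : G →* ℤ_[p]ˣ} {m k : ℕ}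

theorem loc1_nsmul {M : Type*} [AddCommGroup M] {f : G → M} (n : ℕ) (hf : Loc1 f) :
    Loc1 fun g => n • f g := Loc1.map hf _

theorem zmod_smul {M : Type*} [AddCommGroup M] (a : ZMod p) (c : G → G → ZMod p) :
    (fun g g' => jm k ((a • c) g g')) = a.val • fun g g' => jm k (c g g') := by
  funext g g'
  change jm k (a * c g g') = a.val • jm k (c g g')
  rw [jm_mul]

theorem main (D : Dat p G χ m) (n : ℕ) : ∀ X : Pr p G χ k, Nat.card X.M = n →
    ∀ f ∈ Z1 X.ρ, (∀ f' ∈ Z1 X.ρ', X.cup f f' ∈ B2 (tw χ k)) → f ∈ B1 X.ρ := by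
  induction n using Nat.strong_induction_on with
  | _ n ih =>
  intro X hX f hf hcup
  rcases subsingleton_or_nontrivial X.M' with hM' | hM'
  · refine ⟨0, fun g => ?_⟩
    rw [map_zero, sub_zero]
    refine X.left _ fun m' => ?_
    rw [Subsingleton.elim m' 0, map_zero]
  obtain ⟨r⟩ := X.exists_RD D hM'
  have hk := r.hk
  -- the projection of `f` is zero
  have h1 : ∀ g, r.π (f g) = 0 := by
    by_contra h
    push Not at h
    obtain ⟨g₀, hg₀⟩ := h
    obtain ⟨c, hc, hc'⟩ := D.nondeg _ (r.π_mem_Z1 hf) (fun h0 => hg₀ (congrFun h0 g₀))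
    apply hc'
    apply inj1 D hk
    refine Eq.subst ?_ (hcup _ (r.em_mem_Z1 hc))
    funext g g'
    change X.b (f g) (X.ρ' g (r.em (c g'))) = jm k (r.π (f g) * c g')
    rw [r.act_em, r.b_em, mul_comm]
  obtain ⟨fN, hfN, hfN'⟩ := r.exists_Z1_red hf h1
  have hlt : Nat.card r.red.M < n := hX ▸ r.card_red_lt
  -- cup products with liftable cocycles
  have h2 : ∀ n' ∈ Z1 r.red.ρ', (∃ f' ∈ Z1 X.ρ', ∀ g, r.proj (f' g) = n' g) →
      r.red.cup fN n' ∈ B2 (tw χ k) := by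
    rintro n' hn' ⟨f', hf', hf''⟩
    have e : n' = fun g => r.proj (f' g) := funext fun g => (hf'' g).symm
    rw [e, r.red_cup]
    have e2 : (fun g => r.incl (fN g)) = f := funext hfN'
    rw [e2]
    exact hcup f' hf'
  by_cases hall : ∀ n' ∈ Z1 r.red.ρ', r.red.cup fN n' ∈ B2 (tw χ k)
  · obtain ⟨x, hx⟩ := ih _ hlt r.red rfl fN hfN hall
    refine ⟨r.incl x, fun g => ?_⟩
    rw [← hfN' g, hx g, map_sub, r.incl_act]
  push Not at hall
  obtain ⟨n₀, hn₀, hn₀'⟩ := hall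
  obtain ⟨ψ₀, c₀, hψ₀, hψ₀', hc₀⟩ := r.exists_conn hn₀
  have hc₀Z := r.conn_mem_Z2 hψ₀ hc₀
  have hc₀B : c₀ ∉ B2 (1 : G →* AddMonoid.End (ZMod p)) := by
    intro h
    obtain ⟨f', hf', hf''⟩ := r.exists_of_conn hψ₀ hc₀ h
    exact hn₀' (h2 n₀ hn₀ ⟨f', hf', fun g => by rw [hf'' g, hψ₀' g]⟩)
  -- the class `w` is killed by `p`
  have hwZ := r.red.cup_mem_Z2 hfN hn₀
  have hpw : p • r.red.cup fN n₀ ∈ B2 (tw χ k) := by
    have e : p • r.red.cup fN n₀ = r.red.cup fN (p • n₀) := by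
      funext g g'
      simp only [Pr.cup, Pi.smul_apply, map_nsmul]
    rw [e]
    apply h2 _ (nsmul_mem hn₀ p)
    refine ⟨fun g => p • ψ₀ g, ⟨Loc1.map hψ₀ _, fun g g' => ?_⟩, fun g => ?_⟩
    · have h3 := congrArg (fun y => p • y) (hc₀ g g')
      have h4 : p • r.em (c₀ g g') = 0 := by
        rw [← map_nsmul, nsmul_eq_mul, CharP.cast_eq_zero, zero_mul, map_zero]
      simp only [h4, smul_add, smul_sub] at h3
      change p • ψ₀ (g * g') = p • ψ₀ g + X.ρ' g (p • ψ₀ g')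
      rw [map_nsmul]
      have h5 : p • ψ₀ (g * g') = p • X.ρ' g (ψ₀ g') + p • ψ₀ g - 0 := by
        rw [← h3]
        abel
      rw [h5]
      abel
    · rw [map_nsmul, hψ₀' g]
      rfl
  obtain ⟨z, hz, hz'⟩ := inj2 D hk hwZ hpw
  obtain ⟨a₁, ha₁⟩ := D.line c₀ hc₀Z hc₀B z hz
  -- `w ~ a₁ jm c₀`
  have hw : r.red.cup fN n₀ - a₁.val • (fun g g' => jm k (c₀ g g')) ∈ B2 (tw χ k) := by
    have h3 := jm_mem_B2 D hk ha₁
    have h4 := add_mem hz' h3
    refine Eq.subst ?_ h4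
    rw [← zmod_smul (M := ZMod p)]
    funext g g'
    simp only [Pi.add_apply, Pi.sub_apply, map_sub]
    abel
  obtain ⟨q, hq⟩ := r.π_surjective 1
  -- the cocycle `f₁`
  have hf₁ : (fun g => X.ρ g q - q) ∈ Z1 X.ρ := Pr.B1_le_Z1 X.sm ⟨q, fun g => rfl⟩
  obtain ⟨f₁, hf₁Z, hf₁'⟩ := r.exists_Z1_red hf₁ (fun g => by
    rw [map_sub, r.π_inv, sub_self])
  have hF : ∀ n' ∈ Z1 r.red.ρ', r.red.cup (fN + a₁.val • f₁) n' ∈ B2 (tw χ k) := by
    intro n' hn'
    obtain ⟨ψ, c, hψ, hψ', hc⟩ := r.exists_conn hn'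
    have hcZ := r.conn_mem_Z2 hψ hc
    obtain ⟨a, ha⟩ := D.line c₀ hc₀Z hc₀B c hcZ
    -- `n' - a n₀` lifts
    have h3 : r.red.cup fN (n' - a.val • n₀) ∈ B2 (tw χ k) := by
      apply h2 _ (sub_mem hn' (nsmul_mem hn₀ _))
      obtain ⟨f', hf', hf''⟩ := r.exists_of_conn (ψ := fun g => ψ g - a.val • ψ₀ g)
        (c := c - a • c₀) (Loc1.map2 hψ hψ₀ (fun x y => x - a.val • y)) (fun g g' => by
          have e : r.em ((c - a • c₀) g g') = r.em (c g g') - a.val • r.em (c₀ g g') := by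
            rw [← map_nsmul, ← map_sub, nsmul_eq_mul, ZMod.natCast_zmod_val]
            rfl
          rw [e, ← hc, ← hc₀, map_sub, map_nsmul, smul_add, smul_sub]
          abel) ha
      refine ⟨f', hf', fun g => ?_⟩
      rw [hf'' g, map_sub, map_nsmul, hψ', hψ₀']
      rfl
    -- CONN for `n'`
    have h4 := r.conn hψ hc hq
    have h5 : (fun g g' => X.b (X.ρ g q - q) (X.ρ' g (ψ g'))) = r.red.cup f₁ n' := by
      have e : n' = fun g => r.proj (ψ g) := funext fun g => (hψ' g).symm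
      rw [e, r.red_cup]
      funext g g'
      rw [Pr.cup, hf₁' g]
    have h6 : r.red.cup f₁ n' + (fun g g' => jm k (c g g')) ∈ B2 (tw χ k) := by
      rw [← h5]
      exact h4
    have h7 := jm_mem_B2 D hk ha
    have h8 : r.red.cup f₁ n' + a.val • (fun g g' => jm k (c₀ g g')) ∈ B2 (tw χ k) := by
      refine Eq.subst ?_ (sub_mem h6 h7)
      rw [← zmod_smul (M := ZMod p)]
      funext g g'
      simp only [Pi.add_apply, Pi.sub_apply, map_sub]
      abel
    have h9 := add_mem (add_mem h3 (nsmul_mem hw a.val)) (nsmul_mem h8 a₁.val)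
    refine Eq.subst ?_ h9
    funext g g'
    simp only [Pr.cup, Pi.add_apply, Pi.sub_apply, Pi.smul_apply, map_add, map_sub, map_nsmul,
      AddMonoidHom.add_apply, AddMonoidHom.nsmul_apply, smul_add, smul_sub]
    rw [smul_comm a₁.val a.val]
    abel
  obtain ⟨x, hx⟩ := ih _ hlt r.red rfl _ (add_mem hfN (nsmul_mem hf₁Z a₁.val)) hF
  refine ⟨r.incl x - a₁.val • q, fun g => ?_⟩
  have h3 := congrArg r.incl (hx g)
  simp only [Pi.add_apply, Pi.smul_apply, map_add, map_sub, map_nsmul, hfN', hf₁',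
    r.incl_act] at h3
  rw [map_sub, map_nsmul]
  have h4 : f g = X.ρ g (r.incl x) - r.incl x - a₁.val • (X.ρ g q - q) := by
    rw [← h3]
    abel
  rw [h4, smul_sub]
  abel

end A

theorem stA : StA.{u} := by
  intro p _ G _ _ _ _ _ χ m D k X f hf h
  exact A.main D _ X rfl f hf h

end BKND
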