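import Mathlib
import Pool.Agent.Lib.MP_7c08ba_nt.ND.Basic

set_option autoImplicit false
set_option linter.overlappingInstances false
set_option linter.unusedSectionVars false

/-!
Module B: `H²(M)` injects into the dual of `H⁰(M')`.
-/

noncomputable section

namespace BKND

open BKPar (Loc1 Loc2)

universe u

namespace B

variable {p : ℕ} [hp : Fact p.Prime] {G : Type u} [Group G] [TopologicalSpace G]
  [IsTopologicalGroup G] [CompactSpace G] [NonarchimedeanGroup G] {χ : G →* ℤ_[p]ˣ} {m k : ℕ}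

theorem loc2_map {X Y : Type*} {f : G → G → X} (hf : Loc2 f) (F : X → Y) :
    Loc2 fun g h => F (f g h) := by
  obtain ⟨W, hW, h⟩ := hf
  exact ⟨W, hW, fun g g' w hw w' hw' => congrArg F (h g g' w hw w' hw')⟩

theorem em_mem_B2 {X : Pr p G χ k} (r : X.RD) {w : G → G → ZMod p}
    (hw : w ∈ B2 (1 : G →* AddMonoid.End (ZMod p))) :
    (fun g h => r.em (w g h)) ∈ B2 X.ρ' := by
  obtain ⟨γ, hγ, hγ'⟩ := hw
  refine ⟨fun g => r.em (γ g), Loc1.map hγ _, fun g h => ?_⟩
  have h1 : w g h = γ h - γ (g * h) + γ g := hγ' g h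
  change r.em (w g h) = X.ρ' g (r.em (γ h)) - r.em (γ (g * h)) + r.em (γ g)
  rw [h1, map_add, map_sub, r.act_em]

theorem main (hA : StA.{u}) (D : Dat p G χ m) (n : ℕ) : ∀ X : Pr p G χ k, Nat.card X.M = n →
    ∀ z ∈ Z2 X.ρ', (∀ x ∈ H0 X.ρ, (fun g h => X.b x (z g h)) ∈ B2 (tw χ k)) →
      z ∈ B2 X.ρ' := by
  induction n using Nat.strong_induction_on with
  | _ n ih =>
  intro X hX z hz hz'
  rcases subsingleton_or_nontrivial X.M' with hM' | hM'
  · exact ⟨fun _ => 0, Loc1.const 0, fun g h => Subsingleton.elim _ _⟩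
  obtain ⟨r⟩ := X.exists_RD D hM'
  have hk := r.hk
  have hlt : Nat.card r.red.M < n := hX ▸ r.card_red_lt
  -- the projection of `z`
  have hzp : (fun g h => r.proj (z g h)) ∈ Z2 r.red.ρ' := by
    refine ⟨loc2_map hz.1 _, fun g h l => ?_⟩
    have h1 := congrArg r.proj (hz.2 g h l)
    rw [map_sub, map_add, map_sub, r.proj_act, map_zero] at h1
    exact h1
  have h1 := ih _ hlt r.red rfl _ hzp (fun x hx => by
    have h2 : r.incl x ∈ H0 X.ρ := fun g => by
      rw [← r.incl_act]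
      exact congrArg r.incl (hx g)
    exact hz' _ h2)
  obtain ⟨β, hβ, hβ'⟩ := h1
  choose s hs using r.proj_surjective
  have h2 : ∀ g h, ∃ a, z g h = (X.ρ' g (s (β h)) - s (β (g * h)) + s (β g)) + r.em a := by
    intro g h
    apply r.exists_em_of_proj_eq
    rw [map_add, map_sub, r.proj_act, hs, hs, hs]
    exact hβ' g h
  choose z₁ hz₁ using h2
  have hB : (fun g h => X.ρ' g (s (β h)) - s (β (g * h)) + s (β g)) ∈ B2 X.ρ' :=
    ⟨fun g => s (β g), Loc1.map hβ s, fun g h => rfl⟩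
  have hem : (fun g h => r.em (z₁ g h)) ∈ Z2 X.ρ' := by
    have e : (fun g h => r.em (z₁ g h)) =
        z - fun g h => X.ρ' g (s (β h)) - s (β (g * h)) + s (β g) := by
      funext g h
      rw [Pi.sub_apply, Pi.sub_apply, hz₁ g h]
      abel
    rw [e]
    exact sub_mem hz (B2_le_Z2 X.sm' hB)
  have hz₁Z : z₁ ∈ Z2 (1 : G →* AddMonoid.End (ZMod p)) := by
    refine ⟨loc2_of_injective r.em_injective hem.1, fun g g' g'' => ?_⟩
    have h2 := hem.2 g g' g''
    simp only [r.act_em] at h2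
    rw [← map_sub, ← map_add, ← map_sub] at h2
    exact (injective_iff_map_eq_zero r.em).1 r.em_injective _ h2
  suffices hgoal : (fun g h => r.em (z₁ g h)) ∈ B2 X.ρ' by
    have e : z = (fun g h => X.ρ' g (s (β h)) - s (β (g * h)) + s (β g)) +
        fun g h => r.em (z₁ g h) := by
      funext g h
      exact hz₁ g h
    rw [e]
    exact add_mem hB hgoal
  by_cases hcase : ∃ x ∈ H0 X.ρ, r.π x ≠ 0
  · obtain ⟨x, hx, hπx⟩ := hcase
    apply em_mem_B2
    have h3 : (fun g h => X.b x (X.ρ' g (s (β h)) - s (β (g * h)) + s (β g))) ∈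
        B2 (tw χ k) := by
      refine ⟨fun g => X.b x (s (β g)), Loc1.map hβ (fun y => X.b x (s y)), fun g h => ?_⟩
      have h4 := X.eq g x (s (β h))
      rw [hx g] at h4
      change X.b x (X.ρ' g (s (β h)) - s (β (g * h)) + s (β g)) =
        tw χ k g (X.b x (s (β h))) - X.b x (s (β (g * h))) + X.b x (s (β g))
      rw [map_add, map_sub, h4]
    have h5 : (fun g h => jm k ((r.π x • z₁) g h)) ∈ B2 (tw χ k) := by
      refine Eq.subst ?_ (sub_mem (hz' x hx) h3)
      funext g h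
      change X.b x (z g h) - X.b x (X.ρ' g (s (β h)) - s (β (g * h)) + s (β g)) =
        jm k (r.π x * z₁ g h)
      rw [hz₁ g h, map_add (X.b x) _ (r.em (z₁ g h)), r.b_em, mul_comm (r.π x), add_sub_cancel_left]
    obtain ⟨γ, hγ, hγ'⟩ := inj1 D hk h5
    refine ⟨fun g => (r.π x)⁻¹ * γ g, Loc1.map hγ _, fun g h => ?_⟩
    have h7 : r.π x * z₁ g h = γ h - γ (g * h) + γ g := hγ' g h
    change z₁ g h = (r.π x)⁻¹ * γ h - (r.π x)⁻¹ * γ (g * h) + (r.π x)⁻¹ * γ g
    rw [← mul_sub, ← mul_add, ← h7, inv_mul_cancel_left₀ hπx]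
  · push Not at hcase
    obtain ⟨q, hq⟩ := r.π_surjective 1
    have hf₁ : (fun g => X.ρ g q - q) ∈ Z1 X.ρ := Pr.B1_le_Z1 X.sm ⟨q, fun g => rfl⟩
    obtain ⟨f₁, hf₁Z, hf₁'⟩ := r.exists_Z1_red hf₁ (fun g => by
      rw [map_sub, r.π_inv, sub_self])
    have hf₁B : f₁ ∉ B1 r.red.ρ := by
      rintro ⟨x, hx⟩
      have h3 : q - r.incl x ∈ H0 X.ρ := fun g => by
        have h4 := congrArg r.incl (hx g)
        rw [hf₁', map_sub, r.incl_act] at h4
        have h5 : X.ρ g q = X.ρ g (r.incl x) - r.incl x + q := by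
          rw [← h4]
          abel
        rw [map_sub, h5]
        abel
      have h5 := hcase _ h3
      rw [map_sub, hq, r.π_incl, sub_zero] at h5
      exact one_ne_zero h5
    have h3 : ∃ n' ∈ Z1 r.red.ρ', r.red.cup f₁ n' ∉ B2 (tw χ k) := by
      by_contra h
      push Not at h
      exact hf₁B (hA p G χ m D k r.red f₁ hf₁Z h)
    obtain ⟨n', hn', hn''⟩ := h3
    obtain ⟨ψ, c, hψ, hψ', hc⟩ := r.exists_conn hn'
    have hcZ := r.conn_mem_Z2 hψ hc
    have h4 := r.conn hψ hc hq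
    have hcB : c ∉ B2 (1 : G →* AddMonoid.End (ZMod p)) := by
      intro h
      apply hn''
      have h5 : (fun g g' => X.b (X.ρ g q - q) (X.ρ' g (ψ g'))) = r.red.cup f₁ n' := by
        have e : n' = fun g => r.proj (ψ g) := funext fun g => (hψ' g).symm
        rw [e, r.red_cup]
        funext g g'
        rw [Pr.cup, hf₁' g]
      rw [← h5]
      refine Eq.subst ?_ (sub_mem h4 (jm_mem_B2 D hk h))
      funext g g'
      exact add_sub_cancel_right _ _
    obtain ⟨a, ha⟩ := D.line c hcZ hcB z₁ hz₁Z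
    have h5 := em_mem_B2 r ha
    have h6 : (fun g h => r.em (c g h)) ∈ B2 X.ρ' := ⟨ψ, hψ, fun g h => (hc g h).symm⟩
    refine Eq.subst ?_ (add_mem h5 (nsmul_mem h6 a.val))
    funext g g'
    change r.em (z₁ g g' - a * c g g') + a.val • r.em (c g g') = r.em (z₁ g g')
    rw [← map_nsmul, ← map_add, nsmul_eq_mul, ZMod.natCast_zmod_val, sub_add_cancel]

end B

theorem stB (hA : StA.{u}) : StB.{u} := by
  intro p _ G _ _ _ _ _ χ m D k X z hz h
  exact B.main hA D _ X.flip rfl z hz h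

end BKND
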