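import Mathlib
import Pool.Agent.Lib.MP_7c08ba_nt.ND.Stmts
import Pool.Agent.Lib.MP_7c08ba_nt.Gen.ProP

set_option autoImplicit false
set_option linter.overlappingInstances false

/-!
Module DG: from the quotient `G = D / K` to `D`, when the homomorphisms to `ℤ/p` of the open
subgroups containing `K` are trivial on `K`.
-/

noncomputable section

namespace BKND

open BKPar (Loc1 Loc2)
open Matrix Polynomial

universe u

namespace DG

section Kill

variable {p : ℕ} [Fact p.Prime] {D : Type*} [Group D] [TopologicalSpace D] [IsTopologicalGroup D]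
  [CompactSpace D]

/-- homomorphisms to `ℤ/p` of open subgroups containing `K` are trivial on `K` -/
def KH (p : ℕ) [Fact p.Prime] (K : Subgroup D) : Prop :=
  ∀ U : Subgroup D, IsOpen (U : Set D) → K ≤ U →
    ∀ f ∈ Z1 (1 : U →* AddMonoid.End (ZMod p)), ∀ (x : D) (hx : x ∈ U), x ∈ K → f ⟨x, hx⟩ = 0

/-- `K` is contained in the open normal subgroups with `p`-group quotient -/
theorem le_of_isPGroup {K : Subgroup D} (hK : KH p K) (N : Subgroup D) (hNn : N.Normal)
    (hNo : IsOpen (N : Set D)) (hpg : IsPGroup p (D ⧸ N)) : K ≤ N := by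
  intro x₀ hx₀K
  by_contra hx₀N
  have hfin : Finite (D ⧸ N) := N.quotient_finite_of_isOpen hNo
  let Kb : Subgroup (D ⧸ N) := K.map (QuotientGroup.mk' N)
  have hKb : IsPGroup p Kb := hpg.to_subgroup Kb
  have hbot : (⊥ : Subgroup Kb) ≠ ⊤ := by
    intro h
    have h1 : (⟨QuotientGroup.mk' N x₀, ⟨x₀, hx₀K, rfl⟩⟩ : Kb) ∈ (⊥ : Subgroup Kb) := by
      rw [h]; trivial
    rw [Subgroup.mem_bot] at h1
    have h3 : QuotientGroup.mk' N x₀ = 1 := congrArg Subtype.val h1
    exact hx₀N ((QuotientGroup.eq_one_iff x₀).mp h3)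
  obtain ⟨S, hSn, hSi, -⟩ := BKGen.exists_normal_index hKb ⊥ hbot
  -- the open subgroup
  let U₀ : Subgroup D := Kb.comap (QuotientGroup.mk' N)
  have hNU₀ : N ≤ U₀ := by
    intro d hd
    change QuotientGroup.mk' N d ∈ Kb
    have : QuotientGroup.mk' N d = 1 := (QuotientGroup.eq_one_iff d).mpr hd
    rw [this]
    exact Kb.one_mem
  have hU₀o : IsOpen (U₀ : Set D) := Subgroup.isOpen_mono hNU₀ hNo
  have hKU₀ : K ≤ U₀ := fun d hd => ⟨d, hd, rfl⟩
  -- the homomorphism
  let ψ : U₀ →* Kb :=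
    { toFun := fun x => ⟨QuotientGroup.mk' N x.1, x.2⟩
      map_one' := Subtype.ext (map_one (QuotientGroup.mk' N))
      map_mul' := fun a b => Subtype.ext (map_mul (QuotientGroup.mk' N) a.1 b.1) }
  have hc1 : Nat.card (Kb ⧸ S) = p := hSi
  have hc2 : Nat.card (Multiplicative (ZMod p)) = p := Nat.card_zmod p
  let e : (Kb ⧸ S) ≃* Multiplicative (ZMod p) := mulEquivOfPrimeCardEq hc1 hc2
  let f : U₀ → ZMod p := fun x => Multiplicative.toAdd (e (QuotientGroup.mk' S (ψ x)))
  have hf : f ∈ Z1 (1 : U₀ →* AddMonoid.End (ZMod p)) := by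
    refine ⟨⟨N.comap U₀.subtype, hNo.preimage continuous_subtype_val, ?_⟩, ?_⟩
    · intro g w hw
      have hw' : ψ w = 1 := Subtype.ext ((QuotientGroup.eq_one_iff _).mpr hw)
      change Multiplicative.toAdd (e (QuotientGroup.mk' S (ψ (g * w)))) =
        Multiplicative.toAdd (e (QuotientGroup.mk' S (ψ g)))
      rw [map_mul, hw', mul_one]
    · intro a b
      change Multiplicative.toAdd (e (QuotientGroup.mk' S (ψ (a * b)))) =
        Multiplicative.toAdd (e (QuotientGroup.mk' S (ψ a))) +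
          Multiplicative.toAdd (e (QuotientGroup.mk' S (ψ b)))
      rw [map_mul, map_mul, map_mul, toAdd_mul]
  -- an element of the complement of `S`
  have hStop : S ≠ ⊤ := by
    intro h
    rw [h, Subgroup.index_top] at hSi
    exact (Fact.out : p.Prime).one_lt.ne hSi
  obtain ⟨s, hs⟩ : ∃ s, s ∉ S := by
    by_contra hcon
    push Not at hcon
    exact hStop ((Subgroup.eq_top_iff' S).mpr hcon)
  obtain ⟨q, k, hk, rfl⟩ := s
  have h1 := hK U₀ hU₀o hKU₀ f hf k (hKU₀ hk) hk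
  apply hs
  have h2 : e (QuotientGroup.mk' S (ψ ⟨k, hKU₀ hk⟩)) = 1 := Multiplicative.toAdd.injective h1
  have h3 : QuotientGroup.mk' S (ψ ⟨k, hKU₀ hk⟩) = 1 := (map_eq_one_iff e e.injective).mp h2
  exact (QuotientGroup.eq_one_iff _).mp h3

/-- residually unipotent representations are trivial on `K` -/
theorem rep_trivial {K : Subgroup D} (hK : KH p K) {L : Type*} [NormedField L]
    [IsUltrametricDist L] (hpL : ‖(p : L)‖ < 1) {ι : Type*} [Fintype ι] [DecidableEq ι]
    (M : D →* Matrix ι ι L) (hM : Continuous M)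
    (hu : ∀ σ i, ‖((M σ).charpoly - (X - 1) ^ Fintype.card ι).coeff i‖ < 1) {k : D}
    (hk : k ∈ K) : M k = 1 := by
  have key : ∀ r : ℝ, 0 < r → ∀ i j, ‖(M k - 1) i j‖ ≤ r := by
    intro r hr i j
    have hNn : (BKGen.near M r hr).Normal := BKGen.near_normal M r hr
    have hNo : IsOpen (BKGen.near M r hr : Set D) := BKGen.near_isOpen M hM r hr
    obtain ⟨C, hC1, hC⟩ := BKGen.exists_entry_bound M hM
    have hC0 : (0 : ℝ) ≤ C := zero_le_one.trans hC1
    have hBd1 : BKGen.Bd M 1 (C * 1 * C) := BKGen.bd_of_entries M hC0 hC 1 zero_le_one (by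
      intro i j
      by_cases h : i = j
      · subst h; simp
      · rw [Matrix.one_apply_ne h]; simp)
    have hpg : IsPGroup p (D ⧸ BKGen.near M r hr) := by
      rw [isPGroup_iff_pow_pow_eq_one]
      intro x
      obtain ⟨σ, rfl⟩ := QuotientGroup.mk'_surjective _ x
      obtain ⟨k, hk⟩ := BKGen.Bd.pow_sub_one (Fact.out : p.Prime) hpL hBd1
        (by positivity) σ (hu σ) hr
      refine ⟨k, ?_⟩
      rw [← map_pow]
      refine (QuotientGroup.eq_one_iff _).mpr ?_
      change BKGen.Bd M (M (σ ^ p ^ k) - 1) r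
      rw [map_pow]
      exact hk
    have h1 : BKGen.Bd M (M k - 1) r := le_of_isPGroup hK _ hNn hNo hpg hk
    have h3 := h1 1 1 i j
    rwa [map_one, Matrix.mul_one, Matrix.one_mul] at h3
  have h4 : M k - 1 = 0 := by
    ext i j
    have h5 : ‖(M k - 1) i j‖ ≤ 0 := le_of_forall_pos_le_add fun r hr => by
      rw [zero_add]; exact key r hr i j
    exact norm_le_zero_iff.mp h5
  exact sub_eq_zero.mp h4

end Kill

section Poly

variable {L : Type*} [NormedField L] [IsUltrametricDist L]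

/-- polynomials with small coefficients -/
def Sml (P : L[X]) : Prop := ∀ i, ‖P.coeff i‖ < 1

theorem Sml.add {P Q : L[X]} (hP : Sml P) (hQ : Sml Q) : Sml (P + Q) := by
  intro i
  rw [coeff_add]
  exact (IsUltrametricDist.norm_add_le_max _ _).trans_lt (max_lt (hP i) (hQ i))

omit [IsUltrametricDist L] in
theorem Sml.C_mul {P : L[X]} (hP : Sml P) {a : L} (ha : ‖a‖ ≤ 1) : Sml (C a * P) := by
  intro i
  rw [coeff_C_mul, norm_mul]
  exact (mul_le_of_le_one_left (norm_nonneg _) ha).trans_lt (hP i)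

omit [IsUltrametricDist L] in
theorem Sml.X_mul {P : L[X]} (hP : Sml P) : Sml (X * P) := by
  intro i
  cases i with
  | zero =>
    rw [coeff_X_mul_zero, norm_zero]
    exact one_pos
  | succ i =>
    rw [coeff_X_mul]
    exact hP i

theorem Sml.X_sub_C_mul {P : L[X]} (hP : Sml P) {a : L} (ha : ‖a‖ ≤ 1) :
    Sml ((X - C a) * P) := by
  have h1 : (X - C a) * P = X * P + C (-a) * P := by
    rw [C_neg]
    ring
  rw [h1]
  exact hP.X_mul.add (hP.C_mul (by rwa [norm_neg]))

omit [IsUltrametricDist L] in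
theorem Sml.C {a : L} (ha : ‖a‖ < 1) : Sml (Polynomial.C a) := by
  intro i
  rw [coeff_C]
  by_cases h : i = 0
  · rw [if_pos h]
    exact ha
  · rw [if_neg h, norm_zero]
    exact one_pos

theorem Sml.C_mul_pow {a : L} (ha : ‖a‖ < 1) (m : ℕ) : Sml (Polynomial.C a * (X - 1) ^ m) := by
  induction m with
  | zero =>
    rw [pow_zero, mul_one]
    exact Sml.C ha
  | succ m ih =>
    have h1 : Polynomial.C a * (X - 1) ^ (m + 1) =
        (X - Polynomial.C 1) * (Polynomial.C a * (X - 1) ^ m) := by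
      rw [C_1]
      ring
    rw [h1]
    exact ih.X_sub_C_mul (by rw [norm_one])

/-- the characteristic polynomial of the large representation -/
theorem sml_big {n : ℕ} {Q : L[X]} (hQ : Sml (Q - (X - 1) ^ n)) {a : L} (ha : ‖a - 1‖ < 1) :
    Sml ((X - Polynomial.C a) * Q * (X - 1) - (X - 1) ^ (1 + n + 1)) := by
  have ha1 : ‖a‖ ≤ 1 := by
    have h1 : a = (a - 1) + 1 := by ring
    rw [h1]
    exact (IsUltrametricDist.norm_add_le_max _ _).trans (max_le ha.le (by rw [norm_one]))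
  have h1 : (X - Polynomial.C a) * Q * (X - 1) - (X - 1) ^ (1 + n + 1) =
      (X - Polynomial.C 1) * ((X - Polynomial.C a) * (Q - (X - 1) ^ n)) +
        Polynomial.C (1 - a) * (X - 1) ^ (n + 1) := by
    rw [C_sub, C_1]
    ring
  rw [h1]
  refine ((hQ.X_sub_C_mul ha1).X_sub_C_mul (by rw [norm_one])).add (Sml.C_mul_pow ?_ _)
  rw [← norm_neg, neg_sub]
  exact ha

end Poly

section Big

variable {D : Type*} [Group D] {L : Type*} [NormedField L] {n : ℕ}

/-- the large representation -/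
def big (a : D →* L) (ρ' : D →* Matrix (Fin n) (Fin n) L) (r y : D → Fin n → L) (β : D → L)
    (hr : ∀ g h, r (g * h) = a g • r h + r g ᵥ* ρ' h)
    (hy : ∀ g h, y (g * h) = y g + ρ' g *ᵥ y h)
    (hβ : ∀ g h, r g ⬝ᵥ y h = a g * β h - β (g * h) + β g) :
    D →* Matrix ((Unit ⊕ Fin n) ⊕ Unit) ((Unit ⊕ Fin n) ⊕ Unit) L where
  toFun g := Matrix.fromBlocks
    (Matrix.fromBlocks (Matrix.of fun _ _ => a g) (Matrix.of fun _ j => r g j) 0 (ρ' g))
    (Matrix.of fun i _ => Sum.elim (fun _ => - β g) (y g) i) 0 1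
  map_one' := by
    have hr1 : r 1 = 0 := by
      have h := hr 1 1
      rw [mul_one, map_one, map_one, Matrix.vecMul_one, one_smul] at h
      simpa using h
    have hy1 : y 1 = 0 := by
      have h := hy 1 1
      rw [mul_one, map_one, Matrix.one_mulVec] at h
      simpa using h
    have hβ1 : β 1 = 0 := by
      have h := hβ 1 1
      rw [mul_one, map_one, hr1, zero_dotProduct, one_mul, sub_self, zero_add] at h
      exact h.symm
    rw [map_one, map_one, hr1, hy1, hβ1]
    ext i j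
    rcases i with (i | i) | i <;> rcases j with (j | j) | j <;>
      simp [Matrix.one_apply, Sum.inl.injEq]
  map_mul' g h := by
    ext i j
    rcases i with (i | i) | i <;> rcases j with (j | j) | j
    · simp [Matrix.mul_apply, Fintype.sum_sum_type]
    · simp [Matrix.mul_apply, Fintype.sum_sum_type, hr g h, Matrix.vecMul, dotProduct]
    · have h1 := hβ g h
      simp [Matrix.mul_apply, Fintype.sum_sum_type]
      rw [dotProduct] at h1
      rw [h1]
      ring
    · simp [Matrix.mul_apply, Fintype.sum_sum_type]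
    · simp [Matrix.mul_apply, Fintype.sum_sum_type]
    · simp [Matrix.mul_apply, Fintype.sum_sum_type, hy g h, Matrix.mulVec, dotProduct, add_comm]
    · simp [Matrix.mul_apply, Fintype.sum_sum_type]
    · simp [Matrix.mul_apply, Fintype.sum_sum_type]
    · simp [Matrix.mul_apply, Fintype.sum_sum_type]

end Big

section Triv

variable {p : ℕ} [Fact p.Prime] {D : Type*} [Group D] [TopologicalSpace D] [IsTopologicalGroup D]
  [CompactSpace D] {K : Subgroup D} {L : Type*} [NormedField L] [IsUltrametricDist L] {n : ℕ}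

/-- everything is trivial on `K` -/
theorem big_trivial (hK : KH p K) (hpL : ‖(p : L)‖ < 1)
    (a : D →* L) (ha : Continuous a) (ha1 : ∀ g, ‖a g - 1‖ < 1)
    (ρ' : D →* Matrix (Fin n) (Fin n) L) (hρ' : Continuous ρ')
    (hu : ∀ σ i, ‖((ρ' σ).charpoly - (X - 1) ^ n).coeff i‖ < 1)
    (r y : D → Fin n → L) (hrc : Continuous r) (hyc : Continuous y)
    (β : D → L) (hβc : Continuous β)
    (hr : ∀ g h, r (g * h) = a g • r h + r g ᵥ* ρ' h)
    (hy : ∀ g h, y (g * h) = y g + ρ' g *ᵥ y h)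
    (hβ : ∀ g h, r g ⬝ᵥ y h = a g * β h - β (g * h) + β g) {k : D} (hk : k ∈ K) :
    ρ' k = 1 ∧ y k = 0 ∧ β k = 0 := by
  have hM : Continuous (big a ρ' r y β hr hy hβ) := by
    change Continuous fun g => Matrix.fromBlocks
      (Matrix.fromBlocks (Matrix.of fun _ _ => a g) (Matrix.of fun _ j => r g j) 0 (ρ' g))
      (Matrix.of fun i _ => Sum.elim (fun _ => - β g) (y g) i) 0 1
    refine Continuous.matrix_fromBlocks (Continuous.matrix_fromBlocks ?_ ?_ continuous_const hρ')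
      ?_ continuous_const continuous_const
    · exact continuous_matrix fun _ _ => ha
    · exact continuous_matrix fun _ j => (continuous_apply j).comp hrc
    · refine continuous_matrix fun i _ => ?_
      rcases i with i | i
      · exact hβc.neg
      · exact (continuous_apply i).comp hyc
  have hMu : ∀ σ i, ‖((big a ρ' r y β hr hy hβ σ).charpoly -
      (X - 1) ^ Fintype.card ((Unit ⊕ Fin n) ⊕ Unit)).coeff i‖ < 1 := by
    intro σ
    have h1 : (big a ρ' r y β hr hy hβ σ).charpoly =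
        (X - Polynomial.C (a σ)) * (ρ' σ).charpoly * (X - 1) := by
      change (Matrix.fromBlocks
        (Matrix.fromBlocks (Matrix.of fun _ _ => a σ) (Matrix.of fun _ j => r σ j) 0 (ρ' σ))
        (Matrix.of fun i _ => Sum.elim (fun _ => - β σ) (y σ) i) 0 1).charpoly = _
      rw [Matrix.charpoly_fromBlocks_zero₂₁, Matrix.charpoly_fromBlocks_zero₂₁,
        Matrix.charpoly_one]
      congr 1
      · congr 1
        rw [Matrix.charpoly, Matrix.det_unique, Matrix.charmatrix_apply_eq]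
        rfl
      · simp
    have h2 : Fintype.card ((Unit ⊕ Fin n) ⊕ Unit) = 1 + n + 1 := by
      simp only [Fintype.card_sum, Fintype.card_fin, Fintype.card_unit]
    rw [h1, h2]
    exact sml_big (hu σ) (ha1 σ)
  have h1 := rep_trivial hK hpL (big a ρ' r y β hr hy hβ) hM hMu hk
  refine ⟨?_, ?_, ?_⟩
  · ext i j
    have h2 : (big a ρ' r y β hr hy hβ k) (Sum.inl (Sum.inr i)) (Sum.inl (Sum.inr j)) =
        (1 : Matrix ((Unit ⊕ Fin n) ⊕ Unit) ((Unit ⊕ Fin n) ⊕ Unit) L)
          (Sum.inl (Sum.inr i)) (Sum.inl (Sum.inr j)) := by rw [h1]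
    have h3 : (big a ρ' r y β hr hy hβ k) (Sum.inl (Sum.inr i)) (Sum.inl (Sum.inr j)) =
        ρ' k i j := rfl
    rw [← h3, h2]
    simp [Matrix.one_apply]
  · funext i
    have h2 : (big a ρ' r y β hr hy hβ k) (Sum.inl (Sum.inr i)) (Sum.inr ()) =
        (1 : Matrix ((Unit ⊕ Fin n) ⊕ Unit) ((Unit ⊕ Fin n) ⊕ Unit) L)
          (Sum.inl (Sum.inr i)) (Sum.inr ()) := by rw [h1]
    have h3 : (big a ρ' r y β hr hy hβ k) (Sum.inl (Sum.inr i)) (Sum.inr ()) = y k i := rfl
    rw [← h3, h2]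
    simp
  · have h2 : (big a ρ' r y β hr hy hβ k) (Sum.inl (Sum.inl ())) (Sum.inr ()) =
        (1 : Matrix ((Unit ⊕ Fin n) ⊕ Unit) ((Unit ⊕ Fin n) ⊕ Unit) L)
          (Sum.inl (Sum.inl ())) (Sum.inr ()) := by rw [h1]
    have h3 : (big a ρ' r y β hr hy hβ k) (Sum.inl (Sum.inl ())) (Sum.inr ()) = - β k := rfl
    rw [h3] at h2
    have h4 : - β k = 0 := by
      rw [h2]
      simp
    exact neg_eq_zero.mp h4

/-- representations and cocycles are trivial on `K` -/
theorem coc_trivial (hK : KH p K) (hpL : ‖(p : L)‖ < 1)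
    (ρ : D →* GL (Fin n) L) (hρ : Continuous ρ) (hu : BKPar.ResUni ρ)
    {x : D → Fin n → L} (hx : x ∈ BKPar.Z1 ρ) {k : D} (hk : k ∈ K) :
    ρ k = 1 ∧ x k = 0 := by
  obtain ⟨h1, h2, -⟩ := big_trivial hK hpL (1 : D →* L) continuous_const
    (fun g => by simp) ((Units.coeHom _).comp ρ) (Units.continuous_val.comp hρ) hu
    (fun _ => 0) x continuous_const hx.1 (fun _ => 0) continuous_const
    (fun g h => by simp) hx.2 (fun g h => by simp) hk
  exact ⟨Units.ext h1, h2⟩

end Triv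

section Desc

variable {D G : Type*} [Group D] [Group G] {φ : D →* G} (hs : Function.Surjective φ)

include hs in
/-- descent of functions -/
theorem desc_fun {Y : Type*} (f : D → Y) (h : ∀ d k, φ k = 1 → f (d * k) = f d) :
    ∃ f' : G → Y, ∀ d, f' (φ d) = f d := by
  choose s hs' using hs
  refine ⟨fun g => f (s g), fun d => ?_⟩
  have h1 := h d (d⁻¹ * s (φ d)) (by rw [map_mul, map_inv, hs', inv_mul_cancel])
  rwa [mul_inv_cancel_left] at h1

include hs in
/-- descent of homomorphisms -/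
theorem desc_hom {H : Type*} [Group H] (ρ : D →* H) (h : ∀ k, φ k = 1 → ρ k = 1) :
    ∃ ρ₁ : G →* H, ∀ d, ρ₁ (φ d) = ρ d := by
  obtain ⟨f, hf⟩ := desc_fun hs (fun d => ρ d) fun d k hk => by rw [map_mul, h k hk, mul_one]
  refine ⟨⟨⟨f, ?_⟩, ?_⟩, hf⟩
  · have h1 := hf 1
    rwa [map_one, map_one] at h1
  · intro a b
    obtain ⟨a, rfl⟩ := hs a
    obtain ⟨b, rfl⟩ := hs b
    change f (φ a * φ b) = f (φ a) * f (φ b)
    rw [← map_mul, hf, hf, hf, map_mul]

end Desc

theorem ultra {p : ℕ} [Fact p.Prime] (L : Type*) [NormedField L] [NormedAlgebra ℚ_[p] L] :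
    IsUltrametricDist L := by
  apply IsUltrametricDist.isUltrametricDist_of_forall_norm_natCast_le_one
  intro m
  have h1 : ((m : ℕ) : L) = algebraMap ℚ_[p] L ((m : ℕ) : ℚ_[p]) := by rw [map_natCast]
  rw [h1, norm_algebraMap', ← Int.cast_natCast]
  exact Padic.norm_int_le_one m

theorem norm_p_lt {p : ℕ} [Fact p.Prime] (L : Type*) [NormedField L] [NormedAlgebra ℚ_[p] L] :
    ‖(p : L)‖ < 1 := by
  have h1 : ((p : ℕ) : L) = algebraMap ℚ_[p] L ((p : ℕ) : ℚ_[p]) := by rw [map_natCast]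
  rw [h1, norm_algebraMap']
  exact Padic.norm_p_lt_one

end DG

open DG in
theorem stDG (hND : StND.{u}) : StDG.{u} := by
  intro p _ D _ _ _ _ _ G _ _ _ _ _ _ φ hφc hφs hkill χ m hdat L _ _ _ n ρ ρ' hρ hρ' hru hru'
    hdual hinv
  have hul : IsUltrametricDist L := ultra (p := p) L
  have hpL : ‖(p : L)‖ < 1 := norm_p_lt L
  have hK : KH p φ.ker := hkill
  have hq : Topology.IsQuotientMap φ := hφc.isClosedMap.isQuotientMap hφc hφs
  -- the representations
  have hρ1 : ∀ k, φ k = 1 → ρ k = 1 := fun k hk =>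
    (coc_trivial hK hpL ρ hρ hru (BKPar.Z1 ρ).zero_mem hk).1
  have hρ1' : ∀ k, φ k = 1 → ρ' k = 1 := fun k hk =>
    (coc_trivial hK hpL ρ' hρ' hru' (BKPar.Z1 ρ').zero_mem hk).1
  obtain ⟨ρG, hρG⟩ := desc_hom hφs ρ hρ1
  obtain ⟨ρG', hρG'⟩ := desc_hom hφs ρ' hρ1'
  have hρGc : Continuous ρG := by
    rw [hq.continuous_iff]
    have : (ρG : G → GL (Fin n) L) ∘ φ = ρ := funext hρG
    rw [this]
    exact hρ
  have hρGc' : Continuous ρG' := by
    rw [hq.continuous_iff]
    have : (ρG' : G → GL (Fin n) L) ∘ φ = ρ' := funext hρG'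
    rw [this]
    exact hρ'
  have hdG : ∀ g, (ρG g : Matrix (Fin n) (Fin n) L)ᵀ * (ρG' g : Matrix (Fin n) (Fin n) L) =
      chi χ L g • (1 : Matrix (Fin n) (Fin n) L) := by
    intro g
    obtain ⟨d, rfl⟩ := hφs g
    rw [hρG, hρG']
    exact hdual d
  have hiG : ∀ v : Fin n → L, (∀ g, (ρG' g : Matrix (Fin n) (Fin n) L) *ᵥ v = v) → v = 0 := by
    intro v hv
    apply hinv
    intro d
    have h1 := hv (φ d)
    rwa [hρG'] at h1
  obtain ⟨hfd, hfr, hcup⟩ := hND p G χ m hdat L n ρG ρG' hρGc hρGc' hdG hiG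
  -- pull back of cocycles
  have hpull : ∀ x ∈ BKPar.Z1 ρG, (fun d => x (φ d)) ∈ BKPar.Z1 ρ := by
    rintro x ⟨hx, hx'⟩
    refine ⟨hx.comp hφc, fun g h => ?_⟩
    change x (φ (g * h)) = x (φ g) + _
    rw [map_mul, hx', hρG]
  have hdesc : ∀ x ∈ BKPar.Z1 ρ, ∃ x₁ ∈ BKPar.Z1 ρG, ∀ d, x₁ (φ d) = x d := by
    intro x hx
    obtain ⟨x₁, hx₁⟩ := desc_fun hφs x fun d k hk => by
      rw [hx.2, (coc_trivial hK hpL ρ hρ hru hx hk).2, Matrix.mulVec_zero, add_zero]
    refine ⟨x₁, ⟨?_, ?_⟩, hx₁⟩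
    · rw [hq.continuous_iff]
      have : x₁ ∘ φ = x := funext hx₁
      rw [this]
      exact hx.1
    · intro a b
      obtain ⟨a, rfl⟩ := hφs a
      obtain ⟨b, rfl⟩ := hφs b
      rw [← map_mul, hx₁, hx₁, hx₁, hx.2, hρG]
  have hdesc' : ∀ x ∈ BKPar.Z1 ρ', ∃ x₁ ∈ BKPar.Z1 ρG', ∀ d, x₁ (φ d) = x d := by
    intro x hx
    obtain ⟨x₁, hx₁⟩ := desc_fun hφs x fun d k hk => by
      rw [hx.2, (coc_trivial hK hpL ρ' hρ' hru' hx hk).2, Matrix.mulVec_zero, add_zero]
    refine ⟨x₁, ⟨?_, ?_⟩, hx₁⟩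
    · rw [hq.continuous_iff]
      have : x₁ ∘ φ = x := funext hx₁
      rw [this]
      exact hx.1
    · intro a b
      obtain ⟨a, rfl⟩ := hφs a
      obtain ⟨b, rfl⟩ := hφs b
      rw [← map_mul, hx₁, hx₁, hx₁, hx.2, hρG']
  let F : BKPar.Z1 ρG →ₗ[L] BKPar.Z1 ρ :=
    { toFun := fun x => ⟨fun d => x.1 (φ d), hpull x.1 x.2⟩
      map_add' := fun x y => rfl
      map_smul' := fun c x => rfl }
  have hF : Function.Surjective F := by
    intro x
    obtain ⟨x₁, h1, h2⟩ := hdesc x.1 x.2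
    exact ⟨⟨x₁, h1⟩, Subtype.ext (funext h2)⟩
  refine ⟨Module.Finite.of_surjective F hF, ?_, ?_⟩
  · exact (LinearMap.finrank_le_finrank_of_surjective hF).trans hfr
  · intro y hy hyc
    obtain ⟨y₁, hy₁, hyφ⟩ := hdesc' y hy
    have hB : y₁ ∈ BKPar.B1 ρG' := by
      apply hcup y₁ hy₁
      intro x₁ hx₁
      obtain ⟨β, hβc, hβ⟩ := hyc _ (hpull x₁ hx₁)
      -- the character
      let a : D →* L :=
        { toFun := fun g => chi (χ.comp φ) L g
          map_one' := by
            change algebraMap ℚ_[p] L (((χ (φ 1) : ℤ_[p]ˣ) : ℤ_[p]) : ℚ_[p]) = 1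
            rw [map_one, map_one, Units.val_one, PadicInt.coe_one, map_one]
          map_mul' := fun g h => by
            change algebraMap ℚ_[p] L (((χ (φ (g * h)) : ℤ_[p]ˣ) : ℤ_[p]) : ℚ_[p]) =
              algebraMap ℚ_[p] L (((χ (φ g) : ℤ_[p]ˣ) : ℤ_[p]) : ℚ_[p]) *
              algebraMap ℚ_[p] L (((χ (φ h) : ℤ_[p]ˣ) : ℤ_[p]) : ℚ_[p])
            rw [map_mul, map_mul, Units.val_mul, PadicInt.coe_mul, map_mul] }
      have hac : Continuous a := by
        change Continuous fun g => algebraMap ℚ_[p] L (((χ (φ g) : ℤ_[p]ˣ) : ℤ_[p]) : ℚ_[p])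
        have h1 : Continuous fun g : D => ((χ (φ g) : ℤ_[p]ˣ) : ℤ_[p]) :=
          Units.continuous_val.comp (hdat.cont.comp hφc)
        exact (continuous_algebraMap ℚ_[p] L).comp (continuous_subtype_val.comp h1)
      have ha1 : ∀ g, ‖a g - 1‖ < 1 := by
        intro g
        have h1 : a g - 1 = algebraMap ℚ_[p] L
            ((((χ (φ g) : ℤ_[p]ˣ) : ℤ_[p]) - 1 : ℤ_[p]) : ℚ_[p]) := by
          rw [PadicInt.coe_sub, map_sub, PadicInt.coe_one, map_one]
          rfl
        rw [h1, norm_algebraMap', ← PadicInt.norm_def]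
        have h2 : ((χ (φ g) : ℤ_[p]ˣ) : ℤ_[p]) - 1 ∈ RingHom.ker (PadicInt.toZMod (p := p)) := by
          rw [RingHom.mem_ker, map_sub, hdat.one, map_one, sub_self]
        rw [PadicInt.ker_toZMod] at h2
        exact PadicInt.mem_nonunits.mp ((IsLocalRing.mem_maximalIdeal _).mp h2)
      have hβK : ∀ k, φ k = 1 → β k = 0 := by
        intro k hk
        have hx := hpull x₁ hx₁
        refine (big_trivial hK hpL a hac ha1 ((Units.coeHom _).comp ρ')
          (Units.continuous_val.comp hρ') hru' (fun g => x₁ (φ g) ᵥ* (ρ' g).val) y ?_ hy.1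
          β hβc ?_ hy.2 ?_ hk).2.2
        · exact Continuous.matrix_vecMul (hx₁.1.comp hφc) (Units.continuous_val.comp hρ')
        · intro g h
          have h1 : x₁ (φ (g * h)) = x₁ (φ g) + (ρ g).val *ᵥ x₁ (φ h) := hx.2 g h
          change x₁ (φ (g * h)) ᵥ* (ρ' (g * h)).val = a g • (x₁ (φ h) ᵥ* (ρ' h).val) +
            (x₁ (φ g) ᵥ* (ρ' g).val) ᵥ* (ρ' h).val
          rw [h1, Matrix.add_vecMul, map_mul, Units.val_mul, Matrix.vecMul_vecMul, add_comm]
          congr 1
          rw [← Matrix.vecMul_transpose, Matrix.vecMul_vecMul, ← Matrix.mul_assoc, hdual g,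
            Matrix.smul_mul, Matrix.one_mul, Matrix.vecMul_smul]
          rfl
        · intro g h
          have h1 : x₁ (φ g) ⬝ᵥ (ρ' g).val *ᵥ y h = a g * β h - β (g * h) + β g := hβ g h
          rw [Matrix.dotProduct_mulVec] at h1
          exact h1
      obtain ⟨β₁, hβ₁⟩ := desc_fun hφs β fun d k hk => by
        have h1 : x₁ (φ d) ⬝ᵥ (ρ' d).val *ᵥ y k = a d * β k - β (d * k) + β d := hβ d k
        have h2 : y k = 0 := (coc_trivial hK hpL ρ' hρ' hru' hy hk).2
        rw [h2, Matrix.mulVec_zero, dotProduct_zero, hβK k hk, mul_zero, zero_sub] at h1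
        have h3 : β (d * k) = β d := by
          linear_combination h1
        exact h3
      refine ⟨β₁, ?_, ?_⟩
      · rw [hq.continuous_iff]
        have : β₁ ∘ φ = β := funext hβ₁
        rw [this]
        exact hβc
      · intro g h
        obtain ⟨g, rfl⟩ := hφs g
        obtain ⟨h, rfl⟩ := hφs h
        change x₁ (φ g) ⬝ᵥ (ρG' (φ g)).val *ᵥ y₁ (φ h) =
          chi χ L (φ g) * β₁ (φ h) - β₁ (φ g * φ h) + β₁ (φ g)
        rw [← map_mul, hβ₁, hβ₁, hβ₁, hρG', hyφ]
        exact hβ g h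
    obtain ⟨v, hv⟩ := hB
    refine ⟨v, ?_⟩
    funext d
    have h1 := congrFun hv (φ d)
    rw [hyφ] at h1
    rw [← h1]
    change (ρ' d).val *ᵥ v - v = (ρG' (φ d)).val *ᵥ v - v
    rw [hρG']

end BKND
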