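import Pool.Agent.Lib.MP_7c08ba_nt.ND.Stmts
import Pool.Agent.Lib.MP_7c08ba_nt.ND.Red
import Pool.Agent.Lib.MP_7c08ba_nt.Par.Adm
import Pool.Agent.Lib.MP_7c08ba_nt.Par.Sq
import Pool.Agent.Lib.MP_7c08ba_nt.Par.Units
import Pool.Agent.Lib.MP_7c08ba_nt.Par.LocHom
import Pool.Agent.Lib.MP_7c08ba_nt.Par.LocSq
import Pool.Agent.Lib.MP_7c08ba_nt.Par.DR
import Pool.Agent.Lib.MP_7c08ba_nt.Par.Count
import Pool.Agent.Lib.MP_7c08ba_nt.Par.CycR
import Pool.Agent.Lib.MP_7c08ba_nt.Par.Cyc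
import Pool.Agent.Lib.MP_7c08ba_nt.Par.Shapiro
import Pool.Agent.Lib.MP_7c08ba_nt.Par.Gysin
import Pool.Agent.Lib.MP_7c08ba_nt.Par.Line

set_option autoImplicit false

/-!
Module DAT2: the data for the Galois group of the maximal `2`-extension of `ℚ(√-q)` unramified
outside `2`. The lifting of homomorphisms to cocycles with values in `ℤ_2(χ)` is given by systems of
roots of order `2 ^ n` of units outside `2`.
-/

noncomputable section

namespace BKND

open BKPar (Loc1 Loc2 IsTwoUnit)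
open Pool.Agent.Lib.MP_7c08ba_nt (AbsGal)

namespace Dat2

/-! ### Elements of `ℤ_p` -/

section Padic

variable {p : ℕ} [hp : Fact p.Prime]

lemma norm_le_of_toZModPow {x y : ℤ_[p]} {n : ℕ}
    (h : PadicInt.toZModPow n x = PadicInt.toZModPow n y) : ‖x - y‖ ≤ (p : ℝ) ^ (-(n : ℤ)) := by
  rw [PadicInt.norm_le_pow_iff_mem_span_pow, ← PadicInt.ker_toZModPow]
  change PadicInt.toZModPow n (x - y) = 0
  rw [map_sub, h, sub_self]

/-- elements of `ℤ_p` with given residues -/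
lemma exists_padic (a : ℕ → ℕ) (h : ∀ n, a (n + 1) ≡ a n [MOD p ^ (n + 1)]) :
    ∃ x : ℤ_[p], ∀ n, PadicInt.toZModPow (n + 1) x = (a n : ZMod (p ^ (n + 1))) := by
  have hp1 : (1 : ℝ) < p := by exact_mod_cast hp.out.one_lt
  have h1 : ∀ n k, a (n + k) ≡ a n [MOD p ^ (n + 1)] := by
    intro n k
    induction k with
    | zero => exact Nat.ModEq.refl _
    | succ k ih =>
      refine Nat.ModEq.trans ?_ ih
      exact (h (n + k)).of_dvd (pow_dvd_pow p (by omega))
  have h2 : CauchySeq (fun n => (a n : ℤ_[p])) := by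
    refine cauchySeq_of_le_geometric ((p : ℝ)⁻¹) 1 (inv_lt_one_of_one_lt₀ hp1) (fun n => ?_)
    rw [one_mul, dist_eq_norm]
    have h3 : ‖(a n : ℤ_[p]) - (a (n + 1) : ℤ_[p])‖ ≤ (p : ℝ) ^ (-(n : ℤ)) := by
      apply norm_le_of_toZModPow
      rw [map_natCast, map_natCast, ZMod.natCast_eq_natCast_iff]
      exact ((h n).of_dvd (pow_dvd_pow p (by omega))).symm
    rwa [zpow_neg, zpow_natCast, ← inv_pow] at h3
  obtain ⟨x, hx⟩ := cauchySeq_tendsto_of_complete h2
  refine ⟨x, fun n => ?_⟩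
  have h3 : IsClosed {y : ℤ_[p] | PadicInt.toZModPow (n + 1) y = (a n : ZMod (p ^ (n + 1)))} :=
    (Red.isLocallyConstant_toZModPow (p := p) (n + 1)).isClosed_fiber _
  refine h3.mem_of_tendsto hx ?_
  filter_upwards [Filter.eventually_ge_atTop n] with m hm
  obtain ⟨k, rfl⟩ := Nat.exists_eq_add_of_le hm
  rw [map_natCast, ZMod.natCast_eq_natCast_iff]
  exact h1 n k

/-- continuity of functions with locally constant reductions -/
lemma continuous_of_inv {G : Type*} [Group G] [TopologicalSpace G] [IsTopologicalGroup G]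
    {f : G → ℤ_[p]} (h : ∀ n : ℕ, ∃ W : Subgroup G, IsOpen (W : Set G) ∧ ∀ g, ∀ w ∈ W,
      PadicInt.toZModPow (n + 1) (f (g * w)) = PadicInt.toZModPow (n + 1) (f g)) :
    Continuous f := by
  have hp1 : (1 : ℝ) < p := by exact_mod_cast hp.out.one_lt
  rw [continuous_iff_continuousAt]
  intro g
  rw [Metric.continuousAt_iff']
  intro ε hε
  obtain ⟨n, hn⟩ := exists_pow_lt_of_lt_one hε (inv_lt_one_of_one_lt₀ hp1)
  obtain ⟨W, hW, hW'⟩ := h n
  have h1 : (fun x => g⁻¹ * x) ⁻¹' (W : Set G) ∈ nhds g := by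
    refine (hW.preimage (by fun_prop)).mem_nhds ?_
    change g⁻¹ * g ∈ W
    rw [inv_mul_cancel]
    exact W.one_mem
  filter_upwards [h1] with x hx
  have h2 := hW' g (g⁻¹ * x) hx
  rw [mul_inv_cancel_left] at h2
  rw [dist_eq_norm]
  refine lt_of_le_of_lt (norm_le_of_toZModPow h2) (lt_of_le_of_lt ?_ hn)
  rw [zpow_neg, zpow_natCast, ← inv_pow]
  exact pow_le_pow_of_le_one (inv_nonneg.mpr (by positivity)) (inv_le_one_of_one_le₀ hp1.le)
    (Nat.le_succ n)

end Padic

/-! ### Systems of roots -/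

section Roots

variable {Ω : Type*} [Field Ω]

lemma exists_roots [IsAlgClosed Ω] (x : Ω) : ∃ z : ℕ → Ω, z 0 = x ∧ ∀ n, z (n + 1) ^ 2 = z n := by
  have h : ∀ x : Ω, ∃ y : Ω, y ^ 2 = x := fun x =>
    IsAlgClosed.exists_pow_nat_eq x (n := 2) (by norm_num)
  choose s hs using h
  refine ⟨fun n => s^[n] x, rfl, fun n => ?_⟩
  change s^[n + 1] x ^ 2 = s^[n] x
  rw [Function.iterate_succ_apply', hs]

lemma pow_roots {x : Ω} {z : ℕ → Ω} (h0 : z 0 = x) (hz : ∀ n, z (n + 1) ^ 2 = z n) (n : ℕ) :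
    z n ^ 2 ^ n = x := by
  induction n with
  | zero => rw [pow_zero, pow_one, h0]
  | succ n ih => rw [pow_succ', pow_mul, hz, ih]

lemma prim_roots [CharZero Ω] {z : ℕ → Ω} (h0 : z 0 = -1) (hz : ∀ n, z (n + 1) ^ 2 = z n)
    (n : ℕ) : IsPrimitiveRoot (z n) (2 ^ (n + 1)) := by
  have h1 : z n ^ 2 ^ n = -1 := pow_roots h0 hz n
  have h2 : orderOf (z n) = 2 ^ (n + 1) := by
    apply orderOf_eq_prime_pow
    · rw [h1]
      norm_num
    · rw [pow_succ, pow_mul, h1]
      norm_num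
  have h3 := IsPrimitiveRoot.orderOf (z n)
  rwa [h2] at h3

lemma modEq_of_pow {z : Ω} {N : ℕ} (hN : 0 < N) (hz : IsPrimitiveRoot z N) {a b : ℕ}
    (h : z ^ a = z ^ b) : a ≡ b [MOD N] := by
  rw [pow_eq_pow_mod a hz.pow_eq_one, pow_eq_pow_mod b hz.pow_eq_one] at h
  exact hz.pow_inj (Nat.mod_lt _ hN) (Nat.mod_lt _ hN) h

end Roots

/-! ### The case of trivial coefficients modulo two -/

section Two

variable {G : Type*} [Group G] [TopologicalSpace G]

lemma neg_two (a : ZMod 2) : -a = a := by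
  revert a
  decide

lemma mem_Z1_iff {f : G → ZMod 2} : f ∈ Z1 (1 : G →* AddMonoid.End (ZMod 2)) ↔
    f ∈ BKPar.Hom2 G := Iff.rfl

lemma mem_Z2_iff {z : G → G → ZMod 2} : z ∈ Z2 (1 : G →* AddMonoid.End (ZMod 2)) ↔
    z ∈ BKPar.Z2 G := by
  refine and_congr Iff.rfl (forall_congr' fun g => forall_congr' fun h => forall_congr' fun k => ?_)
  change z h k - z (g * h) k + z g (h * k) - z g h = 0 ↔ _
  rw [sub_eq_add_neg, sub_eq_add_neg, neg_two, neg_two]

lemma mem_B2_iff {z : G → G → ZMod 2} : z ∈ B2 (1 : G →* AddMonoid.End (ZMod 2)) ↔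
    z ∈ BKPar.B2 G := by
  refine exists_congr fun β => and_congr Iff.rfl (forall_congr' fun g => forall_congr' fun h => ?_)
  change z g h = β h - β (g * h) + β g ↔ _
  rw [sub_eq_add_neg, neg_two]

lemma card_top : Nat.card (Z1 (1 : G →* AddMonoid.End (ZMod 2))) =
    Nat.card (BKPar.Hom2 (⊤ : Subgroup G)) := by
  refine Nat.card_congr
    { toFun := fun f => ⟨fun u => (f : G → ZMod 2) u, ?_⟩
      invFun := fun f => ⟨fun g => (f : (⊤ : Subgroup G) → ZMod 2) ⟨g, Subgroup.mem_top g⟩, ?_⟩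
      left_inv := fun f => rfl
      right_inv := fun f => rfl }
  · obtain ⟨f, ⟨W, hW, hW'⟩, hf⟩ := f
    refine ⟨⟨W.comap (⊤ : Subgroup G).subtype, hW.preimage continuous_subtype_val,
      fun g w hw => ?_⟩, fun x y => ?_⟩
    · exact hW' g w hw
    · exact hf x y
  · obtain ⟨f, ⟨W, hW, hW'⟩, hf⟩ := f
    rw [mem_Z1_iff]
    refine ⟨⟨W.comap (Subgroup.topEquiv (G := G)).symm.toMonoidHom,
      hW.preimage (continuous_id.subtype_mk _), fun g w hw => ?_⟩, fun x y => ?_⟩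
    · exact hW' ⟨g, Subgroup.mem_top g⟩ ⟨w, Subgroup.mem_top w⟩ hw
    · exact hf ⟨x, Subgroup.mem_top x⟩ ⟨y, Subgroup.mem_top y⟩

/-- the cup product is symmetric -/
lemma cup_comm {f f' : G → ZMod 2} (hf : f ∈ BKPar.Hom2 G) (hf' : f' ∈ BKPar.Hom2 G)
    (h : BKPar.cup f f' ∈ BKPar.B2 G) : BKPar.cup f' f ∈ BKPar.B2 G := by
  obtain ⟨β, hβ, hβ'⟩ := h
  refine ⟨fun g => β g + f g * f' g, Loc1.map2 hβ (Loc1.map2 hf.1 hf'.1 (· * ·)) (· + ·),
    fun x y => ?_⟩
  have h1 := hβ' x y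
  simp only [BKPar.cup] at h1 ⊢
  rw [hf.2, hf'.2]
  generalize f x = a at *
  generalize f y = b at *
  generalize f' x = c at *
  generalize f' y = d at *
  generalize β x = u at *
  generalize β y = v at *
  generalize β (x * y) = w at *
  revert a b c d u v w
  decide

end Two

/-! ### Kummer cocycles -/

section Kummer

variable {F : Type} [Field F] [NumberField F]

open BKPar in
lemma exists_kum (hS : StSq) {y : AlgebraicClosure F} (hy : IsTwoUnit y)
    (hyF : ∀ u : AbsGal F, u (y ^ 2) = y ^ 2) :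
    ∃ κ : AbsGal F → ℤ_[2], Continuous κ ∧
      (∀ g h, κ (g * h) = κ g + ((cyc F g : ℤ_[2]ˣ) : ℤ_[2]) * κ h) ∧
      (∀ g, ∀ r ∈ R F, κ (g * r) = κ g) ∧ ∀ g, PadicInt.toZMod (κ g) = 0 ↔ g y = y := by
  obtain ⟨Y, hY0, hY⟩ := exists_roots y
  obtain ⟨z, hz0, hz⟩ := exists_roots (-1 : AlgebraicClosure F)
  have hprim := prim_roots hz0 hz
  have hYy : ∀ n, Y n ^ 2 ^ n = y := pow_roots hY0 hY
  have hYy2 : ∀ n, Y n ^ 2 ^ (n + 1) = y ^ 2 := by
    intro n
    rw [pow_succ, pow_mul, hYy]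
  have htu : ∀ n, IsTwoUnit (Y n) := fun n =>
    Cyc.tu_of_pow (n := 2 ^ n) (by positivity) (by rw [hYy]; exact hy)
  have hYne : ∀ n, Y n ≠ 0 := fun n => (htu n).1
  have hzne : ∀ n, z n ≠ 0 := fun n => (hprim n).ne_zero (by positivity)
  have h1 : ∀ (n : ℕ) (g : AbsGal F), ∃ i, i < 2 ^ (n + 1) ∧ g (Y n) = z n ^ i * Y n := by
    intro n g
    have h2 : (g (Y n) / Y n) ^ 2 ^ (n + 1) = 1 := by
      rw [div_pow, ← map_pow, hYy2, hyF, div_self (pow_ne_zero _ hy.1)]
    have : NeZero (2 ^ (n + 1)) := ⟨by positivity⟩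
    obtain ⟨i, hi, hi'⟩ := (hprim n).eq_pow_of_pow_eq_one h2
    refine ⟨i, hi, ?_⟩
    rw [hi', div_mul_cancel₀ _ (hYne n)]
  choose k hk hk' using h1
  have hmod : ∀ (g : AbsGal F) (n : ℕ), k (n + 1) g ≡ k n g [MOD 2 ^ (n + 1)] := by
    intro g n
    apply modEq_of_pow (by positivity) (hprim n)
    apply mul_right_cancel₀ (hYne n)
    rw [← hk' n g, ← hY n, map_pow, hk' (n + 1) g, mul_pow, ← hz n, ← pow_mul, ← pow_mul,
      mul_comm 2]
  have h3 := fun g => exists_padic (p := 2) (fun n => k n g) (hmod g)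
  choose κ hκ using h3
  have hinv : ∀ (n : ℕ) (w : AbsGal F), w (Y n) = Y n → ∀ g, k n (g * w) = k n g := by
    intro n w hw g
    have h4 := hk' n (g * w)
    rw [AlgEquiv.mul_apply, hw, hk' n g] at h4
    exact ((hprim n).pow_inj (hk n g) (hk n (g * w)) (mul_right_cancel₀ (hYne n) h4)).symm
  have hext : ∀ a b : ℤ_[2], (∀ n : ℕ, PadicInt.toZModPow (n + 1) a =
      PadicInt.toZModPow (n + 1) b) → a = b := by
    intro a b hab
    apply PadicInt.ext_of_toZModPow.1
    intro n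
    cases n with
    | zero =>
      have : Subsingleton (ZMod (2 ^ 0)) := by
        rw [pow_zero]
        infer_instance
      exact Subsingleton.elim _ _
    | succ n => exact hab n
  refine ⟨κ, ?_, ?_, ?_, ?_⟩
  · apply continuous_of_inv
    intro n
    obtain ⟨W, hW, hW'⟩ := Cyc.isOpen_stab (F := F) (S := {Y n}) (Set.finite_singleton _)
    refine ⟨W, hW, fun g w hw => ?_⟩
    rw [hκ, hκ, hinv n w (hW' w hw (Y n) rfl)]
  · intro g h
    apply hext
    intro n
    have h4 : ((cyc F g : ℤ_[2]ˣ) : ℤ_[2]).toZModPow (n + 1) =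
        (((((cyc F g : ℤ_[2]ˣ) : ℤ_[2]).toZModPow (n + 1)).val : ℕ) : ZMod (2 ^ (n + 1))) := by
      have : NeZero (2 ^ (n + 1)) := ⟨by positivity⟩
      rw [ZMod.natCast_zmod_val]
    rw [map_add, map_mul, hκ, hκ, hκ, h4, ← Nat.cast_mul, ← Nat.cast_add,
      ZMod.natCast_eq_natCast_iff]
    apply modEq_of_pow (by positivity) (hprim n)
    apply mul_right_cancel₀ (hYne n)
    rw [← hk' n (g * h), AlgEquiv.mul_apply, hk' n h, map_mul, map_pow, hk' n g,
      Cyc.spec g (n + 1) (z n) (hprim n).pow_eq_one, ← pow_mul, pow_add (z n) (k n g)]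
    ring
  · intro g r hr
    apply hext
    intro n
    have h4 : r (Y n) = Y n := Cyc.fixR hS (htu n) (n + 1) (fun r _ => by
      rw [hYy2, hyF]) r hr
    rw [hκ, hκ, hinv n r h4]
  · intro g
    have h4 : PadicInt.toZMod (κ g) = 0 ↔ PadicInt.toZModPow (0 + 1) (κ g) = 0 := by
      rw [← RingHom.mem_ker, ← RingHom.mem_ker, PadicInt.ker_toZMod, PadicInt.ker_toZModPow,
        PadicInt.maximalIdeal_eq_span_p, zero_add, pow_one]
    have h5 : k 0 g = 0 ↔ g y = y := by
      have h6 := hk' 0 g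
      rw [hY0, hz0] at h6
      constructor
      · intro h7
        rw [h6, h7, pow_zero, one_mul]
      · intro h7
        rw [h7] at h6
        have h8 := hk 0 g
        have h9 : k 0 g < 2 := h8
        by_contra h10
        have h11 : k 0 g = 1 := by omega
        rw [h11, pow_one] at h6
        have h12 : (2 : AlgebraicClosure F) * y = 0 := by linear_combination h6
        rcases mul_eq_zero.mp h12 with h13 | h13
        · norm_num at h13
        · exact hy.1 h13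
    rw [h4, hκ, ← h5, ZMod.natCast_eq_zero_iff]
    constructor
    · intro h6
      have h8 : k 0 g < 2 ^ (0 + 1) := hk 0 g
      exact Nat.eq_zero_of_dvd_of_lt h6 h8
    · intro h6
      rw [h6]
      exact dvd_zero _

end Kummer

end Dat2

open Dat2 BKPar in
/-- Module DAT2. -/
theorem stDat2 : StDat2 := by
  intro q F _ _ s hyp ι hn χ hχ
  have hA : StAdm := stAdm
  have hS : StSq := stSq hA
  obtain ⟨hpro, hDU, -, -, hcount⟩ := stCount hA (stDR hA) hS stUnits (stLocHom stLocSq) q F s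
    hyp ι hn
  obtain ⟨hcycc, hcycR⟩ := stCycR hA hS F
  have hline := stLine.{0} stShapiro.{0} (stGysin.{0} stShapiro.{0}) (AbsGal F ⧸ R F) 1 le_rfl
    hpro hDU
  have hone : ∀ a : ZMod 2, a ≠ 0 → a = 1 := by decide
  refine ⟨hpro, ?_, ?_, ?_, ?_, ?_, ?_⟩
  · rw [(QuotientGroup.isQuotientMap_mk (N := R F)).continuous_iff]
    have h1 : (χ ∘ (QuotientGroup.mk : AbsGal F → AbsGal F ⧸ R F)) = cyc F := by
      funext g
      exact hχ g
    rw [h1]
    exact hcycc
  · intro g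
    apply hone
    exact ((χ g).isUnit.map (PadicInt.toZMod (p := 2))).ne_zero
  · have h1 := hDU ⊤ isOpen_univ
    rw [Subgroup.index_top, mul_one] at h1
    rw [card_top, h1]
  · intro z hz hz' z' hzz
    rw [mem_Z2_iff] at hz hzz
    rw [mem_B2_iff] at hz'
    by_cases h1 : z' ∈ BKPar.B2 (AbsGal F ⧸ R F)
    · refine ⟨0, ?_⟩
      rw [zero_smul, sub_zero, mem_B2_iff]
      exact h1
    · refine ⟨1, ?_⟩
      rw [one_smul, mem_B2_iff]
      have h2 := hline.1 z' hzz z hz h1 hz'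
      have h3 : z' - z = z' + z := by
        funext g h
        rw [Pi.sub_apply, Pi.sub_apply, Pi.add_apply, Pi.add_apply, sub_eq_add_neg, neg_two]
      rw [h3]
      exact h2
  · intro f hf hf0
    rw [mem_Z1_iff] at hf
    obtain ⟨ψ, hψ, hψ'⟩ := hline.2 f hf hf0
    refine ⟨ψ, mem_Z1_iff.mpr hψ, ?_⟩
    rw [mem_B2_iff]
    exact fun h => hψ' (cup_comm hf hψ h)
  · intro f hf
    rw [mem_Z1_iff] at hf
    have hf1 : f 1 = 0 := by
      have := hf.2 1 1
      rw [mul_one] at this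
      exact left_eq_add.mp this
    have hfg : (fun g : AbsGal F => f (QuotientGroup.mk g)) ∈ Hom2 (AbsGal F) := by
      obtain ⟨⟨W, hW, hW'⟩, hf2⟩ := hf
      refine ⟨⟨W.comap (QuotientGroup.mk' (R F)), hW.preimage QuotientGroup.continuous_mk,
        fun g w hw => ?_⟩, fun g h => ?_⟩
      · exact hW' (QuotientGroup.mk g) (QuotientGroup.mk w) hw
      · exact hf2 (QuotientGroup.mk g) (QuotientGroup.mk h)
    obtain ⟨y, hy, hyF, hfy⟩ := hcount _ hfg (fun r hr => by
      have h1 : (QuotientGroup.mk r : AbsGal F ⧸ R F) = 1 := (QuotientGroup.eq_one_iff r).mpr hr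
      simp only [h1, hf1])
    obtain ⟨κ, hκc, hκm, hκR, hκ0⟩ := exists_kum hS hy hyF
    have hlift : ∀ a b : AbsGal F, (QuotientGroup.mk a : AbsGal F ⧸ R F) = QuotientGroup.mk b →
        κ a = κ b := by
      intro a b hab
      have h1 := hκR a (a⁻¹ * b) (QuotientGroup.eq.mp hab)
      rw [mul_inv_cancel_left] at h1
      exact h1.symm
    have hout : ∀ a : AbsGal F, κ ((QuotientGroup.mk a : AbsGal F ⧸ R F).out) = κ a := fun a =>
      hlift _ _ (QuotientGroup.out_eq' _)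
    refine ⟨fun x => κ x.out, ?_, ?_, ?_⟩
    · rw [(QuotientGroup.isQuotientMap_mk (N := R F)).continuous_iff]
      have h1 : ((fun x : AbsGal F ⧸ R F => κ x.out) ∘
          (QuotientGroup.mk : AbsGal F → AbsGal F ⧸ R F)) = κ := by
        funext g
        exact hout g
      rw [h1]
      exact hκc
    · intro g h
      obtain ⟨a, rfl⟩ := QuotientGroup.mk_surjective g
      obtain ⟨b, rfl⟩ := QuotientGroup.mk_surjective h
      rw [← QuotientGroup.mk_mul]
      simp only [hout]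
      rw [hκm, hχ]
    · intro g
      obtain ⟨a, rfl⟩ := QuotientGroup.mk_surjective g
      simp only [hout]
      by_cases h1 : f (QuotientGroup.mk a) = 0
      · rw [h1, hκ0]
        exact (hfy a).mp h1
      · have h2 : PadicInt.toZMod (κ a) ≠ 0 := fun h3 => h1 ((hfy a).mpr ((hκ0 a).mp h3))
        rw [hone _ h1, hone _ h2]

end BKND
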