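import Mathlib
import Pool.Agent.Lib.MP_7c08ba_nt.ND.Basic

set_option autoImplicit false
set_option linter.overlappingInstances false
set_option linter.unusedSectionVars false

/-!
Module E: the number of cocycles with values in a finite module.
-/

noncomputable section

namespace BKND

open BKPar (Loc1 Loc2)

universe u

namespace E

variable {p : ℕ} [hp : Fact p.Prime]

/-- orthogonal subspaces -/
theorem lin {V : Type*} [AddCommGroup V] [Module (ZMod p) V] [Finite V]
    (B : V →ₗ[ZMod p] Module.Dual (ZMod p) V) (hB : Function.Injective B)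
    (K C : Submodule (ZMod p) V) (h : ∀ x ∈ K, ∀ y ∈ C, B x y = 0) :
    Nat.card K * Nat.card C ≤ Nat.card V := by
  have hfin : Module.Finite (ZMod p) V := Module.Finite.of_finite
  have h1 : Module.finrank (ZMod p) K ≤ Module.finrank (ZMod p) C.dualAnnihilator := by
    let L : K →ₗ[ZMod p] C.dualAnnihilator := (B.comp K.subtype).codRestrict _ (fun x => by
      rw [Submodule.mem_dualAnnihilator]
      exact fun y hy => h x x.2 y hy)
    refine LinearMap.finrank_le_finrank_of_injective (f := L) ?_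
    intro x y hxy
    exact Subtype.ext (hB (congrArg Subtype.val hxy))
  have h2 := Subspace.finrank_add_finrank_dualAnnihilator_eq C
  rw [Module.natCard_eq_pow_finrank (K := ZMod p) (V := K),
    Module.natCard_eq_pow_finrank (K := ZMod p) (V := C),
    Module.natCard_eq_pow_finrank (K := ZMod p) (V := V), ← pow_add, Nat.card_zmod]
  exact Nat.pow_le_pow_right hp.out.pos (by omega)

variable {G : Type u} [Group G] [TopologicalSpace G] [IsTopologicalGroup G]
  [CompactSpace G] [NonarchimedeanGroup G] {χ : G →* ℤ_[p]ˣ} {m k : ℕ}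

/-- trivial coefficients -/
abbrev tr (p : ℕ) [Fact p.Prime] (G : Type u) [Group G] : G →* AddMonoid.End (ZMod p) := 1

/-- homomorphisms as a vector space -/
abbrev V (p : ℕ) [Fact p.Prime] (G : Type u) [Group G] [TopologicalSpace G] :
    Submodule (ZMod p) (G → ZMod p) :=
  AddSubgroup.toZModSubmodule p (Z1 (1 : G →* AddMonoid.End (ZMod p)))

theorem mem_V {f : G → ZMod p} : f ∈ V p G ↔ f ∈ Z1 (1 : G →* AddMonoid.End (ZMod p)) :=
  Iff.rfl

theorem cup_mem_Z2 {f f' : G → ZMod p} (hf : f ∈ Z1 (1 : G →* AddMonoid.End (ZMod p)))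
    (hf' : f' ∈ Z1 (1 : G →* AddMonoid.End (ZMod p))) :
    (fun g h => f g * f' h) ∈ Z2 (1 : G →* AddMonoid.End (ZMod p)) := by
  refine ⟨Loc2.map2 (loc2_left hf.1) (loc2_right hf'.1) (· * ·), fun g h l => ?_⟩
  have h1 : f (g * h) = f g + f h := hf.2 g h
  have h2 : f' (h * l) = f' h + f' l := hf'.2 h l
  change f h * f' l - f (g * h) * f' l + f g * f' (h * l) - f g * f' h = 0
  rw [h1, h2]
  ring

theorem smul_mem_B2 (a : ZMod p) {z : G → G → ZMod p}
    (hz : z ∈ B2 (1 : G →* AddMonoid.End (ZMod p))) :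
    a • z ∈ B2 (1 : G →* AddMonoid.End (ZMod p)) :=
  (AddSubgroup.toZModSubmodule p (B2 (1 : G →* AddMonoid.End (ZMod p)))).smul_mem a hz

theorem uniq {z₀ z : G → G → ZMod p} (hz₀ : z₀ ∉ B2 (1 : G →* AddMonoid.End (ZMod p)))
    {a b : ZMod p} (ha : z - a • z₀ ∈ B2 (1 : G →* AddMonoid.End (ZMod p)))
    (hb : z - b • z₀ ∈ B2 (1 : G →* AddMonoid.End (ZMod p))) : a = b := by
  by_contra hab
  apply hz₀
  have h1 : (b - a) • z₀ ∈ B2 (1 : G →* AddMonoid.End (ZMod p)) := by
    have h2 := sub_mem ha hb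
    refine Eq.subst ?_ h2
    rw [sub_smul]
    abel
  have h2 := smul_mem_B2 (b - a)⁻¹ h1
  rwa [smul_smul, inv_mul_cancel₀ (sub_ne_zero.2 (Ne.symm hab)), one_smul] at h2

/-- orthogonal subgroups of the group of homomorphisms -/
theorem orth (D : Dat p G χ m) (K C : AddSubgroup (G → ZMod p))
    (hK : K ≤ Z1 (1 : G →* AddMonoid.End (ZMod p)))
    (hC : C ≤ Z1 (1 : G →* AddMonoid.End (ZMod p)))
    (h : ∀ x ∈ K, ∀ y ∈ C, (fun g h => x g * y h) ∈ B2 (1 : G →* AddMonoid.End (ZMod p))) :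
    Nat.card K * Nat.card C ≤ p ^ (m + 2) := by
  have hcV : Nat.card (V p G) = p ^ (m + 2) := D.card
  have hfV : Finite (V p G) := Nat.finite_of_card_ne_zero (by
    rw [hcV]
    exact pow_ne_zero _ hp.out.ne_zero)
  have hnt : Nontrivial (V p G) := by
    rw [← Finite.one_lt_card_iff_nontrivial, hcV]
    exact Nat.one_lt_pow (by omega) hp.out.one_lt
  obtain ⟨⟨x₀, hx₀⟩, hx₀'⟩ := exists_ne (0 : V p G)
  obtain ⟨x₁, hx₁, hx₁'⟩ := D.nondeg x₀ hx₀ (fun h0 => hx₀' (Subtype.ext h0))
  set z₀ : G → G → ZMod p := fun g h => x₀ g * x₁ h with hz₀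
  have hz₀Z : z₀ ∈ Z2 (1 : G →* AddMonoid.End (ZMod p)) := cup_mem_Z2 hx₀ hx₁
  have hex : ∀ x y : V p G, ∃ a : ZMod p,
      (fun g h => x.1 g * y.1 h) - a • z₀ ∈ B2 (1 : G →* AddMonoid.End (ZMod p)) :=
    fun x y => D.line z₀ hz₀Z hx₁' _ (cup_mem_Z2 x.2 y.2)
  choose F hF using hex
  have hadd1 : ∀ x x' y : V p G, F (x + x') y = F x y + F x' y := by
    intro x x' y
    refine uniq hx₁' (hF (x + x') y) ?_
    refine Eq.subst ?_ (add_mem (hF x y) (hF x' y))
    funext g h
    simp only [Pi.add_apply, Pi.sub_apply, Pi.smul_apply, smul_eq_mul, Submodule.coe_add]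
    ring
  have hadd2 : ∀ x y y' : V p G, F x (y + y') = F x y + F x y' := by
    intro x y y'
    refine uniq hx₁' (hF x (y + y')) ?_
    refine Eq.subst ?_ (add_mem (hF x y) (hF x y'))
    funext g h
    simp only [Pi.add_apply, Pi.sub_apply, Pi.smul_apply, smul_eq_mul, Submodule.coe_add]
    ring
  have hsmul1 : ∀ (a : ZMod p) (x y : V p G), F (a • x) y = a • F x y := by
    intro a x y
    refine uniq hx₁' (hF (a • x) y) ?_
    refine Eq.subst ?_ (smul_mem_B2 a (hF x y))
    funext g h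
    simp only [Pi.sub_apply, Pi.smul_apply, smul_eq_mul, Submodule.coe_smul]
    ring
  have hsmul2 : ∀ (a : ZMod p) (x y : V p G), F x (a • y) = a • F x y := by
    intro a x y
    refine uniq hx₁' (hF x (a • y)) ?_
    refine Eq.subst ?_ (smul_mem_B2 a (hF x y))
    funext g h
    simp only [Pi.sub_apply, Pi.smul_apply, smul_eq_mul, Submodule.coe_smul]
    ring
  let B : V p G →ₗ[ZMod p] Module.Dual (ZMod p) (V p G) :=
    LinearMap.mk₂ (ZMod p) F hadd1 hsmul1 hadd2 hsmul2
  have hB : Function.Injective B := by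
    rw [injective_iff_map_eq_zero]
    intro x hx
    by_contra hx0
    obtain ⟨y, hy, hy'⟩ := D.nondeg x.1 x.2 (fun h0 => hx0 (Subtype.ext h0))
    apply hy'
    have h1 := hF x ⟨y, hy⟩
    have h2 : F x ⟨y, hy⟩ = 0 := LinearMap.congr_fun hx ⟨y, hy⟩
    rw [h2, zero_smul, sub_zero] at h1
    exact h1
  let K' : Submodule (ZMod p) (V p G) :=
    (AddSubgroup.toZModSubmodule p K).comap (V p G).subtype
  let C' : Submodule (ZMod p) (V p G) :=
    (AddSubgroup.toZModSubmodule p C).comap (V p G).subtype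
  have h1 := lin B hB K' C' (fun x hx y hy => by
    have h2 := hF x y
    have h3 := h x.1 hx y.1 hy
    refine uniq hx₁' (a := F x y) h2 (b := 0) ?_
    rw [zero_smul, sub_zero]
    exact h3)
  have hK' : Nat.card K' = Nat.card K := by
    refine Nat.card_congr ⟨fun x => ⟨x.1.1, x.2⟩, fun x => ⟨⟨x.1, hK x.2⟩, x.2⟩, fun x => rfl,
      fun x => rfl⟩
  have hC' : Nat.card C' = Nat.card C := by
    refine Nat.card_congr ⟨fun x => ⟨x.1.1, x.2⟩, fun x => ⟨⟨x.1, hC x.2⟩, x.2⟩, fun x => rfl,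
      fun x => rfl⟩
  rw [hK', hC', hcV] at h1
  exact h1

/-- order of a group, of the kernel and of the range -/
theorem card_ker_range {A B : Type*} [AddGroup A] [AddGroup B] (f : A →+ B) :
    Nat.card A = Nat.card f.ker * Nat.card f.range := by
  rw [← AddSubgroup.card_mul_index f.ker, AddSubgroup.index_ker]

theorem main (D : Dat p G χ m) (n : ℕ) : ∀ X : Pr p G χ k, Nat.card X.M = n →
    Finite (Z1 X.ρ) ∧ Nat.card (Z1 X.ρ) ≤ Nat.card (H0 X.ρ') * Nat.card X.M ^ (m + 1) := by
  induction n using Nat.strong_induction_on with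
  | _ n ih =>
  intro X hX
  rcases subsingleton_or_nontrivial X.M' with hM' | hM'
  · have hM : Subsingleton X.M := by
      refine ⟨fun a b => ?_⟩
      rw [← sub_eq_zero]
      refine X.left _ fun m' => ?_
      rw [Subsingleton.elim m' 0, map_zero]
    have h1 : Subsingleton (Z1 X.ρ) := ⟨fun a b => Subtype.ext (Subsingleton.elim _ _)⟩
    refine ⟨inferInstance, ?_⟩
    rw [Nat.card_of_subsingleton (0 : Z1 X.ρ)]
    have h2 : 0 < Nat.card (H0 X.ρ') := Nat.card_pos
    have h3 : 0 < Nat.card X.M ^ (m + 1) := pow_pos Nat.card_pos _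
    exact Nat.mul_pos h2 h3
  obtain ⟨r⟩ := X.exists_RD D hM'
  have hk := r.hk
  have hlt : Nat.card r.red.M < n := hX ▸ r.card_red_lt
  obtain ⟨hfin, hcard⟩ := ih _ hlt r.red rfl
  -- the image of the cocycles in the homomorphisms
  let P : Z1 X.ρ →+ (G → ZMod p) := AddMonoidHom.mk' (fun f g => r.π (f.1 g)) (fun a b => by
    funext g
    exact map_add r.π _ _)
  have hP : ∀ f : Z1 X.ρ, P f = fun g => r.π (f.1 g) := fun f => rfl
  have hker : Nat.card P.ker = Nat.card (Z1 r.red.ρ) := by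
    symm
    refine Nat.card_congr (Equiv.ofBijective (fun f : Z1 r.red.ρ =>
      (⟨⟨fun g => r.incl (f.1 g), r.incl_mem_Z1 f.2⟩, by
        rw [AddMonoidHom.mem_ker]
        funext g
        exact r.π_incl _⟩ : P.ker)) ⟨?_, ?_⟩)
    · intro f f' hff'
      apply Subtype.ext
      funext g
      exact r.incl_injective (congrFun (congrArg (fun x : P.ker => x.1.1) hff') g)
    · rintro ⟨⟨f, hf⟩, hf'⟩
      rw [AddMonoidHom.mem_ker] at hf'
      obtain ⟨f₁, hf₁, hf₁'⟩ := r.exists_Z1_red hf (fun g => congrFun hf' g)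
      exact ⟨⟨f₁, hf₁⟩, Subtype.ext (Subtype.ext (funext hf₁'))⟩
  have hcP := card_ker_range P
  rw [hker] at hcP
  -- the elements which are invariant modulo `e`
  let H : AddSubgroup X.M' := (H0 r.red.ρ').comap r.proj
  have hH : ∀ x : H, ∀ g, ∃ a : ZMod p, r.em a = X.ρ' g x.1 - x.1 := by
    intro x g
    have h1 : r.proj (X.ρ' g x.1 - x.1) = 0 := by
      rw [map_sub, r.proj_act, sub_eq_zero]
      exact x.2 g
    obtain ⟨a, ha⟩ := r.exists_em_of_proj h1
    exact ⟨a, ha.symm⟩
  choose d hd using hH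
  let Δ : H →+ (G → ZMod p) := AddMonoidHom.mk' d (fun x y => by
    funext g
    apply r.em_injective
    rw [hd, Pi.add_apply, map_add, hd, hd, AddSubgroup.coe_add, map_add]
    abel)
  have hΔ : ∀ (x : H) (g : G), r.em (Δ x g) = X.ρ' g x.1 - x.1 := hd
  have hkerΔ : Nat.card Δ.ker = Nat.card (H0 X.ρ') := by
    symm
    refine Nat.card_congr (Equiv.ofBijective (fun x : H0 X.ρ' =>
      (⟨⟨x.1, fun g => by
        rw [← r.proj_act, x.2 g]⟩, by
        rw [AddMonoidHom.mem_ker]
        funext g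
        apply r.em_injective
        rw [hΔ, Pi.zero_apply, map_zero]
        exact sub_eq_zero.2 (x.2 g)⟩ : Δ.ker)) ⟨?_, ?_⟩)
    · intro x y hxy
      exact Subtype.ext (congrArg (fun x : Δ.ker => x.1.1) hxy)
    · rintro ⟨x, hx⟩
      rw [AddMonoidHom.mem_ker] at hx
      refine ⟨⟨x.1, fun g => ?_⟩, rfl⟩
      have h1 := hΔ x g
      rw [hx, Pi.zero_apply, map_zero] at h1
      exact sub_eq_zero.1 h1.symm
  have hcΔ := card_ker_range Δ
  rw [hkerΔ] at hcΔ
  -- the projection of `H` to the invariants of the smaller dual module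
  let Q : H →+ H0 r.red.ρ' := AddMonoidHom.mk' (fun x => ⟨r.proj x.1, x.2⟩) (fun x y => by
    apply Subtype.ext
    exact map_add r.proj _ _)
  have hQ : Function.Surjective Q := by
    rintro ⟨y, hy⟩
    obtain ⟨x, rfl⟩ := r.proj_surjective y
    exact ⟨⟨x, hy⟩, rfl⟩
  have hkerQ : Nat.card Q.ker = p := by
    refine Eq.trans (Eq.symm ?_) (Nat.card_zmod p)
    refine Nat.card_congr (Equiv.ofBijective (fun a : ZMod p =>
      (⟨⟨r.em a, fun g => by
        rw [r.proj_em, map_zero]⟩, by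
        rw [AddMonoidHom.mem_ker]
        apply Subtype.ext
        exact r.proj_em a⟩ : Q.ker)) ⟨?_, ?_⟩)
    · intro a b hab
      exact r.em_injective (congrArg (fun x : Q.ker => x.1.1) hab)
    · rintro ⟨x, hx⟩
      rw [AddMonoidHom.mem_ker] at hx
      obtain ⟨a, ha⟩ := r.exists_em_of_proj (y := x.1) (congrArg Subtype.val hx)
      exact ⟨a, Subtype.ext (Subtype.ext ha.symm)⟩
  have hcQ := card_ker_range Q
  have hrQ : Nat.card Q.range = Nat.card (H0 r.red.ρ') := by
    rw [AddMonoidHom.range_eq_top.2 hQ, AddSubgroup.card_top]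
  rw [hkerQ, hrQ] at hcQ
  -- orthogonality
  have hort : Nat.card P.range * Nat.card Δ.range ≤ p ^ (m + 2) := by
    refine orth D _ _ ?_ ?_ ?_
    · rintro _ ⟨f, rfl⟩
      exact r.π_mem_Z1 f.2
    · rintro _ ⟨x, rfl⟩
      refine ⟨loc1_of_injective (F := r.em) r.em_injective ?_, fun g h => ?_⟩
      · have h1 := Loc1.map (loc1_act X.sm' x.1) (fun y => y - x.1)
        refine Eq.subst ?_ h1
        funext g
        exact (hΔ x g).symm
      · change Δ x (g * h) = Δ x g + Δ x h
        apply r.em_injective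
        rw [map_add, hΔ, ← r.act_em g (Δ x h), hΔ, hΔ, act_mul, map_sub]
        abel
    · rintro _ ⟨f, rfl⟩ _ ⟨x, rfl⟩
      apply inj1 D hk
      have h1 := X.cup_B1_right f.2 (f' := fun g => X.ρ' g x.1 - x.1) ⟨x.1, fun g => rfl⟩
      refine Eq.subst ?_ h1
      funext g h
      change X.b (f.1 g) (X.ρ' g (X.ρ' h x.1 - x.1)) = jm k (r.π (f.1 g) * Δ x h)
      rw [← hΔ, r.act_em, r.b_em, mul_comm]
  have hR : 0 < Nat.card Δ.range := by
    have : Finite Δ.range := Set.finite_range Δ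
    exact Nat.card_pos
  have hR' : Nat.card P.range ≠ 0 := by
    have h1 : Finite (V p G) := Nat.finite_of_card_ne_zero (by
      have h2 : Nat.card (V p G) = p ^ (m + 2) := D.card
      rw [h2]
      exact pow_ne_zero _ hp.out.ne_zero)
    have h3 : Finite P.range := by
      have h4 : (P.range : Set (G → ZMod p)) ⊆ (V p G : Set (G → ZMod p)) := by
        rintro _ ⟨f, rfl⟩
        exact r.π_mem_Z1 f.2
      exact Set.Finite.subset (Set.toFinite (V p G : Set (G → ZMod p))) h4
    exact Nat.card_pos.ne'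
  have hfinZ : Finite (Z1 X.ρ) := Nat.finite_of_card_ne_zero (by
    rw [hcP]
    exact mul_ne_zero Nat.card_pos.ne' hR')
  refine ⟨hfinZ, ?_⟩
  have hred := r.card_red
  refine Nat.le_of_mul_le_mul_right (c := Nat.card Δ.range) ?_ hR
  calc Nat.card (Z1 X.ρ) * Nat.card Δ.range
      = Nat.card (Z1 r.red.ρ) * (Nat.card P.range * Nat.card Δ.range) := by
        rw [hcP]
        ring
    _ ≤ (Nat.card (H0 r.red.ρ') * Nat.card r.red.M ^ (m + 1)) * p ^ (m + 2) :=
        Nat.mul_le_mul hcard hort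
    _ = (p * Nat.card (H0 r.red.ρ')) * (p * Nat.card r.red.M) ^ (m + 1) := by ring
    _ = Nat.card (H0 X.ρ') * Nat.card X.M ^ (m + 1) * Nat.card Δ.range := by
        rw [← hcQ, hcΔ, hred]
        ring

end E

theorem stE : StE.{u} := by
  intro p _ G _ _ _ _ _ χ m D k X
  exact E.main D _ X rfl

end BKND
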