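import Mathlib
import Pool.Agent.Lib.MP_7c08ba_nt.ND.Stmts
import Pool.Agent.Lib.MP_7c08ba_nt.Par.Adm
import Pool.Agent.Lib.MP_7c08ba_nt.Par.Desc
import Pool.Agent.Lib.MP_7c08ba_nt.Par.Sq
import Pool.Agent.Lib.MP_7c08ba_nt.Par.DR
import Pool.Agent.Lib.MP_7c08ba_nt.Par.Units
import Pool.Agent.Lib.MP_7c08ba_nt.Par.LocHom
import Pool.Agent.Lib.MP_7c08ba_nt.Par.LocSq
import Pool.Agent.Lib.MP_7c08ba_nt.Par.Count
import Pool.Agent.Lib.MP_7c08ba_nt.Par.CycR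
import Pool.Agent.Lib.MP_7c08ba_nt.Par.Ext
import Pool.Agent.Lib.MP_7c08ba_nt.Par.Final

set_option autoImplicit false
set_option linter.overlappingInstances false

/-!
Module FINAL: the local theorem for the decomposition group.
-/

noncomputable section

namespace BKND

open BKPar (Loc1 Loc2)
open Pool.Agent.Lib.MP_7c08ba_nt (AbsGal)
open Matrix

universe u

namespace Final

/-- subgroups of nonarchimedean groups are nonarchimedean -/
theorem nonarch_sub {Γ : Type u} [Group Γ] [TopologicalSpace Γ] [IsTopologicalGroup Γ]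
    [NonarchimedeanGroup Γ] (D : Subgroup Γ) : NonarchimedeanGroup D where
  is_nonarchimedean := by
    intro U hU
    rw [mem_nhds_induced] at hU
    obtain ⟨V, hV, hVU⟩ := hU
    obtain ⟨W, hW⟩ := NonarchimedeanGroup.is_nonarchimedean V hV
    refine ⟨⟨(W : Subgroup Γ).comap D.subtype, ?_⟩, ?_⟩
    · exact W.isOpen.preimage continuous_subtype_val
    · intro x hx
      exact hVU (hW hx)

/-- homomorphisms of open subgroups of `D` which contain `D ∩ R` -/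
theorem kill {Γ : Type u} [Group Γ] [TopologicalSpace Γ] [IsTopologicalGroup Γ] [CompactSpace Γ]
    (R D : Subgroup Γ) (hRn : R.Normal) (hR : IsClosed (R : Set Γ)) (hD : IsClosed (D : Set Γ))
    (hDR : ∀ g : Γ, ∃ d ∈ D, ∃ r ∈ R, g = d * r)
    (hkill : ∀ U : Subgroup Γ, IsOpen (U : Set Γ) → R ≤ U →
      ∀ f ∈ BKPar.Hom2 ↥(D ⊓ U), ∀ (x : Γ) (hx : x ∈ D ⊓ U), x ∈ R → f ⟨x, hx⟩ = 0)
    (U₀ : Subgroup D) (hU₀ : IsOpen (U₀ : Set D)) (hK : ∀ d : D, (d : Γ) ∈ R → d ∈ U₀)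
    (f : U₀ → ZMod 2) (hf1 : Loc1 f) (hf2 : ∀ x y, f (x * y) = f x + f y)
    (x : D) (hx : x ∈ U₀) (hxR : (x : Γ) ∈ R) : f ⟨x, hx⟩ = 0 := by
  set V : Subgroup Γ := U₀.map D.subtype ⊔ R with hV
  have hVo : IsOpen (V : Set Γ) := BKPar.Ext.isOpen_prod R D hRn hR hD hDR U₀ hU₀
  have hRV : R ≤ V := le_sup_right
  have hDV : ∀ (d : D), (d : Γ) ∈ V → d ∈ U₀ := by
    intro d hd
    have h1 : (d : Γ) ∈ ((U₀.map D.subtype ⊔ R : Subgroup Γ) : Set Γ) := hd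
    rw [Subgroup.mul_normal] at h1
    obtain ⟨a, ⟨a', ha', rfl⟩, r', hr', hmul⟩ := h1
    have h3 : ((a'⁻¹ * d : D) : Γ) ∈ R := by
      have h4 : ((a'⁻¹ * d : D) : Γ) = r' := by
        have h5 : (a' : Γ) * r' = d := hmul
        rw [Subgroup.coe_mul, Subgroup.coe_inv, ← h5, inv_mul_cancel_left]
      rw [h4]; exact hr'
    have h4 : d = a' * (a'⁻¹ * d) := by group
    rw [h4]
    exact U₀.mul_mem ha' (hK _ h3)
  let ψ : ↥(D ⊓ V) →* U₀ :=
    { toFun := fun y => ⟨⟨y.1, y.2.1⟩, hDV ⟨y.1, y.2.1⟩ y.2.2⟩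
      map_one' := rfl
      map_mul' := fun a b => rfl }
  have hψc : Continuous ψ :=
    Continuous.subtype_mk (Continuous.subtype_mk continuous_subtype_val _) _
  have hF : (fun y => f (ψ y)) ∈ BKPar.Hom2 ↥(D ⊓ V) := by
    obtain ⟨W, hW, hW'⟩ := hf1
    refine ⟨⟨W.comap ψ, hW.preimage hψc, ?_⟩, ?_⟩
    · intro g w hw
      change f (ψ (g * w)) = f (ψ g)
      rw [map_mul]
      exact hW' _ _ hw
    · intro a b
      change f (ψ (a * b)) = f (ψ a) + f (ψ b)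
      rw [map_mul, hf2]
  exact hkill V hVo hRV _ hF (x : Γ) ⟨x.2, hRV hxR⟩ hxR

end Final

theorem stFinal (h1 : StDG.{0}) (h2 : StDat2) : StFinal := by
  intro q F _ _ s hq ι L _ _ _ n ρ ρ' hρ hρ' hru hru' hdual hinv
  have hA : BKPar.StAdm := BKPar.stAdm
  have hR : (BKPar.R F).Normal := (hA F).1
  have hRc : IsClosed (BKPar.R F : Set (AbsGal F)) := (hA F).2.1
  have hSq : BKPar.StSq := BKPar.stSq hA
  have hDR := BKPar.stDR hA q F s hq ι
  obtain ⟨-, -, hloc, -, -⟩ := BKPar.stCount hA (BKPar.stDR hA) hSq BKPar.stUnits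
    (BKPar.stLocHom BKPar.stLocSq) q F s hq ι hR
  obtain ⟨hχc, hχR⟩ := BKPar.stCycR hA hSq F
  have hDc : IsClosed (BKPar.D F ι : Set (AbsGal F)) := BKPar.isClosed_D F ι
  have hcD : CompactSpace (BKPar.D F ι) := isCompact_iff_compactSpace.mp hDc.isCompact
  have hnD : NonarchimedeanGroup (BKPar.D F ι) := Final.nonarch_sub _
  have hnG : NonarchimedeanGroup (AbsGal F ⧸ BKPar.R F) :=
    BKPar.nonarch_quot NonarchimedeanGroup.is_nonarchimedean
  have hRc' : IsClosed (BKPar.R F : Set (AbsGal F)) := hRc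
  have hT2 : T2Space (AbsGal F ⧸ BKPar.R F) := inferInstance
  let χb : AbsGal F ⧸ BKPar.R F →* ℤ_[2]ˣ := QuotientGroup.lift (BKPar.R F) (BKPar.cyc F) hχR
  let φ : BKPar.D F ι →* AbsGal F ⧸ BKPar.R F :=
    (QuotientGroup.mk' (BKPar.R F)).comp (BKPar.D F ι).subtype
  have hφc : Continuous φ := QuotientGroup.continuous_mk.comp continuous_subtype_val
  have hφs : Function.Surjective φ := by
    intro a
    obtain ⟨g, rfl⟩ := QuotientGroup.mk_surjective a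
    obtain ⟨d, hd, r, hr, rfl⟩ := hDR g
    refine ⟨⟨d, hd⟩, ?_⟩
    change ((d : AbsGal F) : AbsGal F ⧸ BKPar.R F) = ((d * r : AbsGal F) : AbsGal F ⧸ BKPar.R F)
    rw [QuotientGroup.eq, inv_mul_cancel_left]
    exact hr
  have hφ1 : ∀ d : BKPar.D F ι, φ d = 1 ↔ (d : AbsGal F) ∈ BKPar.R F := fun d =>
    QuotientGroup.eq_one_iff _
  have hdat : Dat 2 (AbsGal F ⧸ BKPar.R F) χb 1 :=
    h2 q F s hq ι hR χb fun g => QuotientGroup.lift_mk' _ _ _
  have hkill : ∀ U : Subgroup (BKPar.D F ι), IsOpen (U : Set (BKPar.D F ι)) → φ.ker ≤ U →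
      ∀ f ∈ Z1 (1 : U →* AddMonoid.End (ZMod 2)), ∀ (x : BKPar.D F ι) (hx : x ∈ U), φ x = 1 →
        f ⟨x, hx⟩ = 0 := by
    intro U hU hK f hf x hx hx1
    refine Final.kill (BKPar.R F) (BKPar.D F ι) hR hRc hDc hDR hloc U hU ?_ f hf.1 ?_ x hx
      ((hφ1 x).1 hx1)
    · intro d hd
      exact hK ((hφ1 d).2 hd)
    · intro a b
      exact hf.2 a b
  have key := h1 2 (BKPar.D F ι) (AbsGal F ⧸ BKPar.R F) φ hφc hφs hkill χb 1 hdat L n ρ ρ' hρ hρ'
    hru hru' hdual hinv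
  exact key

end BKND
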