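import Pool.Agent.Lib.MP_7c08ba_nt.ND.Stmts

set_option autoImplicit false

/-!
Module LAT: a compact group acting continuously on a finite dimensional vector space over `ℚ_p`
preserves a lattice; matrices with entries in `ℤ_p`.
-/

noncomputable section

namespace BKND

open Matrix

universe u

namespace Lat

variable {p : ℕ} [Fact p.Prime]

section Basis

variable {V : Type*} [AddCommGroup V] [Module ℚ_[p] V] {N : ℕ}

theorem det_update (b0 b : Module.Basis (Fin N) ℚ_[p] V) (j : Fin N) (v : V) :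
    b0.det (Function.update b j v) = b.repr v j * b0.det b := by
  have h1 : b0.det = b0.det b • b.det := AlternatingMap.eq_smul_basis_det b b0.det
  have h2 : b.det (Function.update b j v) = b.repr v j := by
    conv_lhs => rw [← b.sum_repr v]
    rw [AlternatingMap.map_update_sum, Finset.sum_eq_single j]
    · rw [AlternatingMap.map_update_smul, Function.update_eq_self, b.det_self, smul_eq_mul,
        mul_one]
    · intro k _ hk
      rw [AlternatingMap.map_update_smul, AlternatingMap.map_update_self _ _ hk.symm, smul_zero]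
    · simp
  rw [h1, AlternatingMap.smul_apply, h2, AlternatingMap.smul_apply, b.det_self, smul_eq_mul,
    smul_eq_mul, mul_one, mul_comm]

theorem exists_basis_of_bdd (b0 : Module.Basis (Fin N) ℚ_[p] V) (T : Set V)
    (hT : ∃ b : Module.Basis (Fin N) ℚ_[p] V, ∀ j, b j ∈ T)
    (hC : ∃ C : ℝ, ∀ v : Fin N → V, (∀ j, v j ∈ T) → ‖b0.det v‖ ≤ C) :
    ∃ b : Module.Basis (Fin N) ℚ_[p] V, (∀ j, b j ∈ T) ∧ ∀ v ∈ T, ∀ j, ‖b.repr v j‖ ≤ 1 := by
  have hp1 : (1 : ℝ) < p := by exact_mod_cast (Fact.out : p.Prime).one_lt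
  have hp0 : (0 : ℝ) < p := by linarith
  have hnorm : ∀ x : ℚ_[p], x ≠ 0 → ∃ m : ℤ, ‖x‖ = (p : ℝ) ^ m := fun x hx =>
    ⟨_, Padic.norm_eq_zpow_neg_valuation hx⟩
  obtain ⟨C, hC⟩ := hC
  obtain ⟨m, ⟨b, hb, hm⟩, hmax⟩ := Int.exists_greatest_of_bdd
    (P := fun m : ℤ => ∃ b : Module.Basis (Fin N) ℚ_[p] V, (∀ j, b j ∈ T) ∧
      ‖b0.det b‖ = (p : ℝ) ^ m)
    (by
      obtain ⟨k, hk⟩ := pow_unbounded_of_one_lt C hp1
      refine ⟨k, fun z hz => ?_⟩
      obtain ⟨b, hb, hz⟩ := hz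
      have h1 := hC b hb
      rw [hz] at h1
      have h2 : (p : ℝ) ^ z < (p : ℝ) ^ (k : ℤ) := by
        rw [zpow_natCast]
        exact lt_of_le_of_lt h1 hk
      exact ((zpow_lt_zpow_iff_right₀ hp1).1 h2).le)
    (by
      obtain ⟨b, hb⟩ := hT
      obtain ⟨m, hm⟩ := hnorm (b0.det b) (b0.isUnit_det b).ne_zero
      exact ⟨m, b, hb, hm⟩)
  refine ⟨b, hb, fun v hv j => ?_⟩
  by_contra hcon
  push Not at hcon
  have h0 : b.repr v j ≠ 0 := by
    intro h
    rw [h, norm_zero] at hcon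
    linarith
  have h1 : b0.det (Function.update b j v) ≠ 0 := by
    rw [det_update]
    exact mul_ne_zero h0 (b0.isUnit_det b).ne_zero
  obtain ⟨hli, hsp⟩ := (b0.is_basis_iff_det).2 (isUnit_iff_ne_zero.2 h1)
  obtain ⟨m', hm'⟩ := hnorm _ h1
  have h2 : m' ≤ m := by
    refine hmax m' ⟨Module.Basis.mk hli hsp.ge, fun i => ?_, ?_⟩
    · rw [Module.Basis.mk_apply]
      by_cases hij : i = j
      · subst hij
        rwa [Function.update_self]
      · rw [Function.update_of_ne hij]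
        exact hb i
    · rw [Module.Basis.coe_mk]
      exact hm'
  have h3 : (p : ℝ) ^ m < (p : ℝ) ^ m' := by
    rw [← hm', det_update, norm_mul, hm]
    exact lt_mul_of_one_lt_left (zpow_pos hp0 _) hcon
  exact absurd ((zpow_lt_zpow_iff_right₀ hp1).1 h3) (not_lt.2 h2)

theorem norm_det_le (M : Matrix (Fin N) (Fin N) ℚ_[p]) (hM : ∀ i j, ‖M i j‖ ≤ 1) :
    ‖M.det‖ ≤ 1 := by
  obtain ⟨M', hM'⟩ : ∃ M' : Matrix (Fin N) (Fin N) ℤ_[p],
      M = M'.map (PadicInt.Coe.ringHom (p := p)) :=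
    ⟨Matrix.of fun i j => (⟨M i j, hM i j⟩ : ℤ_[p]), by
      ext i j
      rfl⟩
  have h1 : (M'.map (PadicInt.Coe.ringHom (p := p))).det = PadicInt.Coe.ringHom M'.det :=
    (RingHom.map_det _ _).symm
  rw [hM', h1]
  exact PadicInt.norm_le_one _

theorem exists_basis {G : Type*} [Group G] [TopologicalSpace G] [CompactSpace G]
    (act : G →* Module.End ℚ_[p] V) (b0 : Module.Basis (Fin N) ℚ_[p] V)
    (hc : ∀ i j, Continuous fun g => b0.repr (act g (b0 j)) i) :
    ∃ b : Module.Basis (Fin N) ℚ_[p] V, ∀ g i j, ‖b.repr (act g (b j)) i‖ ≤ 1 := by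
  have hp1 : (1 : ℝ) < p := by exact_mod_cast (Fact.out : p.Prime).one_lt
  have hp0 : (0 : ℝ) < p := by linarith
  have hpQ : (p : ℚ_[p]) ≠ 0 := by exact_mod_cast (Fact.out : p.Prime).ne_zero
  have h1 : ∀ i j, ∃ C : ℝ, ∀ g, ‖b0.repr (act g (b0 j)) i‖ ≤ C := fun i j => by
    obtain ⟨C, hC⟩ := isCompact_univ.exists_bound_of_continuousOn (hc i j).continuousOn
    exact ⟨C, fun g => hC g (Set.mem_univ _)⟩
  choose C hC using h1
  obtain ⟨k, hk⟩ := pow_unbounded_of_one_lt (∑ i, ∑ j, |C i j|) hp1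
  have hk' : ∀ g i j, ‖b0.repr (act g (b0 j)) i‖ ≤ (p : ℝ) ^ k := fun g i j => by
    refine (hC i j g).trans ((le_abs_self _).trans (le_trans ?_ hk.le))
    refine le_trans ?_ (Finset.single_le_sum (f := fun i => ∑ j, |C i j|)
      (fun i _ => Finset.sum_nonneg fun j _ => abs_nonneg _) (Finset.mem_univ i))
    exact Finset.single_le_sum (f := fun j => |C i j|) (fun j _ => abs_nonneg _)
      (Finset.mem_univ j)
  obtain ⟨b, hb, hb'⟩ := exists_basis_of_bdd b0 {v | ∀ g i, ‖b0.repr (act g v) i‖ ≤ 1}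
    (by
      refine ⟨b0.unitsSMul fun _ => Units.mk0 ((p : ℚ_[p]) ^ k) (pow_ne_zero _ hpQ),
        fun j g i => ?_⟩
      rw [Module.Basis.unitsSMul_apply, Units.smul_mk0, map_smul, map_smul, Finsupp.smul_apply,
        smul_eq_mul, norm_mul, norm_pow, Padic.norm_p, inv_pow]
      rw [inv_mul_le_iff₀ (pow_pos hp0 k), mul_one]
      exact hk' g i j)
    (by
      refine ⟨1, fun v hv => ?_⟩
      rw [Module.Basis.det_apply]
      refine norm_det_le _ fun i j => ?_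
      rw [Module.Basis.toMatrix_apply]
      have := hv j 1 i
      rwa [map_one] at this)
  refine ⟨b, fun g i j => hb' _ (fun h i' => ?_) i⟩
  have := hb j (h * g) i'
  rwa [map_mul] at this

end Basis

theorem dot_mulVec {A : Type*} [CommRing A] {N : ℕ} (M M' : Matrix (Fin N) (Fin N) A)
    (x y : Fin N → A) : (M *ᵥ x) ⬝ᵥ (M' *ᵥ y) = x ⬝ᵥ ((Mᵀ * M') *ᵥ y) := by
  rw [Matrix.dotProduct_mulVec, Matrix.vecMul_mulVec, ← Matrix.dotProduct_mulVec]

end Lat

open BKND.Lat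

/-- Module LAT. -/
theorem stLat : StLat.{u} := by
  intro p _ G _ _ _ _ χ hχ L _ _ _ n ρ ρ' hρ hρ' hdual
  have hfr : Module.finrank ℚ_[p] (Fin n → L) = n * Module.finrank ℚ_[p] L := by
    rw [Module.finrank_pi_fintype, Finset.sum_const, Finset.card_univ, Fintype.card_fin,
      smul_eq_mul]
  obtain ⟨N, hN⟩ : ∃ N, N = n * Module.finrank ℚ_[p] L := ⟨_, rfl⟩
  rw [← hN] at hfr
  -- the action
  let act : G →* Module.End ℚ_[p] (Fin n → L) :=
    { toFun := fun g => ((ρ g : Matrix (Fin n) (Fin n) L).mulVecLin).restrictScalars ℚ_[p]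
      map_one' := by
        refine LinearMap.ext fun v => ?_
        change ((ρ 1 : GL (Fin n) L) : Matrix (Fin n) (Fin n) L) *ᵥ v = v
        rw [map_one, Units.val_one, Matrix.one_mulVec]
      map_mul' := fun g h => by
        refine LinearMap.ext fun v => ?_
        change ((ρ (g * h) : GL (Fin n) L) : Matrix (Fin n) (Fin n) L) *ᵥ v =
          ((ρ g : GL (Fin n) L) : Matrix (Fin n) (Fin n) L) *ᵥ
            (((ρ h : GL (Fin n) L) : Matrix (Fin n) (Fin n) L) *ᵥ v)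
        rw [map_mul, Units.val_mul, Matrix.mulVec_mulVec] }
  have hact : ∀ g v, act g v = (ρ g : Matrix (Fin n) (Fin n) L) *ᵥ v := fun g v => rfl
  have hactc : ∀ v, Continuous fun g => act g v := fun v =>
    (Units.continuous_val.comp hρ).matrix_mulVec continuous_const
  have hcoord : ∀ (c : Module.Basis (Fin N) ℚ_[p] (Fin n → L)) (i : Fin N) (v : Fin n → L),
      Continuous fun g => c.repr (act g v) i := fun c i v =>
    (LinearMap.continuous_of_finiteDimensional (c.coord i)).comp (hactc v)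
  obtain ⟨b, hb⟩ := exists_basis act (Module.finBasisOfFinrankEq ℚ_[p] (Fin n → L) hfr)
    (fun i j => hcoord _ i _)
  -- the matrices
  have hinj : Function.Injective fun M : Matrix (Fin N) (Fin N) ℤ_[p] =>
      M.map (algebraMap ℤ_[p] ℚ_[p]) :=
    Matrix.map_injective (IsFractionRing.injective ℤ_[p] ℚ_[p])
  obtain ⟨F, hF⟩ : ∃ F : G → Matrix (Fin N) (Fin N) ℤ_[p], ∀ g,
      F g = Matrix.of fun i j => (⟨b.repr (act g (b j)) i, hb g i j⟩ : ℤ_[p]) := ⟨_, fun _ => rfl⟩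
  have hFmap : ∀ g, (F g).map (algebraMap ℤ_[p] ℚ_[p]) = LinearMap.toMatrix b b (act g) := by
    intro g
    ext i j
    rw [hF, LinearMap.toMatrix_apply]
    rfl
  have hF1 : F 1 = 1 := by
    apply hinj
    change (F 1).map (algebraMap ℤ_[p] ℚ_[p]) =
      (1 : Matrix (Fin N) (Fin N) ℤ_[p]).map (algebraMap ℤ_[p] ℚ_[p])
    rw [hFmap, map_one, LinearMap.toMatrix_one, Matrix.map_one _ (map_zero _) (map_one _)]
  have hFm : ∀ g h, F (g * h) = F g * F h := by
    intro g h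
    apply hinj
    change (F (g * h)).map (algebraMap ℤ_[p] ℚ_[p]) =
      (F g * F h).map (algebraMap ℤ_[p] ℚ_[p])
    rw [Matrix.map_mul, hFmap, hFmap, hFmap, map_mul, LinearMap.toMatrix_mul]
  have hFc : Continuous F := by
    refine continuous_matrix fun i j => ?_
    have h0 : Topology.IsInducing (fun x : ℤ_[p] => (x : ℚ_[p])) :=
      PadicInt.isOpenEmbedding_coe.isInducing
    refine h0.continuous_iff.2 ?_
    have h1 : ((fun x : ℤ_[p] => (x : ℚ_[p])) ∘ fun g => F g i j) =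
        fun g => b.repr (act g (b j)) i := by
      funext g
      simp only [Function.comp_apply, hF]
      rfl
    rw [h1]
    exact hcoord b i (b j)
  let R0 : G →* Matrix (Fin N) (Fin N) ℤ_[p] := { toFun := F, map_one' := hF1, map_mul' := hFm }
  let R0' : G →* Matrix (Fin N) (Fin N) ℤ_[p] :=
    { toFun := fun g => ((χ g : ℤ_[p]ˣ) : ℤ_[p]) • (F g⁻¹)ᵀ
      map_one' := by
        rw [inv_one, hF1, map_one, Units.val_one, one_smul, Matrix.transpose_one]
      map_mul' := fun g h => by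
        rw [_root_.mul_inv_rev, hFm, map_mul, Units.val_mul, Matrix.transpose_mul, mul_smul,
          Matrix.smul_mul, Matrix.mul_smul] }
  have hcF' : Continuous fun g => ((χ g : ℤ_[p]ˣ) : ℤ_[p]) • (F g⁻¹)ᵀ :=
    (Units.continuous_val.comp hχ).smul ((hFc.comp continuous_inv).matrix_transpose)
  have hRc : Continuous R0.toHomUnits := by
    rw [Units.continuous_iff]
    refine ⟨hFc, ?_⟩
    have h1 : (fun g => (((R0.toHomUnits g)⁻¹ : (Matrix (Fin N) (Fin N) ℤ_[p])ˣ) :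
        Matrix (Fin N) (Fin N) ℤ_[p])) = fun g => F g⁻¹ := by
      funext g
      rw [← map_inv]
      rfl
    rw [h1]
    exact hFc.comp continuous_inv
  have hRc' : Continuous R0'.toHomUnits := by
    rw [Units.continuous_iff]
    refine ⟨hcF', ?_⟩
    have h1 : (fun g => (((R0'.toHomUnits g)⁻¹ : (Matrix (Fin N) (Fin N) ℤ_[p])ˣ) :
        Matrix (Fin N) (Fin N) ℤ_[p])) =
        fun g => ((χ g⁻¹ : ℤ_[p]ˣ) : ℤ_[p]) • (F g⁻¹⁻¹)ᵀ := by
      funext g
      rw [← map_inv]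
      rfl
    rw [h1]
    exact hcF'.comp continuous_inv
  have hRR : ∀ g, (F g)ᵀ * (((χ g : ℤ_[p]ˣ) : ℤ_[p]) • (F g⁻¹)ᵀ) =
      ((χ g : ℤ_[p]ˣ) : ℤ_[p]) • (1 : Matrix (Fin N) (Fin N) ℤ_[p]) := fun g => by
    rw [Matrix.mul_smul, ← Matrix.transpose_mul, ← hFm, inv_mul_cancel, hF1,
      Matrix.transpose_one]
  -- the functional
  obtain ⟨lam, hlam⟩ : ∃ lam : L →ₗ[ℚ_[p]] ℚ_[p], lam ≠ 0 := by
    have h1 : 0 < Module.finrank ℚ_[p] L := Module.finrank_pos
    refine ⟨(Module.finBasis ℚ_[p] L).coord ⟨0, h1⟩, fun h => ?_⟩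
    have h2 := congrArg (fun f : L →ₗ[ℚ_[p]] ℚ_[p] => f (Module.finBasis ℚ_[p] L ⟨0, h1⟩)) h
    simp at h2
  -- the pairing
  have hsum : ∀ v v' : Fin n → L, ∑ i, b.repr v i * lam (b i ⬝ᵥ v') = lam (v ⬝ᵥ v') := by
    intro v v'
    have h1 : lam (v ⬝ᵥ v') = lam ((∑ i, b.repr v i • b i) ⬝ᵥ v') := by rw [b.sum_repr]
    rw [h1, sum_dotProduct, map_sum]
    refine Finset.sum_congr rfl fun i _ => ?_
    rw [smul_dotProduct, map_smul, smul_eq_mul]
  have hnd : ∀ v' : Fin n → L, (∀ i, lam (b i ⬝ᵥ v') = 0) → v' = 0 := by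
    intro v' hv'
    have h1 : ∀ v, lam (v ⬝ᵥ v') = 0 := fun v => by
      rw [← hsum]
      exact Finset.sum_eq_zero fun i _ => by rw [hv', mul_zero]
    funext i
    by_contra h2
    apply hlam
    ext d
    have h3 := h1 (Pi.single i (d / v' i))
    rw [single_dotProduct, div_mul_cancel₀ _ h2] at h3
    rw [h3, LinearMap.zero_apply]
  let E : (Fin n → L) →ₗ[ℚ_[p]] (Fin N → ℚ_[p]) :=
    { toFun := fun v' i => lam (b i ⬝ᵥ v')
      map_add' := fun x y => by
        funext i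
        rw [dotProduct_add, map_add]
        rfl
      map_smul' := fun c x => by
        funext i
        rw [dotProduct_smul, map_smul]
        rfl }
  have hEinj : Function.Injective E := by
    rw [injective_iff_map_eq_zero]
    intro v' hv'
    exact hnd v' fun i => congrFun hv' i
  let Φ' : (Fin n → L) ≃ₗ[ℚ_[p]] (Fin N → ℚ_[p]) :=
    LinearMap.linearEquivOfInjective E hEinj (by rw [hfr, Module.finrank_fin_fun])
  have hΦ' : ∀ v' i, Φ' v' i = lam (b i ⬝ᵥ v') := fun v' i => rfl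
  have hpair : ∀ v v', b.equivFun v ⬝ᵥ Φ' v' = lam (v ⬝ᵥ v') := fun v v' => hsum v v'
  have hΦ : ∀ g v, b.equivFun ((ρ g : Matrix (Fin n) (Fin n) L) *ᵥ v) =
      ((F g).map (algebraMap ℤ_[p] ℚ_[p])) *ᵥ b.equivFun v := by
    intro g v
    rw [hFmap]
    exact (LinearMap.toMatrix_mulVec_repr b b (act g) v).symm
  refine ⟨N, R0.toHomUnits, R0'.toHomUnits, lam, b.equivFun, Φ', hN, hRc, hRc', hlam, hRR, hΦ,
    fun g v' => ?_, hpair⟩
  change Φ' ((ρ' g : Matrix (Fin n) (Fin n) L) *ᵥ v') =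
    ((((χ g : ℤ_[p]ˣ) : ℤ_[p]) • (F g⁻¹)ᵀ).map (algebraMap ℤ_[p] ℚ_[p])) *ᵥ Φ' v'
  have h1 : ∀ u, b.equivFun ((ρ g : Matrix (Fin n) (Fin n) L) *ᵥ u) ⬝ᵥ
      Φ' ((ρ' g : Matrix (Fin n) (Fin n) L) *ᵥ v') =
      b.equivFun ((ρ g : Matrix (Fin n) (Fin n) L) *ᵥ u) ⬝ᵥ
      (((((χ g : ℤ_[p]ˣ) : ℤ_[p]) • (F g⁻¹)ᵀ).map (algebraMap ℤ_[p] ℚ_[p])) *ᵥ Φ' v') := by
    intro u
    have h2 : ((F g).map (algebraMap ℤ_[p] ℚ_[p]))ᵀ *
        ((((χ g : ℤ_[p]ˣ) : ℤ_[p]) • (F g⁻¹)ᵀ).map (algebraMap ℤ_[p] ℚ_[p])) =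
        (((χ g : ℤ_[p]ˣ) : ℤ_[p]) : ℚ_[p]) • (1 : Matrix (Fin N) (Fin N) ℚ_[p]) := by
      rw [← Matrix.transpose_map, ← Matrix.map_mul, hRR]
      ext i j
      by_cases hij : i = j
      · subst hij
        simp
      · simp [Matrix.one_apply_ne hij]
    rw [hpair, hΦ, dot_mulVec, dot_mulVec, hdual, h2, Matrix.smul_mulVec, Matrix.one_mulVec,
      Matrix.smul_mulVec, Matrix.one_mulVec, dotProduct_smul, dotProduct_smul, hpair]
    change lam (chi χ L g * (u ⬝ᵥ v')) = _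
    rw [chi, ← Algebra.smul_def, map_smul]
  funext i
  have h3 := h1 ((ρ g⁻¹ : Matrix (Fin n) (Fin n) L) *ᵥ b.equivFun.symm (Pi.single i 1))
  have h4 : (ρ g : Matrix (Fin n) (Fin n) L) *ᵥ
      ((ρ g⁻¹ : Matrix (Fin n) (Fin n) L) *ᵥ b.equivFun.symm (Pi.single i 1)) =
      b.equivFun.symm (Pi.single i 1) := by
    rw [Matrix.mulVec_mulVec, ← Units.val_mul, ← map_mul, mul_inv_cancel, map_one,
      Units.val_one, Matrix.one_mulVec]
  rw [h4, LinearEquiv.apply_symm_apply, single_one_dotProduct, single_one_dotProduct] at h3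
  exact h3

end BKND
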