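import Mathlib
import Pool.Agent.Lib.MP_7c08ba_nt.ND.Red

set_option autoImplicit false

/-!
A uniform exponent for the invariants of the reductions (used by LIM1 and LIM2).
-/

noncomputable section

namespace BKND

open Matrix

universe u

namespace Lim1

variable {p : ℕ} [Fact p.Prime] {N r : ℕ}

theorem rv_eq_zero_iff_norm (k : ℕ) (v : Fin N → ℤ_[p]) :
    Red.rv k v = 0 ↔ ‖v‖ ≤ (p : ℝ) ^ (-(k : ℤ)) := by
  have hp : (0 : ℝ) < (p : ℝ) ^ (-(k : ℤ)) :=
    zpow_pos (by exact_mod_cast (Fact.out : p.Prime).pos) _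
  rw [pi_norm_le_iff_of_nonneg hp.le]
  constructor
  · intro h i
    rw [PadicInt.norm_le_pow_iff_mem_span_pow, ← PadicInt.ker_toZModPow]
    exact congrFun h i
  · intro h
    funext i
    have h1 := h i
    rw [PadicInt.norm_le_pow_iff_mem_span_pow, ← PadicInt.ker_toZModPow] at h1
    exact h1

theorem norm_pow_smul (j : ℕ) (u : Fin N → ℤ_[p]) :
    ‖(p : ℤ_[p]) ^ j • u‖ = (p : ℝ) ^ (-(j : ℤ)) * ‖u‖ := by
  rw [norm_smul, PadicInt.norm_p_pow]

theorem exists_primitive (v : Fin N → ℤ_[p]) (hv : v ≠ 0) :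
    ∃ (j : ℕ) (u : Fin N → ℤ_[p]), ‖u‖ = 1 ∧ v = (p : ℤ_[p]) ^ j • u := by
  have hN : Nonempty (Fin N) := by
    by_contra h
    rw [not_nonempty_iff] at h
    exact hv (funext fun i => isEmptyElim i)
  obtain ⟨i, hi⟩ : ∃ i, ‖v i‖ = ‖v‖ := by
    obtain ⟨i, hi⟩ := Finite.exists_max fun i => ‖v i‖
    exact ⟨i, le_antisymm (norm_le_pi_norm v i)
      ((pi_norm_le_iff_of_nonneg (norm_nonneg _)).2 hi)⟩
  have hvi : v i ≠ 0 := by
    rw [← norm_ne_zero_iff, hi, norm_ne_zero_iff]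
    exact hv
  have h1 : ‖v‖ = (p : ℝ) ^ (-((v i).valuation : ℤ)) := by
    rw [← hi, PadicInt.norm_eq_zpow_neg_valuation hvi]
  obtain ⟨u, hu⟩ := (Red.rv_eq_zero_iff (v i).valuation v).1
    ((rv_eq_zero_iff_norm _ v).2 h1.le)
  refine ⟨(v i).valuation, u, ?_, hu⟩
  have h2 := norm_pow_smul (p := p) (v i).valuation u
  rw [← hu, h1] at h2
  have hp : (0 : ℝ) < (p : ℝ) ^ (-((v i).valuation : ℤ)) :=
    zpow_pos (by exact_mod_cast (Fact.out : p.Prime).pos) _
  exact (mul_left_cancel₀ hp.ne' (by rw [mul_one]; exact h2)).symm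

/-- A family of linear maps which is jointly injective over `ℤ_p` is injective modulo `p ^ k` up
to a uniform exponent. -/
theorem exists_uniform {ι : Type*}
    (T : ι → (Fin r → ℤ_[p]) →ₗ[ℤ_[p]] (Fin N → ℤ_[p]))
    (hT : ∀ a, (∀ i, T i a = 0) → a = 0) :
    ∃ c : ℕ, ∀ (k : ℕ) (a : Fin r → ℤ_[p]), (∀ i, Red.rv k (T i a) = 0) →
      Red.rv k ((p : ℤ_[p]) ^ c • a) = 0 := by
  have hp1 : (1 : ℝ) < p := by exact_mod_cast (Fact.out : p.Prime).one_lt
  have hp0 : (0 : ℝ) < p := by linarith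
  let C : ℕ → Set (Fin r → ℤ_[p]) := fun e =>
    {u | ‖u‖ = 1 ∧ ∀ i, ‖T i u‖ ≤ (p : ℝ) ^ (-(e : ℤ))}
  have hclosed : ∀ e, IsClosed (C e) := by
    intro e
    have h1 : C e = {u : Fin r → ℤ_[p] | ‖u‖ = 1} ∩
        ⋂ i, {u : Fin r → ℤ_[p] | ‖T i u‖ ≤ (p : ℝ) ^ (-(e : ℤ))} := by
      ext u
      simp [C]
    rw [h1]
    refine IsClosed.inter (isClosed_eq continuous_norm continuous_const) ?_
    refine isClosed_iInter fun i => isClosed_le ?_ continuous_const
    exact continuous_norm.comp (LinearMap.continuous_on_pi (T i))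
  have hmono : ∀ e, C (e + 1) ⊆ C e := by
    rintro e u ⟨hu, hu'⟩
    refine ⟨hu, fun i => (hu' i).trans ?_⟩
    exact zpow_le_zpow_right₀ hp1.le (by push_cast; linarith)
  obtain ⟨c, hc⟩ : ∃ c, C c = ∅ := by
    by_contra hcon
    have hne : ∀ e, (C e).Nonempty := by
      intro e
      rw [Set.nonempty_iff_ne_empty]
      exact fun h => hcon ⟨e, h⟩
    obtain ⟨u, hu⟩ := IsCompact.nonempty_iInter_of_sequence_nonempty_isCompact_isClosed C hmono
      hne (hclosed 0).isCompact hclosed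
    rw [Set.mem_iInter] at hu
    have hu0 : u = 0 := by
      refine hT u fun i => ?_
      rw [← norm_le_zero_iff]
      have h2 : Filter.Tendsto (fun e : ℕ => (p : ℝ) ^ (-(e : ℤ))) Filter.atTop (nhds 0) := by
        have h3 : (fun e : ℕ => (p : ℝ) ^ (-(e : ℤ))) = fun e : ℕ => ((p : ℝ)⁻¹) ^ e := by
          funext e
          rw [_root_.zpow_neg, zpow_natCast, inv_pow]
        rw [h3]
        exact tendsto_pow_atTop_nhds_zero_of_lt_one (inv_nonneg.2 hp0.le)
          (inv_lt_one_of_one_lt₀ hp1)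
      exact ge_of_tendsto' h2 fun e => (hu e).2 i
    have h4 := (hu 0).1
    rw [hu0, norm_zero] at h4
    exact zero_ne_one h4
  refine ⟨c, fun k a ha => ?_⟩
  by_cases ha0 : a = 0
  · rw [ha0, smul_zero, map_zero]
  obtain ⟨j, u, hu, rfl⟩ := exists_primitive a ha0
  by_contra hcon
  have hjk : c + j < k := by
    by_contra hle
    rw [not_lt] at hle
    apply hcon
    rw [rv_eq_zero_iff_norm, smul_smul, ← pow_add, norm_pow_smul, hu, mul_one]
    exact zpow_le_zpow_right₀ hp1.le (by omega)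
  have hmem : u ∈ C c := by
    refine ⟨hu, fun i => ?_⟩
    have h1 := ha i
    rw [rv_eq_zero_iff_norm, map_smul, norm_pow_smul] at h1
    have hpj : (0 : ℝ) < (p : ℝ) ^ (-(j : ℤ)) := zpow_pos hp0 _
    have h2 : ‖T i u‖ ≤ (p : ℝ) ^ (-(k : ℤ)) / (p : ℝ) ^ (-(j : ℤ)) := by
      rw [le_div_iff₀ hpj, mul_comm]
      exact h1
    refine h2.trans ?_
    rw [← zpow_sub₀ hp0.ne']
    exact zpow_le_zpow_right₀ hp1.le (by omega)
  rw [hc] at hmem
  exact hmem

end Lim1

/-- A uniform exponent for the invariants of the reductions. -/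
theorem exists_exponent {p : ℕ} [Fact p.Prime] {G : Type*} [Group G] {N : ℕ}
    (R' : G →* GL (Fin N) ℤ_[p])
    (hinv : ∀ v : Fin N → ℤ_[p],
      (∀ g, (R' g : Matrix (Fin N) (Fin N) ℤ_[p]) *ᵥ v = v) → v = 0) :
    ∃ e : ℕ, ∀ (k : ℕ), ∀ m' ∈ H0 (Red.act R' k), (p ^ e) • m' = 0 := by
  obtain ⟨e, he⟩ := Lim1.exists_uniform
    (fun g => ((R' g : Matrix (Fin N) (Fin N) ℤ_[p]).mulVecLin - LinearMap.id)) (by
      intro a ha
      refine hinv a fun g => ?_
      have := ha g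
      rw [LinearMap.sub_apply, Matrix.mulVecLin_apply, LinearMap.id_apply, sub_eq_zero] at this
      exact this)
  refine ⟨e, fun k m' hm' => ?_⟩
  obtain ⟨v, rfl⟩ := Red.rv_surjective k m'
  have h1 := he k v (by
    intro g
    rw [LinearMap.sub_apply, Matrix.mulVecLin_apply, LinearMap.id_apply, map_sub,
      ← Red.act_rv, hm' g, sub_self])
  rw [Red.rv_smul, map_pow, map_natCast] at h1
  rw [← h1]
  funext i
  simp [nsmul_eq_mul]

end BKND
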