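import Mathlib
import Pool.Agent.Lib.MP_7c08ba_nt.ND.Expo

set_option autoImplicit false

/-!
Module LIM1: the rank of the cocycles with values in `ℤ_p^N`.
-/

noncomputable section

namespace BKND

open Matrix

universe u

namespace Lim1

variable {p : ℕ} [Fact p.Prime]

/-- the number of elements of `(ℤ/p^k)^N` killed by `p ^ e` -/
theorem card_torsion_le (e k N : ℕ) (S : Set (Fin N → ZMod (p ^ k)))
    (hS : ∀ s ∈ S, (p ^ e) • s = 0) : Nat.card S ≤ (p ^ e) ^ N := by
  classical
  have hp : 0 < p := (Fact.out : p.Prime).pos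
  have : NeZero (p ^ k) := ⟨pow_ne_zero _ hp.ne'⟩
  have h1 : Nat.card {y : ZMod (p ^ k) // (p ^ e) • y = 0} ≤ p ^ e := by
    have h2 := IsAddCyclic.card_nsmul_eq_zero_le (α := ZMod (p ^ k)) (n := p ^ e)
      (pow_pos hp e)
    rw [Nat.card_eq_fintype_card, Fintype.card_subtype]
    convert h2
  let F : S → (Fin N → {y : ZMod (p ^ k) // (p ^ e) • y = 0}) := fun s i =>
    ⟨(s : Fin N → ZMod (p ^ k)) i, congrFun (hS s s.2) i⟩
  have hF : Function.Injective F := by
    intro s t h
    apply Subtype.ext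
    funext i
    exact congrArg Subtype.val (congrFun h i)
  calc Nat.card S ≤ Nat.card (Fin N → {y : ZMod (p ^ k) // (p ^ e) • y = 0}) :=
        Nat.card_le_card_of_injective F hF
    _ = (Nat.card {y : ZMod (p ^ k) // (p ^ e) • y = 0}) ^ N := by
        rw [Nat.card_fun, Nat.card_eq_fintype_card (α := Fin N), Fintype.card_fin]
    _ ≤ (p ^ e) ^ N := Nat.pow_le_pow_left h1 N

/-- counting: a homomorphism with kernel killed by `p ^ c` -/
theorem card_le_of_ker {p : ℕ} [Fact p.Prime] (c k r : ℕ) {A : Type*} [AddCommGroup A] [Finite A]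
    (f : (Fin r → ZMod (p ^ k)) →+ A) (hf : ∀ s, f s = 0 → (p ^ c) • s = 0) :
    (p ^ k) ^ r ≤ (p ^ c) ^ r * Nat.card A := by
  have h1 : Nat.card (f.ker : Set (Fin r → ZMod (p ^ k))) ≤ (p ^ c) ^ r :=
    card_torsion_le c k r _ fun s hs => hf s hs
  have h2 : Nat.card f.range ≤ Nat.card A := Nat.card_le_card_of_injective _ Subtype.val_injective
  have h3 := f.ker.card_mul_index
  rw [AddSubgroup.index_ker] at h3
  have h4 : Nat.card (Fin r → ZMod (p ^ k)) = (p ^ k) ^ r := by
    rw [Nat.card_fun, Nat.card_zmod, Nat.card_eq_fintype_card (α := Fin r), Fintype.card_fin]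
  rw [← h4, ← h3]
  exact Nat.mul_le_mul h1 h2

end Lim1

theorem stLim1 (hE : StE.{u}) : StLim1.{u} := by
  intro p _ G _ _ _ _ _ χ m hD N R R' hR hR' h hinv r x hx hlin
  obtain ⟨e, he⟩ := exists_exponent R' hinv
  -- the uniform exponent for the cocycles
  obtain ⟨c, hc⟩ := Lim1.exists_uniform
    (fun g : G => ∑ i, (LinearMap.proj i : (Fin r → ℤ_[p]) →ₗ[ℤ_[p]] ℤ_[p]).smulRight (x i g))
    (by
      intro a ha
      rw [Fintype.linearIndependent_iff] at hlin
      refine funext fun i => hlin a ?_ i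
      funext g
      have h1 := ha g
      rw [LinearMap.sum_apply] at h1
      simpa [LinearMap.smulRight_apply] using h1)
  have key : ∀ k : ℕ, (p ^ k) ^ r ≤ (p ^ c) ^ r * ((p ^ e) ^ N * ((p ^ k) ^ N) ^ (m + 1)) := by
    intro k
    have : NeZero (p ^ k) := ⟨pow_ne_zero _ (Fact.out : p.Prime).ne_zero⟩
    obtain ⟨hfin, hcard⟩ := hE p G χ m hD k (Red.pair R R' hR hR' h k)
    have hfin' : Finite (Z1 (Red.act R k)) := hfin
    have hcard' : Nat.card (Z1 (Red.act R k)) ≤
        Nat.card (H0 (Red.act R' k)) * Nat.card (Fin N → ZMod (p ^ k)) ^ (m + 1) := hcard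
    have hH0 : Nat.card (H0 (Red.act R' k)) ≤ (p ^ e) ^ N :=
      Lim1.card_torsion_le e k N _ fun s hs => he k s hs
    have hM : Nat.card (Fin N → ZMod (p ^ k)) = (p ^ k) ^ N := by
      rw [Nat.card_fun, Nat.card_zmod, Nat.card_eq_fintype_card (α := Fin N), Fintype.card_fin]
    rw [hM] at hcard'
    -- the reduction map
    let f0 : (Fin r → ZMod (p ^ k)) →+ (G → Fin N → ZMod (p ^ k)) :=
      { toFun := fun a g => ∑ i, a i • Red.rv k (x i g)
        map_zero' := by
          funext g
          simp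
        map_add' := by
          intro a b
          funext g
          simp only [Pi.add_apply, add_smul, Finset.sum_add_distrib] }
    have hf0 : ∀ a, f0 a ∈ Z1 (Red.act R k) := by
      intro a
      have hx1 : ∀ i, (fun g => Red.rv k (x i g)) ∈ Z1 (Red.act R k) := by
        intro i
        refine ⟨Red.loc1_rv (hx i).1 k, fun g g' => ?_⟩
        change Red.rv k (x i (g * g')) = Red.rv k (x i g) + Red.act R k g (Red.rv k (x i g'))
        rw [(hx i).2, map_add, Red.act_rv]
      have hsum : f0 a = ∑ i, (a i).val • (fun g => Red.rv k (x i g)) := by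
        funext g
        change ∑ i, a i • Red.rv k (x i g) = _
        rw [Finset.sum_apply]
        refine Finset.sum_congr rfl fun i _ => ?_
        rw [Pi.smul_apply]
        funext j
        rw [Pi.smul_apply, Pi.smul_apply, nsmul_eq_mul, ZMod.natCast_zmod_val, smul_eq_mul]
      rw [hsum]
      exact sum_mem fun i _ => nsmul_mem (hx1 i) _
    let f : (Fin r → ZMod (p ^ k)) →+ Z1 (Red.act R k) := f0.codRestrict _ hf0
    have hker : ∀ s, f s = 0 → (p ^ c) • s = 0 := by
      intro s hs
      obtain ⟨a, rfl⟩ := Red.rv_surjective k s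
      have h0 : f0 (Red.rv k a) = 0 := congrArg Subtype.val hs
      have h1 := hc k a (by
        intro g
        rw [LinearMap.sum_apply, map_sum]
        have h2 := congrFun h0 g
        change ∑ i, Red.rv k a i • Red.rv k (x i g) = 0 at h2
        rw [← h2]
        refine Finset.sum_congr rfl fun i _ => ?_
        rw [LinearMap.smulRight_apply, LinearMap.proj_apply, Red.rv_smul, Red.rv_apply])
      rw [Red.rv_smul, map_pow, map_natCast] at h1
      rw [← h1]
      funext i
      simp [nsmul_eq_mul]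
    have h5 := Lim1.card_le_of_ker c k r f hker
    exact h5.trans (Nat.mul_le_mul_left _ (hcard'.trans (Nat.mul_le_mul_right _ hH0)))
  by_contra hcon
  rw [not_le] at hcon
  have hp1 : 1 < p := (Fact.out : p.Prime).one_lt
  have h6 := key (c * r + e * N + 1)
  simp only [← pow_mul, ← pow_add] at h6
  have h7 := (Nat.pow_le_pow_iff_right hp1).1 h6
  have h8 : (m + 1) * N + 1 ≤ r := hcon
  have h9 : (c * r + e * N + 1) * ((m + 1) * N + 1) ≤ (c * r + e * N + 1) * r :=
    Nat.mul_le_mul_left _ h8
  nlinarith [h7, h9]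

end BKND
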