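import Mathlib
import Pool.Agent.Lib.MP_7c08ba_nt.ND.Red

set_option autoImplicit false

/-!
Module LIM2: nondegeneracy of the cup product with values in `ℤ_p`, by passing to the limit.
-/

set_option linter.overlappingInstances false
set_option linter.unusedSectionVars false

noncomputable section

namespace BKND

open BKPar (Loc1 Loc2)
open Matrix Filter Topology

universe u

namespace Lim2

open Red

section Vec

variable {p : ℕ} [Fact p.Prime] {N : ℕ}

/-- congruences modulo lower powers -/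
theorem rv_mono {a b : ℕ} (h : a ≤ b) {v w : Fin N → ℤ_[p]} (hv : rv b v = rv b w) :
    rv a v = rv a w := by
  have h1 : rv b (v - w) = 0 := by rw [map_sub, hv, sub_self]
  obtain ⟨u, hu⟩ := (rv_eq_zero_iff b _).1 h1
  have h2 : rv a (v - w) = 0 := (rv_eq_zero_iff a _).2 ⟨(p : ℤ_[p]) ^ (b - a) • u, by
    rw [smul_smul, ← pow_add, Nat.add_sub_cancel' h, hu]⟩
  rw [map_sub, sub_eq_zero] at h2
  exact h2

theorem pow_smul_inj (k : ℕ) {v w : Fin N → ℤ_[p]}
    (h : (p : ℤ_[p]) ^ k • v = (p : ℤ_[p]) ^ k • w) : v = w := by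
  have hp : (p : ℤ_[p]) ^ k ≠ 0 :=
    pow_ne_zero _ (by exact_mod_cast (Fact.out : p.Prime).ne_zero)
  funext i
  have := congrFun h i
  rw [Pi.smul_apply, Pi.smul_apply, smul_eq_mul, smul_eq_mul] at this
  exact mul_left_cancel₀ hp this

/-- division of congruences by powers of `p` -/
theorem rv_of_pow_smul (k j : ℕ) {v w : Fin N → ℤ_[p]}
    (h : rv (k + j) ((p : ℤ_[p]) ^ k • v) = rv (k + j) ((p : ℤ_[p]) ^ k • w)) :
    rv j v = rv j w := by
  have h1 : rv (k + j) ((p : ℤ_[p]) ^ k • (v - w)) = 0 := by rw [smul_sub, map_sub, h, sub_self]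
  obtain ⟨u, hu⟩ := (rv_eq_zero_iff _ _).1 h1
  rw [pow_add, mul_smul] at hu
  have h2 : rv j (v - w) = 0 := (rv_eq_zero_iff j _).2 ⟨u, pow_smul_inj k hu⟩
  rw [map_sub, sub_eq_zero] at h2
  exact h2

theorem eq_of_rv {v w : Fin N → ℤ_[p]} (h : ∀ k, rv k v = rv k w) : v = w := by
  funext i
  exact PadicInt.ext_of_toZModPow.1 (fun k => congrFun (h k) i)

theorem isLocallyConstant_rv (k : ℕ) : IsLocallyConstant (fun v : Fin N → ℤ_[p] => rv k v) := by
  rw [IsLocallyConstant.iff_eventually_eq]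
  intro v
  have h : ∀ i, ∀ᶠ w in 𝓝 v, PadicInt.toZModPow k (w i) = PadicInt.toZModPow k (v i) := fun i =>
    ((isLocallyConstant_toZModPow k).comp_continuous (continuous_apply i)).eventually_eq v
  filter_upwards [Filter.eventually_all.2 h] with w hw
  funext i
  exact hw i

/-- continuity from the reductions -/
theorem continuous_of_rv {X : Type*} [TopologicalSpace X] {f : X → Fin N → ℤ_[p]}
    (h : ∀ k, ∃ l ≥ k, IsLocallyConstant (fun x => rv l (f x))) : Continuous f := by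
  rw [continuous_pi_iff]
  intro i
  rw [Metric.continuous_iff']
  intro a ε hε
  obtain ⟨k, hk⟩ := PadicInt.exists_pow_neg_lt p hε
  obtain ⟨l, hl, hl'⟩ := h k
  filter_upwards [hl'.eventually_eq a] with x hx
  have h1 : rv k (f x) = rv k (f a) := rv_mono hl hx
  have h2 : PadicInt.toZModPow k (f x i - f a i) = 0 := by
    rw [map_sub, sub_eq_zero]
    exact congrFun h1 i
  have h3 : f x i - f a i ∈ RingHom.ker (PadicInt.toZModPow k : ℤ_[p] →+* ZMod (p ^ k)) := h2
  rw [PadicInt.ker_toZModPow, ← PadicInt.norm_le_pow_iff_mem_span_pow] at h3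
  rw [dist_eq_norm]
  exact lt_of_le_of_lt h3 hk

/-- intersections of decreasing sequences of closed sets in compact spaces -/
theorem exists_mem_all {X : Type*} [TopologicalSpace X] [CompactSpace X] (t : ℕ → Set X)
    (h1 : ∀ i, t (i + 1) ⊆ t i) (h2 : ∀ i, (t i).Nonempty) (h3 : ∀ i, IsClosed (t i)) :
    ∃ x, ∀ i, x ∈ t i := by
  obtain ⟨x, hx⟩ := IsCompact.nonempty_iInter_of_sequence_nonempty_isCompact_isClosed t h1 h2
    (h3 0).isCompact h3
  exact ⟨x, Set.mem_iInter.1 hx⟩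

theorem isClosed_rv_eq {X : Type*} [TopologicalSpace X] (k : ℕ) {f f' : X → Fin N → ℤ_[p]}
    (hf : Continuous f) (hf' : Continuous f') : IsClosed {x | rv k (f x) = rv k (f' x)} := by
  have e : {x | rv k (f x) = rv k (f' x)} = {x | rv k (f x - f' x) = 0} := by
    ext x
    change rv k (f x) = rv k (f' x) ↔ rv k (f x - f' x) = 0
    rw [map_sub, sub_eq_zero]
  rw [e]
  have h := (isLocallyConstant_rv (p := p) (N := N) k).comp_continuous (hf.sub hf')
  exact (h.isClosed_fiber 0)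

/-- the exponent of the invariants of the reductions is bounded -/
theorem exists_exponent {G : Type*} [Group G] (R' : G →* GL (Fin N) ℤ_[p])
    (h0 : ∀ v : Fin N → ℤ_[p], (∀ g, (R' g : Matrix (Fin N) (Fin N) ℤ_[p]) *ᵥ v = v) → v = 0) :
    ∃ e : ℕ, ∀ k, ∀ v : Fin N → ℤ_[p],
      (∀ g, rv k ((R' g : Matrix (Fin N) (Fin N) ℤ_[p]) *ᵥ v) = rv k v) →
        rv k ((p : ℤ_[p]) ^ e • v) = 0 := by
  by_contra hcon
  push Not at hcon
  refine absurd (exists_mem_all (fun n => {w : Fin N → ℤ_[p] | rv 1 w ≠ 0 ∧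
    ∀ g, rv n ((R' g : Matrix (Fin N) (Fin N) ℤ_[p]) *ᵥ w) = rv n w}) ?_ ?_ ?_) ?_
  · rintro n w ⟨h1, h2⟩
    exact ⟨h1, fun g => rv_mono (Nat.le_succ n) (h2 g)⟩
  · intro n
    obtain ⟨k, v, h1, h2⟩ := hcon n
    have h3 : ∃ b, rv b v ≠ 0 := ⟨k, fun h => h2 (by rw [rv_smul, h, smul_zero])⟩
    classical
    have h4 := Nat.find_spec h3
    have h5 : Nat.find h3 ≠ 0 := by
      intro h
      rw [h] at h4
      apply h4
      rw [rv_eq_zero_iff]
      exact ⟨v, by rw [pow_zero, one_smul]⟩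
    obtain ⟨a, ha⟩ := Nat.exists_eq_succ_of_ne_zero h5
    have h6 : rv a v = 0 := by
      by_contra h
      have := Nat.find_min' h3 h
      omega
    rw [ha] at h4
    obtain ⟨w, hw⟩ := (rv_eq_zero_iff a v).1 h6
    have h7 : a + n ≤ k := by
      by_contra h
      apply h2
      rw [hw, smul_smul, ← pow_add, rv_eq_zero_iff]
      refine ⟨(p : ℤ_[p]) ^ (n + a - k) • w, ?_⟩
      rw [smul_smul, ← pow_add]
      congr 2
      omega
    refine ⟨w, fun h => h4 ?_, fun g => ?_⟩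
    · obtain ⟨u, hu⟩ := (rv_eq_zero_iff 1 w).1 h
      rw [rv_eq_zero_iff]
      exact ⟨u, by rw [hw, hu, smul_smul, ← pow_add]⟩
    · apply rv_of_pow_smul a n
      rw [← Matrix.mulVec_smul, ← hw]
      exact rv_mono h7 (h1 g)
  · intro n
    have e : {w : Fin N → ℤ_[p] | rv 1 w ≠ 0 ∧
        ∀ g, rv n ((R' g : Matrix (Fin N) (Fin N) ℤ_[p]) *ᵥ w) = rv n w} =
        {w | rv 1 w ≠ 0} ∩ ⋂ g, {w | rv n ((R' g : Matrix (Fin N) (Fin N) ℤ_[p]) *ᵥ w) =
          rv n w} := by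
      ext w
      simp only [Set.mem_ofPred_eq, Set.mem_inter_iff, Set.mem_iInter]
    rw [e]
    refine IsClosed.inter ?_ (isClosed_iInter fun g => isClosed_rv_eq n
      (Continuous.matrix_mulVec continuous_const continuous_id) continuous_id)
    have h := (isLocallyConstant_rv (p := p) (N := N) 1).isOpen_fiber 0
    exact h.isClosed_compl
  · rintro ⟨w, hw⟩
    have h1 : w = 0 := h0 w fun g => eq_of_rv fun n => (hw n).2 g
    exact (hw 0).1 (by rw [h1, map_zero])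

end Vec

section Group

variable {p : ℕ} [Fact p.Prime] {N : ℕ}
variable {G : Type u} [Group G]

/-- the coboundary of a one-cochain -/
def dd (R : G →* GL (Fin N) ℤ_[p]) (x : G → Fin N → ℤ_[p]) (g h : G) : Fin N → ℤ_[p] :=
  (R g : Matrix (Fin N) (Fin N) ℤ_[p]) *ᵥ x h - x (g * h) + x g

theorem dd_dd (R : G →* GL (Fin N) ℤ_[p]) (x : G → Fin N → ℤ_[p]) (g h k : G) :
    (R g : Matrix (Fin N) (Fin N) ℤ_[p]) *ᵥ dd R x h k - dd R x (g * h) k + dd R x g (h * k) -
      dd R x g h = 0 := by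
  simp only [dd, Matrix.mulVec_add, Matrix.mulVec_sub, Matrix.mulVec_mulVec, map_mul,
    Units.val_mul, mul_assoc]
  abel

theorem rv_dd (R : G →* GL (Fin N) ℤ_[p]) (k : ℕ) (x : G → Fin N → ℤ_[p]) (g h : G) :
    rv k (dd R x g h) = act R k g (rv k (x h)) - rv k (x (g * h)) + rv k (x g) := by
  rw [act_rv, dd, map_add, map_sub]

variable [TopologicalSpace G]

theorem mem_Z1_iff (R : G →* GL (Fin N) ℤ_[p]) (k : ℕ) (x : G → Fin N → ℤ_[p]) :
    (fun g => rv k (x g)) ∈ Z1 (act R k) ↔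
      Loc1 (fun g => rv k (x g)) ∧ ∀ g h, rv k (dd R x g h) = 0 := by
  constructor
  · rintro ⟨h1, h2⟩
    refine ⟨h1, fun g h => ?_⟩
    have h3 : rv k (x (g * h)) = rv k (x g) + act R k g (rv k (x h)) := h2 g h
    rw [rv_dd, h3]
    abel
  · rintro ⟨h1, h2⟩
    refine ⟨h1, fun g h => ?_⟩
    have := h2 g h
    rw [rv_dd] at this
    have e : rv k (x (g * h)) = rv k (x g) + act R k g (rv k (x h)) -
      (act R k g (rv k (x h)) - rv k (x (g * h)) + rv k (x g)) := by abel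
    rw [this, sub_zero] at e
    exact e

variable [IsTopologicalGroup G] [CompactSpace G] [NonarchimedeanGroup G] {χ : G →* ℤ_[p]ˣ}

/-- lifts modulo `p ^ (k + j)` of `p ^ e f` -/
theorem exists_lift (hB : StB.{u}) {m : ℕ} (hD : Dat p G χ m) (R R' : G →* GL (Fin N) ℤ_[p])
    (hR : Continuous R) (hR' : Continuous R')
    (h : ∀ g, (R g : Matrix (Fin N) (Fin N) ℤ_[p])ᵀ * (R' g : Matrix (Fin N) (Fin N) ℤ_[p]) =
      ((χ g : ℤ_[p]ˣ) : ℤ_[p]) • (1 : Matrix (Fin N) (Fin N) ℤ_[p])) (e : ℕ)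
    (he : ∀ k, ∀ v : Fin N → ℤ_[p],
      (∀ g, rv k ((R' g : Matrix (Fin N) (Fin N) ℤ_[p]) *ᵥ v) = rv k v) →
        rv k ((p : ℤ_[p]) ^ e • v) = 0) (k j : ℕ) (f : G → Fin N → ZMod (p ^ k))
    (hf : f ∈ Z1 (act R k)) :
    ∃ F : G → Fin N → ℤ_[p], (fun g => rv (k + j) (F g)) ∈ Z1 (act R (k + j)) ∧
      ∀ g, rv k (F g) = PadicInt.toZModPow k ((p : ℤ_[p]) ^ e) • f g := by
  obtain ⟨hf1, hf2⟩ := hf
  have hs : ∀ l, ∃ s : (Fin N → ZMod (p ^ l)) → Fin N → ℤ_[p], ∀ w, rv l (s w) = w :=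
    fun l => ⟨Function.surjInv (rv_surjective l), Function.surjInv_eq (rv_surjective l)⟩
  obtain ⟨s, hs1⟩ := hs k
  obtain ⟨t, ht1⟩ := hs j
  have hψ : Loc1 (fun g => s (f g)) := Loc1.map hf1 s
  have hψc : Continuous (fun g => s (f g)) :=
    (BKPar.Lift.Loc1.isLocallyConstant hψ).continuous
  have h1 : ∀ g h, ∃ z, dd R (fun g => s (f g)) g h = (p : ℤ_[p]) ^ k • z := by
    intro g h
    rw [← rv_eq_zero_iff, rv_dd, hs1, hs1, hs1, hf2]
    abel
  choose z hz using h1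
  have hRc : ∀ i j, Continuous fun g => (R g : Matrix (Fin N) (Fin N) ℤ_[p]) i j := fun i j =>
    (Units.continuous_val.comp hR).matrix_elem i j
  have hRc' : Continuous fun g => (R g : Matrix (Fin N) (Fin N) ℤ_[p]) :=
    Units.continuous_val.comp hR
  have hdc : Continuous (Function.uncurry (dd R (fun g => s (f g)))) := by
    have e1 : Function.uncurry (dd R (fun g => s (f g))) = fun q : G × G =>
      (R q.1 : Matrix (Fin N) (Fin N) ℤ_[p]) *ᵥ s (f q.2) - s (f (q.1 * q.2)) + s (f q.1) := rfl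
    rw [e1]
    exact ((Continuous.matrix_mulVec (hRc'.comp continuous_fst) (hψc.comp continuous_snd)).sub
      (hψc.comp continuous_mul)).add (hψc.comp continuous_fst)
  have hz1 : Loc2 fun g h => rv j (z g h) := by
    have h2 : Loc2 fun g h => rv (k + j) (dd R (fun g => s (f g)) g h) := by
      apply BKPar.Lift.Loc2.of_isLocallyConstant
      exact (isLocallyConstant_rv (k + j)).comp_continuous hdc
    obtain ⟨W, hW, hW'⟩ := h2
    refine ⟨W, hW, fun g h w hw w' hw' => ?_⟩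
    apply rv_of_pow_smul k j
    rw [← hz, ← hz]
    exact hW' g h w hw w' hw'
  have hz2 : ∀ g h l, (R g : Matrix (Fin N) (Fin N) ℤ_[p]) *ᵥ z h l - z (g * h) l +
      z g (h * l) - z g h = 0 := by
    intro g h l
    apply pow_smul_inj k
    have h2 := dd_dd R (fun g => s (f g)) g h l
    rw [hz, hz, hz, hz, Matrix.mulVec_smul] at h2
    rw [smul_sub, smul_add, smul_sub, smul_zero]
    exact h2
  have hz3 : (fun g h => rv j ((p : ℤ_[p]) ^ e • z g h)) ∈ B2 (act R j) := by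
    refine hB p G χ m hD j (pair R R' hR hR' h j) _ ⟨?_, ?_⟩ ?_
    · obtain ⟨W, hW, hW'⟩ := hz1
      refine ⟨W, hW, fun g h w hw w' hw' => ?_⟩
      change rv j ((p : ℤ_[p]) ^ e • z (g * w) (h * w')) = rv j ((p : ℤ_[p]) ^ e • z g h)
      have h3 : rv j (z (g * w) (h * w')) = rv j (z g h) := hW' g h w hw w' hw'
      rw [rv_smul, rv_smul, h3]
    · intro g h l
      change act R j g (rv j ((p : ℤ_[p]) ^ e • z h l)) - rv j ((p : ℤ_[p]) ^ e • z (g * h) l) +
        rv j ((p : ℤ_[p]) ^ e • z g (h * l)) - rv j ((p : ℤ_[p]) ^ e • z g h) = 0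
      rw [act_rv, Matrix.mulVec_smul, ← map_sub, ← map_add, ← map_sub, ← smul_sub, ← smul_add,
        ← smul_sub, hz2, smul_zero, map_zero]
    · intro m' hm'
      obtain ⟨v, rfl⟩ := rv_surjective j m'
      have h3 : rv j ((p : ℤ_[p]) ^ e • v) = 0 := by
        apply he j v
        intro g
        rw [← act_rv]
        exact hm' g
      have h4 : (fun g h' => (pair R R' hR hR' h j).b (rv j ((p : ℤ_[p]) ^ e • z g h')) (rv j v)) =
          (0 : G → G → ZMod (p ^ j)) := by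
        funext g h'
        change rv j ((p : ℤ_[p]) ^ e • z g h') ⬝ᵥ rv j v = 0
        rw [rv_smul, smul_dotProduct, ← dotProduct_smul, ← rv_smul, h3, dotProduct_zero]
      rw [h4]
      exact (B2 (tw χ j)).zero_mem
  obtain ⟨γ, hγ, hγ'⟩ := hz3
  refine ⟨fun g => (p : ℤ_[p]) ^ e • s (f g) - (p : ℤ_[p]) ^ k • t (γ g), ?_, fun g => ?_⟩
  · rw [mem_Z1_iff]
    refine ⟨Loc1.map2 hf1 hγ fun a b => rv (k + j) ((p : ℤ_[p]) ^ e • s a -
      (p : ℤ_[p]) ^ k • t b), fun g h => ?_⟩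
    have e1 : dd R (fun g => (p : ℤ_[p]) ^ e • s (f g) - (p : ℤ_[p]) ^ k • t (γ g)) g h =
        (p : ℤ_[p]) ^ k • ((p : ℤ_[p]) ^ e • z g h - dd R (fun g => t (γ g)) g h) := by
      have e2 : dd R (fun g => (p : ℤ_[p]) ^ e • s (f g) - (p : ℤ_[p]) ^ k • t (γ g)) g h =
          (p : ℤ_[p]) ^ e • dd R (fun g => s (f g)) g h -
            (p : ℤ_[p]) ^ k • dd R (fun g => t (γ g)) g h := by
        simp only [dd, Matrix.mulVec_sub, Matrix.mulVec_smul, smul_sub, smul_add]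
        abel
      rw [e2, hz, smul_comm, smul_sub]
    have e3 : rv j ((p : ℤ_[p]) ^ e • z g h - dd R (fun g => t (γ g)) g h) = 0 := by
      rw [map_sub, rv_dd, ht1, ht1, ht1, sub_eq_zero]
      exact hγ' g h
    obtain ⟨w, hw⟩ := (rv_eq_zero_iff _ _).1 e3
    rw [e1, hw, smul_smul, ← pow_add, rv_eq_zero_iff]
    exact ⟨w, rfl⟩
  · change rv k ((p : ℤ_[p]) ^ e • s (f g) - (p : ℤ_[p]) ^ k • t (γ g)) = _
    have e1 : rv k ((p : ℤ_[p]) ^ k • t (γ g)) = 0 := (rv_eq_zero_iff _ _).2 ⟨_, rfl⟩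
    rw [map_sub, e1, sub_zero, rv_smul, hs1]

/-- multiples of smooth cocycles modulo `p ^ k` lift to continuous cocycles -/
theorem exists_cocycle (hB : StB.{u}) (hE : StE.{u}) {m : ℕ} (hD : Dat p G χ m)
    (R R' : G →* GL (Fin N) ℤ_[p]) (hR : Continuous R) (hR' : Continuous R')
    (h : ∀ g, (R g : Matrix (Fin N) (Fin N) ℤ_[p])ᵀ * (R' g : Matrix (Fin N) (Fin N) ℤ_[p]) =
      ((χ g : ℤ_[p]ˣ) : ℤ_[p]) • (1 : Matrix (Fin N) (Fin N) ℤ_[p])) (e : ℕ)
    (he : ∀ k, ∀ v : Fin N → ℤ_[p],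
      (∀ g, rv k ((R' g : Matrix (Fin N) (Fin N) ℤ_[p]) *ᵥ v) = rv k v) →
        rv k ((p : ℤ_[p]) ^ e • v) = 0) (k : ℕ) (f : G → Fin N → ZMod (p ^ k))
    (hf : f ∈ Z1 (act R k)) :
    ∃ x ∈ cZ1 R, ∀ g, rv k (x g) = PadicInt.toZModPow k ((p : ℤ_[p]) ^ e) • f g := by
  have hex : ∃ x : G → Fin N → ℤ_[p], ∀ j, x ∈ (fun j => {x : G → Fin N → ℤ_[p] |
    (fun g => rv (k + j) (x g)) ∈ Z1 (act R (k + j)) ∧
      ∀ g, rv k (x g) = PadicInt.toZModPow k ((p : ℤ_[p]) ^ e) • f g}) j := by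
    refine exists_mem_all _ ?_ ?_ ?_
    · rintro j x ⟨⟨h1, h2⟩, h3⟩
      refine ⟨⟨?_, fun g h => ?_⟩, h3⟩
      · obtain ⟨W, hW, hW'⟩ := h1
        exact ⟨W, hW, fun g w hw => rv_mono (Nat.le_succ (k + j)) (hW' g w hw)⟩
      · have h4 := h2 g h
        rw [act_rv, ← map_add] at h4 ⊢
        exact rv_mono (Nat.le_succ (k + j)) h4
    · intro j
      exact exists_lift hB hD R R' hR hR' h e he k j f hf
    · intro j
      have hfin : (Z1 (act R (k + j)) : Set (G → Fin N → ZMod (p ^ (k + j)))).Finite := by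
        have h1 := (hE p G χ m hD (k + j) (pair R R' hR hR' h (k + j))).1
        exact h1
      have e1 : {x : G → Fin N → ℤ_[p] | (fun g => rv (k + j) (x g)) ∈ Z1 (act R (k + j)) ∧
          ∀ g, rv k (x g) = PadicInt.toZModPow k ((p : ℤ_[p]) ^ e) • f g} =
          (⋃ F ∈ (Z1 (act R (k + j)) : Set (G → Fin N → ZMod (p ^ (k + j)))),
            ⋂ g, {x | rv (k + j) (x g) = F g}) ∩
          ⋂ g, {x | rv k (x g) = PadicInt.toZModPow k ((p : ℤ_[p]) ^ e) • f g} := by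
        ext x
        simp only [Set.mem_ofPred_eq, Set.mem_inter_iff, Set.mem_iInter, Set.mem_iUnion,
          SetLike.mem_coe, exists_prop]
        constructor
        · rintro ⟨h1, h2⟩
          exact ⟨⟨_, h1, fun g => rfl⟩, h2⟩
        · rintro ⟨⟨F, h1, h2⟩, h3⟩
          refine ⟨?_, h3⟩
          have e2 : (fun g => rv (k + j) (x g)) = F := funext h2
          rw [e2]
          exact h1
      rw [e1]
      have hcl : ∀ (l : ℕ) (g : G) (c : Fin N → ZMod (p ^ l)),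
          IsClosed {x : G → Fin N → ℤ_[p] | rv l (x g) = c} := by
        intro l g c
        exact ((isLocallyConstant_rv (p := p) (N := N) l).comp_continuous
          (continuous_apply g)).isClosed_fiber c
      exact IsClosed.inter (hfin.isClosed_biUnion fun F _ => isClosed_iInter fun g => hcl _ g _)
        (isClosed_iInter fun g => hcl _ g _)
  obtain ⟨x, hx⟩ := hex
  refine ⟨x, ⟨?_, fun g h => ?_⟩, (hx 0).2⟩
  · apply continuous_of_rv
    intro l
    exact ⟨k + l, Nat.le_add_left _ _, BKPar.Lift.Loc1.isLocallyConstant (hx l).1.1⟩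
  · apply eq_of_rv
    intro l
    have h1 := (hx l).1.2 g h
    rw [act_rv, ← map_add] at h1
    exact rv_mono (Nat.le_add_left l k) h1

end Group

end Lim2

open Red Lim2 in
theorem stLim2 (hA : StA.{u}) (hB : StB.{u}) (hE : StE.{u}) : StLim2.{u} := by
  intro p _ G _ _ _ _ _ χ m hD N R R' hR hR' h h0 y hy hyc
  obtain ⟨c, hc⟩ := hyc
  obtain ⟨e, he⟩ := exists_exponent R' h0
  have hyl : ∀ k, Loc1 fun g => rv k ((p : ℤ_[p]) ^ (c + e) • y g) := fun k =>
    loc1_rv (f := fun g => (p : ℤ_[p]) ^ (c + e) • y g)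
      (by
        have h1 : Continuous y := hy.1
        exact h1.const_smul ((p : ℤ_[p]) ^ (c + e))) k
  have hyz : ∀ k g h, rv k ((p : ℤ_[p]) ^ (c + e) • y (g * h)) =
      rv k ((p : ℤ_[p]) ^ (c + e) • y g) + act R' k g (rv k ((p : ℤ_[p]) ^ (c + e) • y h)) := by
    intro k g h
    rw [act_rv, ← map_add, hy.2, smul_add, Matrix.mulVec_smul]
  have key : ∀ k, ∃ v : Fin N → ℤ_[p], ∀ g, rv k ((p : ℤ_[p]) ^ (c + e) • y g) =
      rv k ((R' g : Matrix (Fin N) (Fin N) ℤ_[p]) *ᵥ v - v) := by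
    intro k
    have h2 : ∀ f : G → Fin N → ZMod (p ^ k), f ∈ Z1 (act R k) → (fun g h' =>
        act R k g (f h') ⬝ᵥ rv k ((p : ℤ_[p]) ^ (c + e) • y g)) ∈ B2 (tw χ k) := by
      intro f hf
      obtain ⟨x, hx, hx'⟩ := exists_cocycle hB hE hD R R' hR hR' h e he k f hf
      obtain ⟨β, hβ, hβ'⟩ := hc x hx
      have hf' : ∀ g h, f (g * h) = f g + act R k g (f h) := hf.2
      have hfl : Loc1 f := hf.1
      refine ⟨fun g => -(f g ⬝ᵥ rv k ((p : ℤ_[p]) ^ (c + e) • y g) +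
        PadicInt.toZModPow k (β g)), ?_, fun g h' => ?_⟩
      · exact Loc1.map2 (Loc1.map2 hfl (hyl k) fun a b => a ⬝ᵥ b)
          (loc1_of_continuous hβ k id) fun a b => -(a + b)
      · change act R k g (f h') ⬝ᵥ rv k ((p : ℤ_[p]) ^ (c + e) • y g) = _
        have e1 : ∀ a b : Fin N → ZMod (p ^ k), act R k g a ⬝ᵥ act R' k g b =
            tw χ k g (a ⬝ᵥ b) := (pair R R' hR hR' h k).eq g
        have e2 : f g ⬝ᵥ act R' k g (rv k ((p : ℤ_[p]) ^ (c + e) • y h')) =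
            tw χ k g (PadicInt.toZModPow k (β h')) - PadicInt.toZModPow k (β (g * h')) +
              PadicInt.toZModPow k (β g) := by
          have e3 := congrArg (PadicInt.toZModPow k) (hβ' g h')
          rw [map_add, map_sub, map_mul, map_mul] at e3
          have e4 : tw χ k g (PadicInt.toZModPow k (β h')) =
            PadicInt.toZModPow k ((χ g : ℤ_[p]ˣ) : ℤ_[p]) * PadicInt.toZModPow k (β h') := rfl
          rw [e4, ← e3]
          have e5 : PadicInt.toZModPow k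
              (x g ⬝ᵥ (R' g : Matrix (Fin N) (Fin N) ℤ_[p]) *ᵥ y h') =
              rv k (x g) ⬝ᵥ rv k ((R' g : Matrix (Fin N) (Fin N) ℤ_[p]) *ᵥ y h') := by
            simp only [dotProduct, map_sum, map_mul, rv_apply]
          rw [e5, hx', act_rv, Matrix.mulVec_smul, rv_smul, dotProduct_smul, smul_dotProduct,
            pow_add, map_mul, smul_eq_mul, smul_eq_mul, mul_assoc]
        have e6 : rv k ((p : ℤ_[p]) ^ (c + e) • y (g * h')) =
          rv k ((p : ℤ_[p]) ^ (c + e) • y g) +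
            act R' k g (rv k ((p : ℤ_[p]) ^ (c + e) • y h')) := hyz k g h'
        simp only [map_neg, map_add]
        rw [e6, hf' g h', ← e1 (f h') (rv k ((p : ℤ_[p]) ^ (c + e) • y h')), add_dotProduct,
          dotProduct_add, dotProduct_add, e2]
        abel
    have h1 : (fun g => rv k ((p : ℤ_[p]) ^ (c + e) • y g)) ∈ B1 (act R' k) :=
      hA p G χ m hD k (pair R R' hR hR' h k).flip _ ⟨hyl k, hyz k⟩ fun f hf => h2 f hf
    obtain ⟨w, hw⟩ := h1
    obtain ⟨v, rfl⟩ := rv_surjective k w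
    refine ⟨v, fun g => ?_⟩
    rw [map_sub, ← act_rv]
    exact hw g
  have hex : ∃ v : Fin N → ℤ_[p], ∀ k, v ∈ (fun k => {v : Fin N → ℤ_[p] | ∀ g,
      rv k ((p : ℤ_[p]) ^ (c + e) • y g) =
        rv k ((R' g : Matrix (Fin N) (Fin N) ℤ_[p]) *ᵥ v - v)}) k := by
    refine exists_mem_all _ (fun k v hv g => rv_mono (Nat.le_succ k) (hv g)) key ?_
    intro k
    rw [Set.ofPred_forall]
    exact isClosed_iInter fun g => isClosed_rv_eq k continuous_const
      ((Continuous.matrix_mulVec continuous_const continuous_id).sub continuous_id)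
  obtain ⟨v, hv⟩ := hex
  exact ⟨c + e, v, fun g => eq_of_rv fun k => hv k g⟩

end BKND
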