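import Mathlib
import Pool.Agent.Lib.MP_7c08ba_nt.ND.Stmts

set_option autoImplicit false

/-!
The local theorem for pro-`p` groups, with coefficients in a finite extension of `ℚ_p`, from the
case of `ℤ_p`-lattices.
-/

noncomputable section

namespace BKND

open Matrix

universe u

namespace NDp

variable {p : ℕ} [Fact p.Prime] {N : ℕ}

/-- the vector with rational coefficients -/
def cv (v : Fin N → ℤ_[p]) : Fin N → ℚ_[p] := fun i => (v i : ℚ_[p])

theorem cv_inj {v w : Fin N → ℤ_[p]} (h : cv v = cv w) : v = w := by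
  funext i
  have := congrFun h i
  exact Subtype.ext this

theorem cv_zero : cv (0 : Fin N → ℤ_[p]) = 0 := by
  funext i
  simp [cv]

theorem cv_add (v w : Fin N → ℤ_[p]) : cv (v + w) = cv v + cv w := by
  funext i
  simp [cv]

theorem cv_sub (v w : Fin N → ℤ_[p]) : cv (v - w) = cv v - cv w := by
  funext i
  simp [cv]

theorem cv_smul (a : ℤ_[p]) (v : Fin N → ℤ_[p]) : cv (a • v) = (a : ℚ_[p]) • cv v := by
  funext i
  simp [cv]

theorem cv_mulVec (A : Matrix (Fin N) (Fin N) ℤ_[p]) (v : Fin N → ℤ_[p]) :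
    cv (A *ᵥ v) = (A.map (algebraMap ℤ_[p] ℚ_[p])) *ᵥ cv v := by
  funext i
  exact RingHom.map_mulVec (algebraMap ℤ_[p] ℚ_[p]) A v i

theorem cv_dot (v w : Fin N → ℤ_[p]) : ((v ⬝ᵥ w : ℤ_[p]) : ℚ_[p]) = cv v ⬝ᵥ cv w :=
  RingHom.map_dotProduct (algebraMap ℤ_[p] ℚ_[p]) v w

theorem continuous_cv : Continuous (cv : (Fin N → ℤ_[p]) → _) :=
  continuous_pi fun i => continuous_subtype_val.comp (continuous_apply i)

theorem cv_sum {r : ℕ} (a : Fin r → ℤ_[p]) (v : Fin r → Fin N → ℤ_[p]) :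
    cv (∑ i, a i • v i) = ∑ i, (a i : ℚ_[p]) • cv (v i) := by
  have h : ∀ s : Finset (Fin r), cv (∑ i ∈ s, a i • v i) = ∑ i ∈ s, (a i : ℚ_[p]) • cv (v i) := by
    intro s
    classical
    induction s using Finset.induction_on with
    | empty => simp [cv_zero]
    | insert i s hi ih => rw [Finset.sum_insert hi, Finset.sum_insert hi, cv_add, cv_smul, ih]
  exact h _

theorem exists_pow (B : ℝ) : ∃ c : ℕ, ‖(p : ℚ_[p]) ^ c‖ * B ≤ 1 := by
  have hp : (0 : ℝ) ≤ (p : ℝ)⁻¹ := by positivity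
  have hp1 : (p : ℝ)⁻¹ < 1 :=
    inv_lt_one_of_one_lt₀ (by exact_mod_cast (Fact.out : p.Prime).one_lt)
  have h1 : Filter.Tendsto (fun c : ℕ => ((p : ℝ)⁻¹) ^ c * B) Filter.atTop (nhds (0 * B)) :=
    (tendsto_pow_atTop_nhds_zero_of_lt_one hp hp1).mul_const B
  rw [zero_mul] at h1
  obtain ⟨c, hc⟩ := (h1.eventually (gt_mem_nhds (zero_lt_one' ℝ))).exists
  refine ⟨c, ?_⟩
  rw [norm_pow, Padic.norm_p]
  exact hc.le

section Top

variable {G : Type u} [TopologicalSpace G] [CompactSpace G]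

theorem exists_bound {E : Type*} [NormedAddCommGroup E] {f : G → E} (hf : Continuous f) :
    ∃ B : ℝ, ∀ g, ‖f g‖ ≤ B := by
  obtain ⟨B, hB⟩ := isCompact_univ.exists_bound_of_continuousOn hf.continuousOn
  exact ⟨B, fun g => hB g (Set.mem_univ g)⟩

/-- scaling to integral values -/
theorem exists_scale {f : G → Fin N → ℚ_[p]} (hf : Continuous f) :
    ∃ (c : ℕ) (F : G → Fin N → ℤ_[p]), Continuous F ∧ ∀ g, cv (F g) = (p : ℚ_[p]) ^ c • f g := by
  obtain ⟨B, hB⟩ := exists_bound hf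
  obtain ⟨c, hc⟩ := exists_pow (p := p) B
  have h1 : ∀ g i, ‖(p : ℚ_[p]) ^ c * f g i‖ ≤ 1 := by
    intro g i
    rw [norm_mul]
    refine le_trans (mul_le_mul_of_nonneg_left ?_ (norm_nonneg _)) hc
    exact (norm_le_pi_norm (f g) i).trans (hB g)
  refine ⟨c, fun g i => ⟨(p : ℚ_[p]) ^ c * f g i, h1 g i⟩, ?_, fun g => rfl⟩
  refine continuous_pi fun i => Continuous.subtype_mk ?_ _
  exact continuous_const.mul ((continuous_apply i).comp hf)

end Top

section Trans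

variable {G : Type u} [Group G] [TopologicalSpace G]
  {L : Type} [NormedField L] [NormedAlgebra ℚ_[p] L] [FiniteDimensional ℚ_[p] L] {n : ℕ}
  {ρ : G →* GL (Fin n) L} {R : G →* GL (Fin N) ℤ_[p]}
  {Φ : (Fin n → L) ≃ₗ[ℚ_[p]] (Fin N → ℚ_[p])}

omit [TopologicalSpace G] in
theorem sym_mulVec (hΦ : ∀ g v, Φ ((ρ g : Matrix (Fin n) (Fin n) L) *ᵥ v) =
    ((R g : Matrix (Fin N) (Fin N) ℤ_[p]).map (algebraMap ℤ_[p] ℚ_[p])) *ᵥ Φ v) (g : G)
    (w : Fin N → ℤ_[p]) : (ρ g : Matrix (Fin n) (Fin n) L) *ᵥ Φ.symm (cv w) =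
      Φ.symm (cv ((R g : Matrix (Fin N) (Fin N) ℤ_[p]) *ᵥ w)) := by
  apply Φ.injective
  rw [hΦ, LinearEquiv.apply_symm_apply, LinearEquiv.apply_symm_apply, cv_mulVec]

theorem mem_cZ1 (hΦ : ∀ g v, Φ ((ρ g : Matrix (Fin n) (Fin n) L) *ᵥ v) =
    ((R g : Matrix (Fin N) (Fin N) ℤ_[p]).map (algebraMap ℤ_[p] ℚ_[p])) *ᵥ Φ v)
    {x : G → Fin n → L} (hx : x ∈ BKPar.Z1 ρ) {F : G → Fin N → ℤ_[p]} (hF : Continuous F)
    {c : ℚ_[p]} (hc : ∀ g, cv (F g) = c • Φ (x g)) : F ∈ cZ1 R := by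
  refine ⟨hF, fun g h => ?_⟩
  apply cv_inj
  rw [cv_add, cv_mulVec, hc, hc, hc, hx.2 g h, map_add, smul_add, hΦ, Matrix.mulVec_smul]

theorem mem_Z1 (hΦ : ∀ g v, Φ ((ρ g : Matrix (Fin n) (Fin n) L) *ᵥ v) =
    ((R g : Matrix (Fin N) (Fin N) ℤ_[p]).map (algebraMap ℤ_[p] ℚ_[p])) *ᵥ Φ v)
    {X : G → Fin N → ℤ_[p]} (hX : X ∈ cZ1 R) : (fun g => Φ.symm (cv (X g))) ∈ BKPar.Z1 ρ := by
  refine ⟨?_, fun g h => ?_⟩
  · exact (Φ.symm.toLinearMap.continuous_of_finiteDimensional).comp (continuous_cv.comp hX.1)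
  · show Φ.symm (cv (X (g * h))) = _
    rw [hX.2 g h, cv_add, map_add, ← sym_mulVec hΦ]

omit [FiniteDimensional ℚ_[p] L] in
theorem coe_sum_apply {r : ℕ} (a : Fin r → ℚ_[p]) (x : Fin r → BKPar.Z1 ρ) (g : G) :
    (∑ i, a i • x i).1 g = ∑ i, a i • (x i).1 g := by
  have h : ∀ s : Finset (Fin r), (∑ i ∈ s, a i • x i).1 g = ∑ i ∈ s, a i • (x i).1 g := by
    intro s
    classical
    induction s using Finset.induction_on with
    | empty => simp
    | insert i s hi ih =>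
      rw [Finset.sum_insert hi, Finset.sum_insert hi, ← ih]
      rfl
  exact h _

theorem rank_bound [CompactSpace G] (hΦ : ∀ g v, Φ ((ρ g : Matrix (Fin n) (Fin n) L) *ᵥ v) =
    ((R g : Matrix (Fin N) (Fin N) ℤ_[p]).map (algebraMap ℤ_[p] ℚ_[p])) *ᵥ Φ v) (M : ℕ)
    (h : ∀ (r : ℕ) (x : Fin r → G → Fin N → ℤ_[p]), (∀ i, x i ∈ cZ1 R) →
      LinearIndependent ℤ_[p] x → r ≤ M) :
    Module.rank ℚ_[p] (BKPar.Z1 ρ) ≤ M := by
  apply rank_le
  intro s hs
  have e : Fin s.card ≃ s := s.equivFin.symm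
  have hs' : LinearIndependent ℚ_[p] (fun i : Fin s.card => ((e i : s) : BKPar.Z1 ρ)) :=
    hs.comp e e.injective
  have hex : ∀ i : Fin s.card, ∃ (c : ℕ) (F : G → Fin N → ℤ_[p]), Continuous F ∧
      ∀ g, cv (F g) = (p : ℚ_[p]) ^ c • Φ (((e i : s) : BKPar.Z1 ρ).1 g) := fun i =>
    exists_scale ((Φ.toLinearMap.continuous_of_finiteDimensional).comp ((e i : s) : BKPar.Z1 ρ).2.1)
  choose c F hF hcF using hex
  refine h s.card F (fun i => mem_cZ1 hΦ ((e i : s) : BKPar.Z1 ρ).2 (hF i) (hcF i)) ?_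
  rw [Fintype.linearIndependent_iff]
  intro a ha i
  rw [Fintype.linearIndependent_iff] at hs'
  have hp0 : (p : ℚ_[p]) ≠ 0 := by exact_mod_cast (Fact.out : p.Prime).ne_zero
  have h1 := hs' (fun i => (a i : ℚ_[p]) * (p : ℚ_[p]) ^ c i) (by
    apply Subtype.ext
    funext g
    apply Φ.injective
    have h2 := congrFun ha g
    have h3 := congrArg cv h2
    rw [Finset.sum_apply] at h3
    simp only [Pi.smul_apply] at h3
    rw [cv_sum, Pi.zero_apply, cv_zero] at h3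
    simp only [hcF] at h3
    have h5 : Φ ((∑ i, ((a i : ℚ_[p]) * (p : ℚ_[p]) ^ c i) • ((e i : s) : BKPar.Z1 ρ)).1 g) =
        ∑ i, (a i : ℚ_[p]) • (p : ℚ_[p]) ^ c i • Φ (((e i : s) : BKPar.Z1 ρ).1 g) := by
      rw [coe_sum_apply, map_sum]
      exact Finset.sum_congr rfl fun i _ => by rw [map_smul, mul_smul]
    have h6 : Φ ((0 : BKPar.Z1 ρ).1 g) = 0 := map_zero Φ
    rw [h5, h6, h3]) i
  have h4 := (mul_eq_zero.1 h1).resolve_right (pow_ne_zero _ hp0)
  exact Subtype.ext h4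

end Trans

end NDp

open NDp in
theorem stND (h1 : StLim1.{u}) (h2 : StLim2.{u}) (h3 : StLat.{u}) : StND.{u} := by
  intro p _ G _ _ _ _ _ χ m hD L _ _ _ n ρ ρ' hρ hρ' hdual hinv
  obtain ⟨N, R, R', lam, Φ, Φ', hN, hR, hR', hlam, hRR, hΦ, hΦ', hpair⟩ :=
    h3 p G χ hD.cont L n ρ ρ' hρ hρ' hdual
  have hinv' : ∀ v : Fin N → ℤ_[p],
      (∀ g, (R' g : Matrix (Fin N) (Fin N) ℤ_[p]) *ᵥ v = v) → v = 0 := by
    intro v hv
    have := hinv (Φ'.symm (cv v)) (fun g => by rw [sym_mulVec hΦ', hv g])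
    rw [LinearEquiv.map_eq_zero_iff] at this
    exact cv_inj (this.trans cv_zero.symm)
  have hrank : Module.rank ℚ_[p] (BKPar.Z1 ρ) ≤ ((m + 1) * N : ℕ) :=
    rank_bound hΦ _ (h1 p G χ m hD N R R' hR hR' hRR hinv')
  have hfin : Module.Finite ℚ_[p] (BKPar.Z1 ρ) :=
    Module.rank_lt_aleph0_iff.1 (hrank.trans_lt (Cardinal.natCast_lt_aleph0))
  have hfr : Module.finrank ℚ_[p] (BKPar.Z1 ρ) ≤ (m + 1) * N :=
    Module.finrank_le_of_rank_le hrank
  have hfinL : FiniteDimensional L (BKPar.Z1 ρ) := Module.Finite.of_restrictScalars_finite ℚ_[p] L _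
  refine ⟨hfinL, ?_, ?_⟩
  · have h4 := Module.finrank_mul_finrank ℚ_[p] L (BKPar.Z1 ρ)
    have h5 : 0 < Module.finrank ℚ_[p] L := Module.finrank_pos
    rw [← h4, hN] at hfr
    have h6 : Module.finrank ℚ_[p] L * Module.finrank L (BKPar.Z1 ρ) ≤
        Module.finrank ℚ_[p] L * ((m + 1) * n) := hfr.trans (le_of_eq (by ring))
    exact Nat.le_of_mul_le_mul_left h6 h5
  · intro y hy hyx
    have hp0 : (p : ℚ_[p]) ≠ 0 := by exact_mod_cast (Fact.out : p.Prime).ne_zero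
    obtain ⟨c1, Y, hY, hcY⟩ := exists_scale
      ((Φ'.toLinearMap.continuous_of_finiteDimensional).comp hy.1)
    have hYZ : Y ∈ cZ1 R' := mem_cZ1 hΦ' hy hY hcY
    -- a basis of the cocycles
    set W := BKPar.Z1 ρ with hW
    let r := Module.finrank ℚ_[p] W
    let bas : Module.Basis (Fin r) ℚ_[p] W := Module.finBasis ℚ_[p] W
    have hex : ∀ i : Fin r, ∃ β : G → L, Continuous β ∧ ∀ g h,
        (bas i).1 g ⬝ᵥ (ρ' g : Matrix (Fin n) (Fin n) L) *ᵥ y h =
          chi χ L g * β h - β (g * h) + β g := fun i => hyx (bas i).1 (bas i).2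
    choose β hβ hβ' using hex
    have hlamc : Continuous lam := lam.continuous_of_finiteDimensional
    have hbd : ∀ i : Fin r, ∃ B : ℝ, ∀ g, ‖lam (β i g)‖ ≤ B := fun i =>
      exists_bound (hlamc.comp (hβ i))
    choose B hB using hbd
    -- bounded coordinates
    let T : (Fin r → ℚ_[p]) →ₗ[ℚ_[p]] C(G, Fin N → ℚ_[p]) :=
      { toFun := fun a => ⟨fun g => ∑ i, a i • Φ ((bas i).1 g), by
          refine continuous_finsetSum _ fun i _ => ?_
          exact ((Φ.toLinearMap.continuous_of_finiteDimensional).comp (bas i).2.1).const_smul (a i)⟩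
        map_add' := fun a a' => by
          ext g j
          simp [add_mul, Finset.sum_add_distrib]
        map_smul' := fun t a => by
          ext g j
          simp [Finset.mul_sum, mul_assoc] }
    have hT : LinearMap.ker T = ⊥ := by
      rw [LinearMap.ker_eq_bot']
      intro a ha
      have h4 : ∑ i, a i • bas i = 0 := by
        apply Subtype.ext
        funext g
        apply Φ.injective
        have h5 : T a g = 0 := by rw [ha]; rfl
        have h6 : T a g = ∑ i, a i • Φ ((bas i).1 g) := rfl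
        rw [h6] at h5
        have h7 : (∑ i, a i • bas i).1 g = ∑ i, a i • (bas i).1 g := coe_sum_apply a bas g
        rw [h7, map_sum]
        simp only [map_smul]
        rw [h5]
        exact (map_zero Φ).symm
      funext i
      exact Fintype.linearIndependent_iff.1 bas.linearIndependent a h4 i
    obtain ⟨K, hK0, hK⟩ := T.exists_antilipschitzWith hT
    -- uniform denominators
    obtain ⟨c2, hc2⟩ := exists_pow (p := p) (∑ i, (K : ℝ) * |B i|)
    have hunif : ∃ c : ℕ, ∀ x ∈ cZ1 R, ∃ β : G → ℤ_[p], Continuous β ∧ ∀ g h,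
        (p : ℤ_[p]) ^ c * (x g ⬝ᵥ (R' g : Matrix (Fin N) (Fin N) ℤ_[p]) *ᵥ Y h) =
          ((χ g : ℤ_[p]ˣ) : ℤ_[p]) * β h - β (g * h) + β g := by
      refine ⟨c2, fun X hX => ?_⟩
      let x : W := ⟨fun g => Φ.symm (cv (X g)), mem_Z1 hΦ hX⟩
      let a : Fin r → ℚ_[p] := fun i => bas.repr x i
      have hx : x = ∑ i, a i • bas i := (bas.sum_repr x).symm
      have hxg : ∀ g, x.1 g = ∑ i, a i • (bas i).1 g := by
        intro g
        have h6 := congrArg (fun z : W => z.1 g) hx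
        have h7 : (∑ i, a i • bas i).1 g = ∑ i, a i • (bas i).1 g := coe_sum_apply a bas g
        exact h6.trans h7
      have hTa : ∀ g, T a g = cv (X g) := by
        intro g
        have h6 : T a g = ∑ i, a i • Φ ((bas i).1 g) := rfl
        have h7 : Φ (x.1 g) = cv (X g) := Φ.apply_symm_apply _
        rw [h6, ← h7, hxg g, map_sum]
        simp only [map_smul]
      have hTn : ‖T a‖ ≤ 1 := by
        rw [ContinuousMap.norm_le _ zero_le_one]
        intro g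
        rw [hTa, pi_norm_le_iff_of_nonneg zero_le_one]
        intro i
        exact (X g i).2
      have han : ‖a‖ ≤ K := by
        have h6 := hK.le_mul_dist a 0
        rw [map_zero, dist_zero_right, dist_zero_right] at h6
        refine h6.trans ?_
        calc (K : ℝ) * ‖T a‖ ≤ K * 1 := mul_le_mul_of_nonneg_left hTn K.2
          _ = K := mul_one _
      let b : G → ℚ_[p] := fun g => ∑ i, a i * lam (β i g)
      have hbc : Continuous b :=
        continuous_finsetSum _ fun i _ => continuous_const.mul (hlamc.comp (hβ i))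
      have hbn : ∀ g, ‖(p : ℚ_[p]) ^ (c2 + c1) * b g‖ ≤ 1 := by
        intro g
        have h6 : ‖b g‖ ≤ ∑ i, (K : ℝ) * |B i| := by
          refine (norm_sum_le _ _).trans (Finset.sum_le_sum fun i _ => ?_)
          rw [norm_mul]
          exact mul_le_mul ((norm_le_pi_norm a i).trans han) ((hB i g).trans (le_abs_self _))
            (norm_nonneg _) K.2
        rw [pow_add, norm_mul, norm_mul]
        have h7 : ‖(p : ℚ_[p]) ^ c1‖ ≤ 1 := by
          rw [norm_pow]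
          refine pow_le_one₀ (norm_nonneg _) ?_
          rw [Padic.norm_p]
          exact inv_le_one_of_one_le₀ (by exact_mod_cast (Fact.out : p.Prime).one_lt.le)
        have h8 : ‖(p : ℚ_[p]) ^ c2‖ * ‖b g‖ ≤ 1 :=
          (mul_le_mul_of_nonneg_left h6 (norm_nonneg _)).trans hc2
        calc ‖(p : ℚ_[p]) ^ c2‖ * ‖(p : ℚ_[p]) ^ c1‖ * ‖b g‖
            = ‖(p : ℚ_[p]) ^ c1‖ * (‖(p : ℚ_[p]) ^ c2‖ * ‖b g‖) := by ring
          _ ≤ 1 * 1 := mul_le_mul h7 h8 (by positivity) zero_le_one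
          _ = 1 := one_mul 1
      refine ⟨fun g => ⟨(p : ℚ_[p]) ^ (c2 + c1) * b g, hbn g⟩,
        Continuous.subtype_mk (continuous_const.mul hbc) _, fun g h => ?_⟩
      -- the identity over `ℚ_p`
      have hkey : cv (X g) ⬝ᵥ ((R' g : Matrix (Fin N) (Fin N) ℤ_[p]).map
          (algebraMap ℤ_[p] ℚ_[p])) *ᵥ cv (Y h) =
          (p : ℚ_[p]) ^ c1 * ((((χ g : ℤ_[p]ˣ) : ℤ_[p]) : ℚ_[p]) * b h - b (g * h) + b g) := by
        have h6 : ∀ i, lam ((bas i).1 g ⬝ᵥ (ρ' g : Matrix (Fin n) (Fin n) L) *ᵥ y h) =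
            (((χ g : ℤ_[p]ˣ) : ℤ_[p]) : ℚ_[p]) * lam (β i h) - lam (β i (g * h)) +
              lam (β i g) := by
          intro i
          rw [hβ' i g h, map_add, map_sub]
          unfold chi
          rw [← Algebra.smul_def, map_smul, smul_eq_mul]
        have h7 : Φ (x.1 g) = cv (X g) := Φ.apply_symm_apply _
        have h8 : cv (Y h) = (p : ℚ_[p]) ^ c1 • Φ' (y h) := hcY h
        rw [← h7, h8, Matrix.mulVec_smul, ← hΦ', dotProduct_smul, hpair, hxg g]
        have h9 : (∑ i, a i • (bas i).1 g) ⬝ᵥ (ρ' g : Matrix (Fin n) (Fin n) L) *ᵥ y h =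
            ∑ i, a i • ((bas i).1 g ⬝ᵥ (ρ' g : Matrix (Fin n) (Fin n) L) *ᵥ y h) := by
          rw [sum_dotProduct]
          exact Finset.sum_congr rfl fun i _ => smul_dotProduct _ _ _
        rw [h9, map_sum, smul_eq_mul]
        congr 1
        simp only [map_smul, smul_eq_mul, h6, b]
        rw [Finset.mul_sum, ← Finset.sum_sub_distrib, ← Finset.sum_add_distrib]
        exact Finset.sum_congr rfl fun i _ => by ring
      apply Subtype.ext
      rw [PadicInt.coe_add, PadicInt.coe_sub, PadicInt.coe_mul, PadicInt.coe_mul,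
        PadicInt.coe_pow, PadicInt.coe_natCast, cv_dot, cv_mulVec, hkey]
      ring
    obtain ⟨c, v, hv⟩ := h2 p G χ m hD N R R' hR hR' hRR hinv' Y hYZ hunif
    refine ⟨((p : ℚ_[p]) ^ (c + c1))⁻¹ • Φ'.symm (cv v), ?_⟩
    funext g
    show (ρ' g : Matrix (Fin n) (Fin n) L) *ᵥ (((p : ℚ_[p]) ^ (c + c1))⁻¹ • Φ'.symm (cv v)) -
      ((p : ℚ_[p]) ^ (c + c1))⁻¹ • Φ'.symm (cv v) = y g
    have h4 : (ρ' g : Matrix (Fin n) (Fin n) L) *ᵥ (((p : ℚ_[p]) ^ (c + c1))⁻¹ • Φ'.symm (cv v)) =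
        ((p : ℚ_[p]) ^ (c + c1))⁻¹ • ((ρ' g : Matrix (Fin n) (Fin n) L) *ᵥ Φ'.symm (cv v)) :=
      Matrix.mulVec_smul _ _ _
    rw [h4, sym_mulVec hΦ', ← smul_sub, ← map_sub, ← cv_sub, ← hv g, cv_smul, hcY g]
    apply Φ'.injective
    have h5 : (((p : ℤ_[p]) ^ c : ℤ_[p]) : ℚ_[p]) = (p : ℚ_[p]) ^ c := by
      rw [PadicInt.coe_pow, PadicInt.coe_natCast]
    rw [h5, map_smul, LinearEquiv.apply_symm_apply, smul_smul, smul_smul, pow_add]
    have h6 : ((p : ℚ_[p]) ^ c * (p : ℚ_[p]) ^ c1)⁻¹ * ((p : ℚ_[p]) ^ c * (p : ℚ_[p]) ^ c1) = 1 :=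
      inv_mul_cancel₀ (mul_ne_zero (pow_ne_zero _ hp0) (pow_ne_zero _ hp0))
    rw [mul_assoc, h6, one_smul]
    rfl

end BKND
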