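import Pool.Agent.Lib.MP_7c08ba_nt.ND.Pol
import Pool.Agent.Lib.MP_7c08ba_nt.ND.Final
import Pool.Agent.Lib.MP_7c08ba_nt.ND.DG
import Pool.Agent.Lib.MP_7c08ba_nt.ND.ND
import Pool.Agent.Lib.MP_7c08ba_nt.ND.Lim1
import Pool.Agent.Lib.MP_7c08ba_nt.ND.Lim2
import Pool.Agent.Lib.MP_7c08ba_nt.ND.Lat
import Pool.Agent.Lib.MP_7c08ba_nt.ND.Dat2
import Pool.Agent.Lib.MP_7c08ba_nt.ND.A
import Pool.Agent.Lib.MP_7c08ba_nt.ND.B
import Pool.Agent.Lib.MP_7c08ba_nt.ND.E

set_option autoImplicit false

/-!
The local theorem, without hypotheses.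
-/

namespace BKND

universe u

/-- local Euler characteristic and duality for pro-`p` groups -/
theorem nd : StND.{u} := stND (stLim1 stE) (stLim2 stA (stB stA) stE) stLat

/-- the same for groups with the pro-`p` group as a quotient -/
theorem dg : StDG.{u} := stDG nd

/-- local Euler characteristic and duality for the decomposition group -/
theorem final : StFinal := stFinal dg stDat2

end BKND
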