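import Mathlib
import Pool.Agent.Lib.MP_7c08ba_nt.ND.Stmts

set_option autoImplicit false
set_option linter.unusedSectionVars false

/-!
The local theorem for polarised pairs `ρ(g)ᵀ B ρ'(g) = χ(g) B`.
-/

noncomputable section

namespace BKND

open Matrix

namespace Pol

variable {G : Type*} [Group G] [TopologicalSpace G] {L : Type*} [NormedField L] {n : ℕ}

/-- conjugation with an invertible matrix -/
def cj (B : GL (Fin n) L) (ρ : G →* GL (Fin n) L) : G →* GL (Fin n) L :=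
  (MulAut.conj B).toMonoidHom.comp ρ

theorem cj_apply (B : GL (Fin n) L) (ρ : G →* GL (Fin n) L) (g : G) :
    ((cj B ρ g : GL (Fin n) L) : Matrix (Fin n) (Fin n) L) =
      (B : Matrix (Fin n) (Fin n) L) * (ρ g : Matrix (Fin n) (Fin n) L) *
        ((B⁻¹ : GL (Fin n) L) : Matrix (Fin n) (Fin n) L) := rfl

theorem cj_continuous (B : GL (Fin n) L) {ρ : G →* GL (Fin n) L} (hρ : Continuous ρ) :
    Continuous (cj B ρ) := by
  change Continuous fun g => B * ρ g * B⁻¹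
  exact (continuous_const.mul hρ).mul continuous_const

theorem cj_resUni (B : GL (Fin n) L) {ρ : G →* GL (Fin n) L} (hρ : BKPar.ResUni ρ) :
    BKPar.ResUni (cj B ρ) := by
  intro g i
  have h1 : ((cj B ρ g : GL (Fin n) L) : Matrix (Fin n) (Fin n) L).charpoly =
      (ρ g : Matrix (Fin n) (Fin n) L).charpoly := by
    rw [cj_apply, Matrix.coe_units_inv]
    exact Matrix.charpoly_units_conj B (ρ g : Matrix (Fin n) (Fin n) L)
  rw [h1]
  exact hρ g i

theorem mul_inv_mulVec (B : GL (Fin n) L) (v : Fin n → L) :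
    (B : Matrix (Fin n) (Fin n) L) *ᵥ (((B⁻¹ : GL (Fin n) L) : Matrix (Fin n) (Fin n) L) *ᵥ v) =
      v := by
  rw [Matrix.mulVec_mulVec, ← Units.val_mul, mul_inv_cancel, Units.val_one, Matrix.one_mulVec]

theorem inv_mul_mulVec (B : GL (Fin n) L) (v : Fin n → L) :
    ((B⁻¹ : GL (Fin n) L) : Matrix (Fin n) (Fin n) L) *ᵥ ((B : Matrix (Fin n) (Fin n) L) *ᵥ v) =
      v := by
  rw [Matrix.mulVec_mulVec, ← Units.val_mul, inv_mul_cancel, Units.val_one, Matrix.one_mulVec]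

theorem cj_mulVec (B : GL (Fin n) L) (ρ : G →* GL (Fin n) L) (g : G) (v : Fin n → L) :
    ((cj B ρ g : GL (Fin n) L) : Matrix (Fin n) (Fin n) L) *ᵥ v =
      (B : Matrix (Fin n) (Fin n) L) *ᵥ ((ρ g : Matrix (Fin n) (Fin n) L) *ᵥ
        (((B⁻¹ : GL (Fin n) L) : Matrix (Fin n) (Fin n) L) *ᵥ v)) := by
  rw [cj_apply, Matrix.mulVec_mulVec, Matrix.mulVec_mulVec, Matrix.mul_assoc]

end Pol

/-- the local theorem for the decomposition group and a polarised pair -/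
theorem final_pol (hfin : StFinal) (q : ℕ) (F : Type) [Field F] [NumberField F] (s : F)
    (hq : BKPar.FieldHyp q F s) (ι : AlgebraicClosure F →+* PadicAlgCl 2)
    (L : Type) [NormedField L] [NormedAlgebra ℚ_[2] L] [FiniteDimensional ℚ_[2] L] (n : ℕ)
    (ρ ρ' : BKPar.D F ι →* GL (Fin n) L) (hρ : Continuous ρ) (hρ' : Continuous ρ')
    (hru : BKPar.ResUni ρ) (hru' : BKPar.ResUni ρ') (B : Matrix (Fin n) (Fin n) L)
    (hB : IsUnit B.det)
    (hdual : ∀ g, (ρ g : Matrix (Fin n) (Fin n) L)ᵀ * B * (ρ' g : Matrix (Fin n) (Fin n) L) =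
      BKPar.chi ((BKPar.cyc F).comp (BKPar.D F ι).subtype) L g • B)
    (hinv : ∀ v : Fin n → L, (∀ g, (ρ' g : Matrix (Fin n) (Fin n) L) *ᵥ v = v) → v = 0) :
    FiniteDimensional L (BKPar.Z1 ρ) ∧ Module.finrank L (BKPar.Z1 ρ) ≤ 2 * n ∧
    ∀ y ∈ BKPar.Z1 ρ', (∀ x ∈ BKPar.Z1 ρ,
        (fun g h => x g ⬝ᵥ B *ᵥ ((ρ' g : Matrix (Fin n) (Fin n) L) *ᵥ y h)) ∈
          BKPar.CB2 ((BKPar.cyc F).comp (BKPar.D F ι).subtype) L) →
      y ∈ BKPar.B1 ρ' := by
  obtain ⟨b, hb⟩ : ∃ b : GL (Fin n) L, (b : Matrix (Fin n) (Fin n) L) = B :=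
    ((Matrix.isUnit_iff_isUnit_det B).2 hB)
  subst hb
  have h1 := hfin q F s hq ι L n ρ (Pol.cj b ρ') hρ (Pol.cj_continuous b hρ') hru
    (Pol.cj_resUni b hru') (fun g => by
      rw [Pol.cj_apply, ← Matrix.mul_assoc, ← Matrix.mul_assoc, hdual g, Matrix.smul_mul,
        ← Units.val_mul, mul_inv_cancel, Units.val_one]) (fun v hv => by
      have h2 := hinv (((b⁻¹ : GL (Fin n) L) : Matrix (Fin n) (Fin n) L) *ᵥ v) (fun g => by
        have h3 := congrArg (fun w => ((b⁻¹ : GL (Fin n) L) : Matrix (Fin n) (Fin n) L) *ᵥ w)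
          (hv g)
        simp only [Pol.cj_mulVec, Pol.inv_mul_mulVec] at h3
        exact h3)
      rw [← Pol.mul_inv_mulVec b v, h2, Matrix.mulVec_zero])
  refine ⟨h1.1, h1.2.1, fun y hy hxy => ?_⟩
  have h2 := h1.2.2 (fun g => (b : Matrix (Fin n) (Fin n) L) *ᵥ y g) ⟨?_, fun g h => ?_⟩
    (fun x hx => ?_)
  · obtain ⟨v, hv⟩ := h2
    refine ⟨((b⁻¹ : GL (Fin n) L) : Matrix (Fin n) (Fin n) L) *ᵥ v, ?_⟩
    funext g
    have h3 : (Pol.cj b ρ' g : Matrix (Fin n) (Fin n) L) *ᵥ v - v =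
      (b : Matrix (Fin n) (Fin n) L) *ᵥ y g := congrFun hv g
    have h4 := congrArg (fun w => ((b⁻¹ : GL (Fin n) L) : Matrix (Fin n) (Fin n) L) *ᵥ w) h3
    simp only [Matrix.mulVec_sub, Pol.cj_mulVec, Pol.inv_mul_mulVec] at h4
    exact h4
  · exact continuous_const.matrix_mulVec hy.1
  · simp only [hy.2 g h, Matrix.mulVec_add, Pol.cj_mulVec, Pol.inv_mul_mulVec]
  · have h3 := hxy x hx
    simp only [Pol.cj_mulVec, Pol.inv_mul_mulVec]
    exact h3

end BKND
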